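import Pool.Agent.R423.GC.Gau3

/-!
# The total Gauss sum
-/

set_option autoImplicit false

open Finset ZMod

namespace Pool.Agent.R423.GC

lemma c5_sq {x : ZMod 5} (hx : x ≠ 0) : c5 x * c5 x = 1 := by
  rw [c5_apply, ← Int.cast_mul, ← pow_two, quadraticChar_sq_one hx, Int.cast_one]

/-- the total sum -/
theorem comb_eval {a : MulChar (ZMod 41) ℂ} (ha : IsQ a) {q : ℕ} [NeZero q]
    [NeZero (41 * q)] [NeZero (5 * (41 * q))] {χ : DirichletCharacter ℂ q} (hχ : χ.IsPrimitive)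
    (hr : χ⁻¹ = χ) (h1 : Nat.Coprime 5 (41 * q)) (h2 : Nat.Coprime 41 q) :
    ∑ x : ZMod (5 * (41 * q)), ∑ y : ZMod (5 * (41 * q)),
      (c5 ((chineseRemainder h1 x).1 + (chineseRemainder h1 y).1 * 3) *
        ((a ((chineseRemainder h2 (chineseRemainder h1 x).2).1 +
            (chineseRemainder h2 (chineseRemainder h1 y).2).1 * 7) *
          a⁻¹ ((chineseRemainder h2 (chineseRemainder h1 x).2).1 +
            (chineseRemainder h2 (chineseRemainder h1 y).2).1 * 35)) *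
          χ (Nf (chineseRemainder h2 (chineseRemainder h1 x).2).2
            (chineseRemainder h2 (chineseRemainder h1 y).2).2))) *
        ex (5 * (41 * q)) 1 (2 * x + y) = -(205 * q * g5) * χ (-1) := by
  have hq5 : q.Coprime 5 := (Nat.Coprime.coprime_dvd_right (Dvd.intro_left 41 rfl) h1).symm
  -- Bezout
  obtain ⟨t2, t1, ht⟩ := Nat.isCoprime_iff_coprime.2 h1
  -- `t2 * 5 + t1 * (41 q) = 1`
  obtain ⟨u, v, huv⟩ := Nat.isCoprime_iff_coprime.2 h2
  -- `u * 41 + v * q = 1`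
  have e1 : (1 : ℤ) = t1 * ((41 * q : ℕ) : ℤ) + t2 * ((5 : ℕ) : ℤ) := by rw [← ht]; ring
  have e2 : t2 = (t2 * v) * ((q : ℕ) : ℤ) + (t2 * u) * ((41 : ℕ) : ℤ) := by
    linear_combination (-t2) * huv
  set F : ZMod 5 → ZMod 5 → ℂ := fun x y => c5 (x + y * 3) * ex 5 t1 (2 * x + y) with hF
  set G1 : ZMod 41 → ZMod 41 → ℂ := fun x y => (a (x + y * 7) * a⁻¹ (x + y * 35)) *
    ex 41 (t2 * v) (2 * x + y) with hG1
  set G2 : ZMod q → ZMod q → ℂ := fun x y => χ (Nf x y) * ex q (t2 * u) (2 * x + y) with hG2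
  set G : ZMod (41 * q) → ZMod (41 * q) → ℂ := fun x y =>
    G1 (chineseRemainder h2 x).1 (chineseRemainder h2 y).1 *
      G2 (chineseRemainder h2 x).2 (chineseRemainder h2 y).2 with hG
  have hGsum : ∑ x, ∑ y, G x y = (∑ x, ∑ y, G1 x y) * ∑ x, ∑ y, G2 x y := sum_crt h2 G1 G2
  have hmain := sum_crt h1 F G
  rw [hGsum] at hmain
  have hF' : ∑ x, ∑ y, F x y = -(5 * c5 (t1 : ZMod 5) * g5) := by
    refine T5_eval fun h => ?_
    have h3 : (5 : ℤ) ∣ 1 := by
      rw [e1]
      exact dvd_add (h.mul_right _) (Dvd.intro_left t2 rfl)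
    norm_num at h3
  have hG1' : ∑ x, ∑ y, G1 x y = 41 := by
    refine T41_eval ha fun h => ?_
    have hp : Prime (41 : ℤ) := Int.prime_iff_natAbs_prime.2 (by norm_num)
    rcases hp.dvd_or_dvd h with h | h
    · have h3 : (41 : ℤ) ∣ 5 * (1 - 5 * t2 + 5 * t2) := by
        have h4 : (41 : ℤ) ∣ t1 * ((41 * q : ℕ) : ℤ) + t2 * ((5 : ℕ) : ℤ) := by
          refine dvd_add ?_ (h.mul_right _)
          push_cast
          exact ⟨t1 * q, by ring⟩
        rw [← e1] at h4
        norm_num at h4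
      norm_num at h3
    · have h3 : (41 : ℤ) ∣ 1 := by
        rw [← huv]
        exact dvd_add (Dvd.intro_left u rfl) (h.mul_right _)
      norm_num at h3
  have hG2' : ∑ x, ∑ y, G2 x y = c5 (q : ZMod 5) * χ (-1) * q := by
    refine TZ_eval hχ hr hq5 ?_
    refine IsCoprime.mul_left ?_ ?_
    · refine ⟨((5 : ℕ) : ℤ), t1 * 41, ?_⟩
      rw [e1]
      push_cast
      ring
    · refine ⟨((41 : ℕ) : ℤ), v, ?_⟩
      rw [← huv]
      ring
  rw [hF', hG1', hG2'] at hmain
  have hc : c5 (t1 : ZMod 5) * c5 (q : ZMod 5) = 1 := by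
    rw [← map_mul]
    have h3 := congrArg (fun n : ℤ => (n : ZMod 5)) e1
    push_cast at h3
    have h4 : (5 : ZMod 5) = 0 := by decide
    have h5 : (41 : ZMod 5) = 1 := by decide
    rw [h4, h5] at h3
    have h6 : (t1 : ZMod 5) * (q : ZMod 5) = 1 := by rw [h3]; ring
    rw [h6, map_one]
  have hfin : -(5 * c5 (t1 : ZMod 5) * (g5 : ℂ)) * (41 * (c5 (q : ZMod 5) * χ (-1) * q)) =
      -(205 * q * g5) * χ (-1) := by
    linear_combination (-(205 * q * (g5 : ℂ)) * χ (-1)) * hc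
  rw [← hfin, ← hmain]
  refine Finset.sum_congr rfl fun x _ => Finset.sum_congr rfl fun y _ => ?_
  rw [ex_crt h1 e1]
  have h7 : (chineseRemainder h1 (2 * x + y)).1 =
      2 * (chineseRemainder h1 x).1 + (chineseRemainder h1 y).1 := by
    rw [map_add, map_mul, map_ofNat, Prod.fst_add, Prod.fst_mul]
    rfl
  have h8 : (chineseRemainder h1 (2 * x + y)).2 =
      2 * (chineseRemainder h1 x).2 + (chineseRemainder h1 y).2 := by
    rw [map_add, map_mul, map_ofNat, Prod.snd_add, Prod.snd_mul]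
    rfl
  rw [h7, h8]
  have h9 := ex_crt h2 e2 (2 * (chineseRemainder h1 x).2 + (chineseRemainder h1 y).2)
  rw [h9]
  have h10 : (chineseRemainder h2 (2 * (chineseRemainder h1 x).2 + (chineseRemainder h1 y).2)).1 =
      2 * (chineseRemainder h2 (chineseRemainder h1 x).2).1 +
        (chineseRemainder h2 (chineseRemainder h1 y).2).1 := by
    rw [map_add, map_mul, map_ofNat, Prod.fst_add, Prod.fst_mul]
    rfl
  have h11 : (chineseRemainder h2 (2 * (chineseRemainder h1 x).2 + (chineseRemainder h1 y).2)).2 =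
      2 * (chineseRemainder h2 (chineseRemainder h1 x).2).2 +
        (chineseRemainder h2 (chineseRemainder h1 y).2).2 := by
    rw [map_add, map_mul, map_ofNat, Prod.snd_add, Prod.snd_mul]
    rfl
  rw [h10, h11]
  simp only [hF, hG, hG1, hG2]
  ring

end Pool.Agent.R423.GC
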