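import Pool.Agent.R423.GC.Prim

/-!
# The L-functions of the character `ψ` and of its quadratic twists are real
-/

set_option autoImplicit false

open NumberField
open scoped QuadraticAlgebra
open Pool.Agent.Y773 (LI tw)

namespace Pool.Agent.R423.GC

lemma cj_cre (x : 𝓞 QF) : cre (cj x) = cre x + cim x := cre_mk _ _
lemma cj_cim (x : 𝓞 QF) : cim (cj x) = -cim x := cim_mk _ _

lemma ext_coord {x y : 𝓞 QF} (h1 : cre x = cre y) (h2 : cim x = cim y) : x = y := by
  rw [eq_mk x, eq_mk y, h1, h2]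

lemma cj_cj (x : 𝓞 QF) : cj (cj x) = x := by
  apply ext_coord
  · rw [cj_cre, cj_cre, cj_cim]; ring
  · rw [cj_cim, cj_cim]; ring

/-- the conjugation -/
noncomputable def cjE : 𝓞 QF ≃+* 𝓞 QF where
  toFun := cj
  invFun := cj
  left_inv := cj_cj
  right_inv := cj_cj
  map_mul' x y := by
    apply ext_coord
    · rw [cj_cre, (coord_mul _ _).1, (coord_mul _ _).1, (coord_mul _ _).2, cj_cre, cj_cre, cj_cim,
        cj_cim]
      ring
    · rw [cj_cim, (coord_mul _ _).2, (coord_mul _ _).2, cj_cre, cj_cre, cj_cim,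
        cj_cim]
      ring
  map_add' x y := by
    apply ext_coord
    · rw [cj_cre, (coord_add _ _).1, (coord_add _ _).1, (coord_add _ _).2, cj_cre, cj_cre]
      ring
    · rw [cj_cim, (coord_add _ _).2, (coord_add _ _).2, cj_cim, cj_cim]
      ring

lemma r5_cj (x : 𝓞 QF) : r5 (cj x) = r5 x := by
  rw [r5, red_apply, red_apply, cj_cre, cj_cim]
  push_cast
  have : (5 : ZMod 5) = 0 := by decide
  linear_combination (-(cim x : ZMod 5)) * this

lemma rP_cj (x : 𝓞 QF) : rP (cj x) = rQ x := by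
  rw [rP, rQ, red_apply, red_apply, cj_cre, cj_cim]
  push_cast
  have : (41 : ZMod 41) = 0 := by decide
  linear_combination (-(cim x : ZMod 41)) * this

lemma rQ_cj (x : 𝓞 QF) : rQ (cj x) = rP x := by
  rw [← cj_cj x, rP_cj, cj_cj]

lemma norm_cj (x : 𝓞 QF) : Algebra.norm ℤ (cj x) = Algebra.norm ℤ x := by
  rw [norm_int, norm_int, cj_cre, cj_cim]
  ring

/-- the conjugation of ideals -/
noncomputable def cjI : Ideal (𝓞 QF) ≃ Ideal (𝓞 QF) where
  toFun I := I.map (cjE : 𝓞 QF →+* 𝓞 QF)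
  invFun I := I.map (cjE : 𝓞 QF →+* 𝓞 QF)
  left_inv I := by
    simp only
    rw [Ideal.map_map]
    have : (cjE : 𝓞 QF →+* 𝓞 QF).comp (cjE : 𝓞 QF →+* 𝓞 QF) = RingHom.id _ := by
      refine RingHom.ext fun x => ?_
      exact cj_cj x
    rw [this, Ideal.map_id]
  right_inv I := by
    simp only
    rw [Ideal.map_map]
    have : (cjE : 𝓞 QF →+* 𝓞 QF).comp (cjE : 𝓞 QF →+* 𝓞 QF) = RingHom.id _ := by
      refine RingHom.ext fun x => ?_
      exact cj_cj x
    rw [this, Ideal.map_id]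

lemma cjI_span (x : 𝓞 QF) : cjI (Ideal.span {x}) = Ideal.span {cj x} := by
  show Ideal.map _ _ = _
  rw [Ideal.map_span, Set.image_singleton]
  rfl

lemma absNorm_cjI (I : Ideal (𝓞 QF)) : Ideal.absNorm (cjI I) = Ideal.absNorm I := by
  rw [← Ideal.span_singleton_generator I, cjI_span, Ideal.absNorm_span_singleton,
    Ideal.absNorm_span_singleton, norm_cj]

lemma conj_mulChar {p : ℕ} [Fact p.Prime] (a : MulChar (ZMod p) ℂ) (x : ZMod p) :
    (starRingEnd ℂ) (a x) = a⁻¹ x := MulChar.star_apply' a x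

lemma c5_conj (x : ZMod 5) : (starRingEnd ℂ) (c5 x) = c5 x := by
  rw [c5_apply]
  exact map_intCast (starRingEnd ℂ) _

lemma psi_cjI {a : MulChar (ZMod 41) ℂ} (ha : IsQ a) (I : Ideal (𝓞 QF)) :
    psi ha (cjI I) = (starRingEnd ℂ) (psi ha I) := by
  rw [← Ideal.span_singleton_generator I, cjI_span, psi_span, psi_span, f0_apply, f0_apply,
    r5_cj, rP_cj, rQ_cj, map_mul, map_mul, c5_conj, conj_mulChar, conj_mulChar, inv_inv]
  ring

/-- `χ` is real -/
def IsReal {q : ℕ} (χ : DirichletCharacter ℂ q) : Prop := ∀ x, (starRingEnd ℂ) (χ x) = χ x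

lemma tw_apply {q : ℕ} (χ : DirichletCharacter ℂ q) (ψ : Ideal (𝓞 QF) →*₀ ℂ) (I : Ideal (𝓞 QF)) :
    tw ψ χ I = ψ I * χ ((Ideal.absNorm I : ℕ) : ZMod q) := rfl

lemma LI_real {a : MulChar (ZMod 41) ℂ} (ha : IsQ a) {q : ℕ} {χ : DirichletCharacter ℂ q}
    (hχ : IsReal χ) (s : ℂ) :
    LI (tw (psi ha) χ) ((starRingEnd ℂ) s) = (starRingEnd ℂ) (LI (tw (psi ha) χ) s) := by
  unfold LI
  rw [Complex.conj_tsum, ← cjI.tsum_eq]
  refine tsum_congr fun I => ?_
  rw [tw_apply, tw_apply, psi_cjI, absNorm_cjI, map_mul, map_mul, hχ]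
  congr 1
  rw [← map_neg (starRingEnd ℂ) s]
  have h1 : ((Ideal.absNorm I : ℕ) : ℂ).arg ≠ Real.pi := by
    rw [Complex.natCast_arg]
    exact Real.pi_ne_zero.symm
  have h2 := Complex.cpow_conj ((Ideal.absNorm I : ℕ) : ℂ) (-s) h1
  rw [h2, Complex.conj_natCast]

end Pool.Agent.R423.GC
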