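import Pool.Agent.Y773.IQ.Ring

/-!
# Ideals prime to a modulus (as in `Pool.Agent.Y773.IQ.Ray` and `Pool.Agent.Y767.HC.Grp`)
-/

set_option autoImplicit false
set_option linter.unusedSectionVars false

open NumberField

namespace Pool.Agent.R423.GC.Cop

open Pool.Agent.Y773.IQ (exists_unit_lift)

section

variable {K : Type} [Field K] [NumberField K]

lemma isUnit_mk {𝔮 : Ideal (𝓞 K)} {x : 𝓞 K} (h : IsCoprime (Ideal.span {x}) 𝔮) :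
    IsUnit (Ideal.Quotient.mk 𝔮 x) := by
  obtain ⟨a, ha, b, hb, hab⟩ := (Ideal.isCoprime_iff_exists).1 h
  obtain ⟨c, rfl⟩ := Ideal.mem_span_singleton'.mp ha
  refine IsUnit.of_mul_eq_one (Ideal.Quotient.mk 𝔮 c) ?_
  rw [← map_mul, mul_comm, ← sub_eq_zero, ← map_one (Ideal.Quotient.mk 𝔮), ← map_sub,
    Ideal.Quotient.eq_zero_iff_mem]
  have : c * x - 1 = -b := by rw [← hab]; ring
  rw [this]; exact neg_mem hb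

lemma coprime_of_isUnit {𝔮 : Ideal (𝓞 K)} {x : 𝓞 K} (h : IsUnit (Ideal.Quotient.mk 𝔮 x)) :
    IsCoprime (Ideal.span {x}) 𝔮 := by
  obtain ⟨v, hv⟩ := h.exists_right_inv
  obtain ⟨c, rfl⟩ := Ideal.Quotient.mk_surjective v
  rw [Ideal.isCoprime_iff_exists]
  refine ⟨x * c, Ideal.mul_mem_right _ _ (Ideal.mem_span_singleton_self x), 1 - x * c, ?_, by ring⟩
  rw [← Ideal.Quotient.eq_zero_iff_mem, map_sub, map_mul, hv, map_one, sub_self]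

lemma cop_mono {𝔞 𝔮 𝔣 : Ideal (𝓞 K)} (h : 𝔮 ≤ 𝔣) (h1 : IsCoprime 𝔞 𝔮) : IsCoprime 𝔞 𝔣 := by
  rw [Ideal.isCoprime_iff_sup_eq] at h1 ⊢
  exact top_le_iff.mp (h1 ▸ sup_le_sup_left h 𝔞)

lemma cop_one {𝔮 : Ideal (𝓞 K)} {x : 𝓞 K} (h : x - 1 ∈ 𝔮) : IsCoprime (Ideal.span {x}) 𝔮 := by
  rw [Ideal.isCoprime_iff_exists]
  exact ⟨x, Ideal.mem_span_singleton_self x, 1 - x, by rw [← neg_sub]; exact neg_mem h, by ring⟩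

lemma cop_congr {𝔮 : Ideal (𝓞 K)} {x y : 𝓞 K} (h : x - y ∈ 𝔮) (hy : IsCoprime (Ideal.span {y}) 𝔮) :
    IsCoprime (Ideal.span {x}) 𝔮 := by
  apply coprime_of_isUnit
  rw [(Ideal.Quotient.eq).mpr h]
  exact isUnit_mk hy

lemma cop_mul {𝔮 : Ideal (𝓞 K)} {x y : 𝓞 K} (hx : IsCoprime (Ideal.span {x}) 𝔮)
    (hy : IsCoprime (Ideal.span {y}) 𝔮) : IsCoprime (Ideal.span {x * y}) 𝔮 := by
  rw [← Ideal.span_singleton_mul_span_singleton]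
  exact IsCoprime.mul_left hx hy

/-- lifting of residue classes prime to the modulus -/
lemma exists_cop_lift {𝔣 𝔮 : Ideal (𝓞 K)} (h : 𝔮 ≤ 𝔣) (h𝔮 : 𝔮 ≠ ⊥) {z : 𝓞 K}
    (hz : IsCoprime (Ideal.span {z}) 𝔣) : ∃ z' : 𝓞 K, IsCoprime (Ideal.span {z'}) 𝔮 ∧ z' - z ∈ 𝔣 := by
  have : Finite (𝓞 K ⧸ 𝔮) := Ideal.finiteQuotientOfFreeOfNeBot 𝔮 h𝔮
  obtain ⟨v, hv, hvz⟩ := exists_unit_lift (Ideal.Quotient.factor h) (Ideal.Quotient.factor_surjective h)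
    (isUnit_mk hz)
  obtain ⟨z', rfl⟩ := Ideal.Quotient.mk_surjective v
  refine ⟨z', coprime_of_isUnit hv, ?_⟩
  rw [← Ideal.Quotient.eq, ← hvz, Ideal.Quotient.factor_mk]

lemma exists_inv {𝔮 : Ideal (𝓞 K)} {x : 𝓞 K} (h : IsCoprime (Ideal.span {x}) 𝔮) :
    ∃ w : 𝓞 K, w * x - 1 ∈ 𝔮 := by
  obtain ⟨v, hv⟩ := (isUnit_mk h).exists_left_inv
  obtain ⟨w, rfl⟩ := Ideal.Quotient.mk_surjective v
  refine ⟨w, ?_⟩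
  rw [← Ideal.Quotient.eq, map_mul, hv, map_one]

lemma exists_mem_one {𝔟 𝔮 : Ideal (𝓞 K)} (h : IsCoprime 𝔟 𝔮) :
    ∃ (x : 𝓞 K) (𝔠 : Ideal (𝓞 K)), x - 1 ∈ 𝔮 ∧ Ideal.span {x} = 𝔟 * 𝔠 ∧ IsCoprime 𝔠 𝔮 := by
  obtain ⟨x, hx, b, hb, hab⟩ := Ideal.isCoprime_iff_exists.mp h
  have h1 : x - 1 ∈ 𝔮 := by
    have : x - 1 = -b := by rw [← hab]; ring
    rw [this]; exact neg_mem hb
  obtain ⟨𝔠, h𝔠⟩ := Ideal.dvd_iff_le.mpr ((Ideal.span_singleton_le_iff_mem 𝔟).mpr hx)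
  refine ⟨x, 𝔠, h1, h𝔠, ?_⟩
  have h2 := cop_one h1
  rw [h𝔠] at h2
  exact (IsCoprime.mul_left_iff.mp h2).2

/-- **moving lemma** -/
lemma exists_moving {𝔠 𝔣 𝔮 : Ideal (𝓞 K)} (h : 𝔮 ≤ 𝔣) (h𝔮 : 𝔮 ≠ ⊥) (h𝔠 : 𝔠 ≠ ⊥)
    (hc : IsCoprime 𝔠 𝔣) : ∃ (y : 𝓞 K) (𝔟 : Ideal (𝓞 K)), y - 1 ∈ 𝔣 ∧ Ideal.span {y} = 𝔠 * 𝔟 ∧
      IsCoprime 𝔟 𝔮 := by
  obtain ⟨a, ha⟩ := IsDedekindDomain.exists_sup_span_eq (I := 𝔠 * 𝔮) (J := 𝔠) Ideal.mul_le_left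
    (mul_ne_zero h𝔠 h𝔮)
  have ha1 : a ∈ 𝔠 := by
    rw [← ha]; exact Ideal.mem_sup_right (Ideal.mem_span_singleton_self a)
  obtain ⟨𝔟, h𝔟⟩ := Ideal.dvd_iff_le.mpr ((Ideal.span_singleton_le_iff_mem 𝔠).mpr ha1)
  have h1 : IsCoprime 𝔟 𝔮 := by
    rw [Ideal.isCoprime_iff_sup_eq, ← Ideal.one_eq_top]
    apply mul_left_cancel₀ h𝔠
    rw [mul_one, Ideal.mul_sup, ← h𝔟, sup_comm]
    exact ha
  have h2 : IsCoprime (Ideal.span {a}) 𝔣 := by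
    rw [h𝔟]; exact IsCoprime.mul_left hc (cop_mono h h1)
  obtain ⟨w, hw⟩ := exists_inv h2
  have hw1 : IsCoprime (Ideal.span {w}) 𝔣 := by
    have := cop_one hw
    rw [← Ideal.span_singleton_mul_span_singleton] at this
    exact (IsCoprime.mul_left_iff.mp this).1
  obtain ⟨z, hz1, hz2⟩ := exists_cop_lift h h𝔮 hw1
  refine ⟨z * a, 𝔟 * Ideal.span {z}, ?_, ?_, IsCoprime.mul_left h1 hz1⟩
  · have : z * a - 1 = (z - w) * a + (w * a - 1) := by ring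
    rw [this]
    exact add_mem (Ideal.mul_mem_right _ _ hz2) hw
  · rw [← mul_assoc, ← h𝔟, Ideal.span_singleton_mul_span_singleton, mul_comm z a]


end

end Pool.Agent.R423.GC.Cop
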