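import Pool.Agent.R423.GC.Root

/-!
# Splitting off the part of a real Dirichlet character at an odd prime
-/

set_option autoImplicit false

open ZMod

namespace Pool.Agent.R423.GC

section

variable {A m : ℕ} (h : Nat.Coprime A m) (η : DirichletCharacter ℂ (A * m))

/-- the component at `m` -/
noncomputable def compR : DirichletCharacter ℂ m where
  toFun y := η ((chineseRemainder h).symm (1, y))
  map_one' := by
    have : ((1 : ZMod A), (1 : ZMod m)) = 1 := rfl
    rw [this, map_one, map_one]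
  map_mul' x y := by
    have : ((1 : ZMod A), x * y) = (1, x) * (1, y) := by rw [Prod.mk_mul_mk, one_mul]
    rw [this, map_mul, map_mul]
  map_nonunit' y hy := by
    apply η.map_nonunit
    intro hu
    apply hy
    have h1 := hu.map (chineseRemainder h)
    rw [RingEquiv.apply_symm_apply] at h1
    exact (Prod.isUnit_iff.1 h1).2

/-- the component at `A` -/
noncomputable def compL : DirichletCharacter ℂ A where
  toFun x := η ((chineseRemainder h).symm (x, 1))
  map_one' := by
    have : ((1 : ZMod A), (1 : ZMod m)) = 1 := rfl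
    rw [this, map_one, map_one]
  map_mul' x y := by
    have : (x * y, (1 : ZMod m)) = (x, 1) * (y, 1) := by rw [Prod.mk_mul_mk, one_mul]
    rw [this, map_mul, map_mul]
  map_nonunit' y hy := by
    apply η.map_nonunit
    intro hu
    apply hy
    have h1 := hu.map (chineseRemainder h)
    rw [RingEquiv.apply_symm_apply] at h1
    exact (Prod.isUnit_iff.1 h1).1

lemma compR_apply (y : ZMod m) : compR h η y = η ((chineseRemainder h).symm (1, y)) := rfl
lemma compL_apply (x : ZMod A) : compL h η x = η ((chineseRemainder h).symm (x, 1)) := rfl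

lemma comp_split (z : ZMod (A * m)) :
    η z = compL h η (chineseRemainder h z).1 * compR h η (chineseRemainder h z).2 := by
  rw [compR_apply, compL_apply, ← map_mul, ← map_mul, Prod.mk_mul_mk, mul_one, one_mul,
    Prod.mk.eta, RingEquiv.symm_apply_apply]

lemma comp_nat (n : ℕ) : η (n : ZMod (A * m)) = compL h η (n : ZMod A) * compR h η (n : ZMod m) := by
  have h1 := comp_split h η (n : ZMod (A * m))
  have e1 : (chineseRemainder h (n : ZMod (A * m))).1 = (n : ZMod A) := by rw [map_natCast]; rfl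
  have e2 : (chineseRemainder h (n : ZMod (A * m))).2 = (n : ZMod m) := by rw [map_natCast]; rfl
  rw [e1, e2] at h1
  exact h1

end

/-- `χ(u)² = 1` at the units -/
def Inv {q : ℕ} (χ : DirichletCharacter ℂ q) : Prop := ∀ u : ZMod q, IsUnit u → χ u * χ u = 1

lemma compR_inv {A m : ℕ} (h : Nat.Coprime A m) {η : DirichletCharacter ℂ (A * m)} (hη : Inv η) :
    Inv (compR h η) := by
  intro u hu
  rw [compR_apply]
  apply hη
  exact IsUnit.map (chineseRemainder h).symm (Prod.isUnit_iff.2 ⟨isUnit_one, hu⟩)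

lemma compL_inv {A m : ℕ} (h : Nat.Coprime A m) {η : DirichletCharacter ℂ (A * m)} (hη : Inv η) :
    Inv (compL h η) := by
  intro u hu
  rw [compL_apply]
  apply hη
  exact IsUnit.map (chineseRemainder h).symm (Prod.isUnit_iff.2 ⟨hu, isUnit_one⟩)

/-- real characters modulo a power of an odd prime -/
lemma real_primePow {p : ℕ} [Fact p.Prime] (hp2 : p ≠ 2) (k : ℕ)
    (χ : DirichletCharacter ℂ (p ^ k)) (hχ : Inv χ) :
    (∀ u : (ZMod (p ^ k))ˣ, χ (u : ZMod (p ^ k)) = 1) ∨
      (∀ n : ℕ, IsUnit (n : ZMod (p ^ k)) → χ (n : ZMod (p ^ k)) = qc p (n : ZMod p)) := by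
  have hp : p.Prime := Fact.out
  rcases Nat.eq_zero_or_pos k with rfl | hk
  · left
    intro u
    have : u = 1 := by
      have : Subsingleton (ZMod (p ^ 0)) := by rw [pow_zero]; infer_instance
      exact Units.ext (Subsingleton.elim _ _)
    rw [this, Units.val_one, map_one]
  have : NeZero (p ^ k) := ⟨pow_ne_zero _ hp.ne_zero⟩
  have hcyc := ZMod.isCyclic_units_of_prime_pow p hp hp2 k
  obtain ⟨g, hg⟩ := hcyc.exists_generator
  have hd : p ∣ p ^ k := dvd_pow_self p hk.ne'
  -- homomorphisms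
  have hext : ∀ f₁ f₂ : (ZMod (p ^ k))ˣ →* ℂˣ, f₁ g = f₂ g → f₁ = f₂ := by
    intro f₁ f₂ h
    refine MonoidHom.ext fun u => ?_
    obtain ⟨j, hj⟩ := Subgroup.mem_zpowers_iff.1 (hg u)
    rw [← hj, map_zpow, map_zpow, h]
  set f := MulChar.toUnitHom χ with hf
  set f₂ : (ZMod (p ^ k))ˣ →* ℂˣ := (MulChar.toUnitHom (qc p)).comp (ZMod.unitsMap hd) with hf₂
  have hsq := hχ g g.isUnit
  rcases mul_self_eq_one_iff.1 hsq with h1 | h1
  · left
    intro u
    have h2 : f = 1 := hext _ _ (by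
      ext
      rw [hf, MulChar.coe_toUnitHom, h1]
      rfl)
    have h3 : ((f u : ℂˣ) : ℂ) = 1 := by rw [h2]; rfl
    rw [hf, MulChar.coe_toUnitHom] at h3
    exact h3
  · right
    have hq : ∀ x : ZMod p, x ≠ 0 → qc p x * qc p x = 1 := by
      intro x hx
      rw [qc_apply, ← Int.cast_mul, ← pow_two, quadraticChar_sq_one hx, Int.cast_one]
    have h2 : ((f₂ g : ℂˣ) : ℂ) = -1 := by
      have h3 : ((f₂ g : ℂˣ) : ℂ) * ((f₂ g : ℂˣ) : ℂ) = 1 := by
        rw [hf₂, MonoidHom.comp_apply, MulChar.coe_toUnitHom]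
        exact hq _ (Units.ne_zero _)
      rcases mul_self_eq_one_iff.1 h3 with h4 | h4
      · exfalso
        have h5 : f₂ = 1 := hext _ _ (by ext; rw [h4]; rfl)
        apply qc_ne_one (p := p) hp2
        ext v
        obtain ⟨u, hu⟩ := ZMod.unitsMap_surjective hd v
        have h6 : ((f₂ u : ℂˣ) : ℂ) = 1 := by rw [h5]; rfl
        rw [hf₂, MonoidHom.comp_apply, MulChar.coe_toUnitHom, hu] at h6
        rw [h6, MulChar.one_apply_coe]
      · exact h4
    have h7 : f = f₂ := hext _ _ (by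
      ext
      rw [h2, hf, MulChar.coe_toUnitHom, h1])
    intro n hn
    have h8 : ((f hn.unit : ℂˣ) : ℂ) = ((f₂ hn.unit : ℂˣ) : ℂ) := by rw [h7]
    rw [hf, MulChar.coe_toUnitHom, hn.unit_spec, hf₂, MonoidHom.comp_apply,
      MulChar.coe_toUnitHom] at h8
    rw [h8]
    congr 1
    rw [ZMod.unitsMap_val, hn.unit_spec]
    exact ZMod.cast_natCast hd n

/-- the decomposition -/
theorem decomp {p : ℕ} [Fact p.Prime] (hp2 : p ≠ 2) {Q : ℕ} (hQ : 0 < Q)
    (η : DirichletCharacter ℂ Q) (hη : Inv η) :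
    ∃ (m : ℕ) (η₀ : DirichletCharacter ℂ m), 0 < m ∧ m ∣ Q ∧ m.Coprime p ∧ Inv η₀ ∧
      ((∀ n : ℕ, n.Coprime Q → η (n : ZMod Q) = η₀ (n : ZMod m)) ∨
        (∀ n : ℕ, n.Coprime Q → η (n : ZMod Q) = qc p (n : ZMod p) * η₀ (n : ZMod m))) := by
  have hp : p.Prime := Fact.out
  obtain ⟨k, m, hm, rfl⟩ := Nat.exists_eq_pow_mul_and_not_dvd hQ.ne' p hp.ne_one
  have hm0 : 0 < m := Nat.pos_of_ne_zero (by rintro rfl; simp at hm)
  have hcop : Nat.Coprime (p ^ k) m := Nat.Coprime.pow_left k ((Nat.Prime.coprime_iff_not_dvd hp).2 hm)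
  refine ⟨m, compR hcop η, hm0, dvd_mul_left _ _, ((Nat.Prime.coprime_iff_not_dvd hp).2 hm).symm,
    compR_inv hcop hη, ?_⟩
  have hu : ∀ n : ℕ, n.Coprime (p ^ k * m) → IsUnit (n : ZMod (p ^ k)) := by
    intro n hn
    rw [ZMod.isUnit_iff_coprime]
    exact Nat.Coprime.coprime_dvd_right (dvd_mul_right _ _) hn
  rcases real_primePow hp2 k (compL hcop η) (compL_inv hcop hη) with h | h
  · left
    intro n hn
    have h2 := h (hu n hn).unit
    rw [(hu n hn).unit_spec] at h2
    rw [comp_nat hcop, h2, one_mul]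
  · right
    intro n hn
    rw [comp_nat hcop, h n (hu n hn)]

end Pool.Agent.R423.GC
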