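import Pool.Agent.R423.GC.Cop
import Pool.Agent.Y772.HG.Tw

/-!
# A primitive ray class character is determined by its values at almost all ideals
-/

set_option autoImplicit false

open NumberField

namespace Pool.Agent.R423.GC

open Pool.Agent.Y773 (TPos)
open Pool.Agent.Y773.G (IsPrimChar)
open Pool.Agent.R423.GC.Cop (cop_mono cop_one cop_congr exists_cop_lift exists_mem_one exists_moving)
open Pool.Agent.Y772.TW (exists_tpos)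

section

variable {K : Type} [Field K] [NumberField K]

/-- a totally positive representative -/
lemma exists_tpos_mem {𝔮 : Ideal (𝓞 K)} (h : 𝔮 ≠ ⊥) (x : 𝓞 K) :
    ∃ y : 𝓞 K, y - x ∈ 𝔮 ∧ TPos K y ∧ y ≠ 0 := by
  have hN : 0 < Ideal.absNorm 𝔮 :=
    Nat.pos_of_ne_zero (by rwa [Ne, Ideal.absNorm_eq_zero_iff])
  obtain ⟨k, hk1, hk2⟩ := exists_tpos x hN
  refine ⟨_, ?_, hk1, hk2⟩
  rw [add_sub_cancel_left]
  exact Ideal.mul_mem_left _ _ (Ideal.absNorm_mem 𝔮)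

lemma prim_cond_le {𝔮 𝔣 𝔣' : Ideal (𝓞 K)} {ψ ψ' : Ideal (𝓞 K) →*₀ ℂ}
    (hq : 𝔮 ≠ ⊥) (h : IsPrimChar K 𝔣 ψ) (h' : IsPrimChar K 𝔣' ψ') (hqf : 𝔮 ≤ 𝔣) (hqf' : 𝔮 ≤ 𝔣')
    (he : ∀ 𝔞, IsCoprime 𝔞 𝔮 → ψ 𝔞 = ψ' 𝔞) : 𝔣' ≤ 𝔣 := by
  by_contra hcon
  have hne : 𝔣 ⊔ 𝔣' ≠ 𝔣 := fun h1 => hcon (h1 ▸ le_sup_right)
  obtain ⟨x, hx1, hxT, hx2, hx3⟩ := h.prim (𝔣 ⊔ 𝔣') (Ideal.dvd_iff_le.mpr le_sup_left) hne
  obtain ⟨f, hf, f', hf', hff⟩ := Submodule.mem_sup.mp hx1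
  apply hx3
  have hz : x - f = 1 + f' := by linear_combination -hff
  have hz1 : IsCoprime (Ideal.span {x - f}) 𝔣 := cop_congr (by
    have : x - f - x = -f := by ring
    rw [this]; exact neg_mem hf) hx2
  have hz2 : IsCoprime (Ideal.span {x - f}) 𝔣' := by
    rw [hz]; exact cop_one (by rw [add_sub_cancel_left]; exact hf')
  have hz3 : IsCoprime (Ideal.span {x - f}) (𝔣 ⊓ 𝔣') :=
    cop_mono Ideal.mul_le_inf (IsCoprime.mul_right hz1 hz2)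
  obtain ⟨z₀, hz4, hz5⟩ := exists_cop_lift (le_inf hqf hqf') hq hz3
  obtain ⟨z', hz'1, hz'2, hz'3⟩ := exists_tpos_mem hq z₀
  have hz6 : z' - x ∈ 𝔣 := by
    have : z' - x = (z' - z₀) + (z₀ - (x - f)) - f := by ring
    rw [this]
    exact sub_mem (add_mem (hqf hz'1) (inf_le_left (b := 𝔣') hz5)) hf
  have hz7 : z' - 1 ∈ 𝔣' := by
    have : z' - 1 = (z' - z₀) + (z₀ - (x - f)) + f' := by rw [hz]; ring
    rw [this]
    exact add_mem (add_mem (hqf' hz'1) (inf_le_right (a := 𝔣) hz5)) hf'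
  have hc : IsCoprime (Ideal.span {z'}) 𝔮 := cop_congr hz'1 hz4
  have hx0 : x ≠ 0 := by
    rintro rfl
    rw [Ideal.span_singleton_eq_bot.mpr rfl, Ideal.isCoprime_iff_sup_eq, bot_sup_eq] at hx2
    exact hcon (hx2 ▸ le_top)
  rw [Pool.Agent.Y772.G.psi_congr h hx0 hz'3 hxT hz'2 hx2 hz6, he _ hc]
  exact h'.ray z' hz'3 hz7 hz'2

/-- **a primitive character is determined by its values on the ideals prime to some ideal** -/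
theorem prim_unique {𝔪 𝔣 𝔣' : Ideal (𝓞 K)} {ψ ψ' : Ideal (𝓞 K) →*₀ ℂ}
    (hm : 𝔪 ≠ ⊥) (h : IsPrimChar K 𝔣 ψ) (h' : IsPrimChar K 𝔣' ψ')
    (he : ∀ 𝔞, IsCoprime 𝔞 𝔪 → ψ 𝔞 = ψ' 𝔞) : 𝔣 = 𝔣' ∧ ψ = ψ' := by
  set 𝔮 := 𝔪 * 𝔣 * 𝔣' with h𝔮
  have hq : 𝔮 ≠ ⊥ := mul_ne_zero (mul_ne_zero hm h.ne_bot) h'.ne_bot
  have hqm : 𝔮 ≤ 𝔪 := Ideal.mul_le_left.trans Ideal.mul_le_left
  have hqf : 𝔮 ≤ 𝔣 := Ideal.mul_le_left.trans Ideal.mul_le_right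
  have hqf' : 𝔮 ≤ 𝔣' := Ideal.mul_le_right
  have he' : ∀ 𝔞, IsCoprime 𝔞 𝔮 → ψ 𝔞 = ψ' 𝔞 := fun 𝔞 h𝔞 => he 𝔞 (cop_mono hqm h𝔞)
  have h1 := prim_cond_le hq h h' hqf hqf' he'
  have h2 := prim_cond_le hq h' h hqf' hqf (fun 𝔞 ha => (he' 𝔞 ha).symm)
  obtain rfl : 𝔣 = 𝔣' := le_antisymm h2 h1
  refine ⟨rfl, ?_⟩
  ext 𝔞
  by_cases h0 : 𝔞 = ⊥
  · rw [h0, ← Ideal.zero_eq_bot, map_zero, map_zero]
  by_cases hc : IsCoprime 𝔞 𝔣
  · -- a totally positive element of `𝔞` congruent to one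
    obtain ⟨x₀, 𝔠₀, hx1, hx2, hx3⟩ := exists_mem_one hc
    obtain ⟨x, hxx, hxT, hx0⟩ := exists_tpos_mem (𝔮 := 𝔞 * 𝔣) (mul_ne_zero h0 h.ne_bot) x₀
    have hxm : x ∈ 𝔞 := by
      have e1 : x = (x - x₀) + x₀ := by ring
      rw [e1]
      refine add_mem (Ideal.mul_le_left hxx) ?_
      have : x₀ ∈ Ideal.span {x₀} := Ideal.mem_span_singleton_self x₀
      rw [hx2] at this
      exact Ideal.mul_le_left this
    have hx1' : x - 1 ∈ 𝔣 := by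
      have e1 : x - 1 = (x - x₀) + (x₀ - 1) := by ring
      rw [e1]
      exact add_mem (Ideal.mul_le_right hxx) hx1
    obtain ⟨𝔠, h𝔠⟩ := Ideal.dvd_iff_le.mpr ((Ideal.span_singleton_le_iff_mem 𝔞).mpr hxm)
    have h𝔠f : IsCoprime 𝔠 𝔣 := by
      have h3 := cop_one hx1'
      rw [h𝔠] at h3
      exact (IsCoprime.mul_left_iff.mp h3).2
    have h𝔠0 : 𝔠 ≠ ⊥ := by
      rintro rfl
      rw [Ideal.mul_bot, Ideal.span_singleton_eq_bot] at h𝔠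
      exact hx0 h𝔠
    obtain ⟨y₀, 𝔟₀, hy1, hy2, hy3⟩ := exists_moving hqf hq h𝔠0 h𝔠f
    obtain ⟨y, hyy, hyT, hy0⟩ := exists_tpos_mem (𝔮 := 𝔠 * 𝔮) (mul_ne_zero h𝔠0 hq) y₀
    have hym : y ∈ 𝔠 := by
      have e1 : y = (y - y₀) + y₀ := by ring
      rw [e1]
      refine add_mem (Ideal.mul_le_left hyy) ?_
      have : y₀ ∈ Ideal.span {y₀} := Ideal.mem_span_singleton_self y₀
      rw [hy2] at this
      exact Ideal.mul_le_left this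
    have hy1' : y - 1 ∈ 𝔣 := by
      have e1 : y - 1 = (y - y₀) + (y₀ - 1) := by ring
      rw [e1]
      exact add_mem (hqf (Ideal.mul_le_right hyy)) hy1
    obtain ⟨𝔟, h𝔟⟩ := Ideal.dvd_iff_le.mpr ((Ideal.span_singleton_le_iff_mem 𝔠).mpr hym)
    have hb : IsCoprime 𝔟 𝔮 := by
      rw [Ideal.isCoprime_iff_sup_eq, ← Ideal.one_eq_top]
      apply mul_left_cancel₀ h𝔠0
      rw [mul_one, Ideal.mul_sup, ← h𝔟]
      have h4 : Ideal.span {y₀} ⊔ 𝔠 * 𝔮 = 𝔠 := by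
        rw [hy2, ← Ideal.mul_sup, (Ideal.isCoprime_iff_sup_eq).1 hy3, Ideal.mul_top]
      apply le_antisymm
      · exact sup_le ((Ideal.span_singleton_le_iff_mem _).2 hym) Ideal.mul_le_left
      · conv_lhs => rw [← h4]
        refine sup_le ?_ le_sup_right
        rw [Ideal.span_singleton_le_iff_mem]
        have e1 : y₀ = y - (y - y₀) := by ring
        rw [e1]
        exact sub_mem (Ideal.mem_sup_left (Ideal.mem_span_singleton_self y)) (Ideal.mem_sup_right hyy)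
    have e1 : ∀ (φ : Ideal (𝓞 K) →*₀ ℂ), IsPrimChar K 𝔣 φ → φ 𝔞 = φ 𝔟 := by
      intro φ hφ
      have h3 := hφ.ray x hx0 hx1' hxT
      have h4 := hφ.ray y hy0 hy1' hyT
      rw [h𝔠, map_mul, mul_comm] at h3
      rw [h𝔟, map_mul] at h4
      have h5 : φ 𝔠 ≠ 0 := by
        intro h6; rw [h6, zero_mul] at h3; exact zero_ne_one h3
      exact mul_left_cancel₀ h5 (h3.trans h4.symm)
    rw [e1 ψ h, e1 ψ' h', he' 𝔟 hb]
  · have h3 : ψ 𝔞 = 0 := by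
      by_contra h4; exact hc ((h.supp 𝔞 h0).mp h4)
    have h5 : ψ' 𝔞 = 0 := by
      by_contra h4; exact hc ((h'.supp 𝔞 h0).mp h4)
    rw [h3, h5]

end

end Pool.Agent.R423.GC
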