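import Pool.Agent.R423.GC.Tws
import Pool.Agent.R423.GC.Uni

/-!
# The final form
-/

set_option autoImplicit false

open NumberField ZMod
open scoped QuadraticAlgebra
open Pool.Agent.Y773 (TPos tw LI)
open Pool.Agent.Y773.G (IsPrimChar)

namespace Pool.Agent.R423.GC

lemma entire_eq_of_half {F G : ℂ → ℂ} (hF : Differentiable ℂ F) (hG : Differentiable ℂ G)
    (h : ∀ s : ℂ, 1 < s.re → F s = G s) : F = G := by
  have hF' : AnalyticOnNhd ℂ F Set.univ := fun z _ => hF.analyticAt z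
  have hG' : AnalyticOnNhd ℂ G Set.univ := fun z _ => hG.analyticAt z
  refine hF'.eq_of_eventuallyEq hG' (z₀ := 2) ?_
  have hopen : IsOpen {s : ℂ | 1 < s.re} := isOpen_lt continuous_const Complex.continuous_re
  filter_upwards [hopen.mem_nhds (show (2 : ℂ) ∈ {s : ℂ | 1 < s.re} by simp)] with s hs
  exact h s hs

/-- the conductor of the twist, uniqueness included -/
theorem twist_unique {a : MulChar (ZMod 41) ℂ} (ha : IsQ a) {Q : ℕ} (hQ : 0 < Q)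
    (η : DirichletCharacter ℂ Q) (hη : Inv η) :
    (∃ (𝔣' : Ideal (𝓞 QF)) (ψ' : Ideal (𝓞 QF) →*₀ ℂ) (F : ℂ → ℂ), IsPrimChar QF 𝔣' ψ' ∧
      (∃ 𝔪 : Ideal (𝓞 QF), 𝔪 ≠ ⊥ ∧ ∀ 𝔞 : Ideal (𝓞 QF), IsCoprime 𝔞 𝔪 →
        ψ' 𝔞 = psi ha 𝔞 * η ((Ideal.absNorm 𝔞 : ℕ) : ZMod Q)) ∧
      Differentiable ℂ F ∧ (∀ s : ℂ, 1 < s.re →
        HasSum (fun 𝔞 : Ideal (𝓞 QF) => ψ' 𝔞 * ((Ideal.absNorm 𝔞 : ℕ) : ℂ) ^ (-s)) (F s))) ∧
    ∀ (𝔣' : Ideal (𝓞 QF)) (ψ' : Ideal (𝓞 QF) →*₀ ℂ) (F : ℂ → ℂ), IsPrimChar QF 𝔣' ψ' →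
      (∃ 𝔪 : Ideal (𝓞 QF), 𝔪 ≠ ⊥ ∧ ∀ 𝔞 : Ideal (𝓞 QF), IsCoprime 𝔞 𝔪 →
        ψ' 𝔞 = psi ha 𝔞 * η ((Ideal.absNorm 𝔞 : ℕ) : ZMod Q)) →
      Differentiable ℂ F → (∀ s : ℂ, 1 < s.re →
        HasSum (fun 𝔞 : Ideal (𝓞 QF) => ψ' 𝔞 * ((Ideal.absNorm 𝔞 : ℕ) : ℂ) ^ (-s)) (F s)) →
      F (1 / 2) = 0 := by
  obtain ⟨𝔣₁, ψ₁, h1, -, h2, h3, F₁, h4, h5, h6⟩ := twist_vanish ha hQ η hη
  have hm : cond * Ideal.span {(Q : 𝓞 QF)} ≠ ⊥ := by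
    refine mul_ne_zero cond_ne_bot ?_
    rw [Ne, Ideal.zero_eq_bot, Ideal.span_singleton_eq_bot]
    exact_mod_cast hQ.ne'
  have hsum : ∀ s : ℂ, 1 < s.re →
      HasSum (fun 𝔞 : Ideal (𝓞 QF) => ψ₁ 𝔞 * ((Ideal.absNorm 𝔞 : ℕ) : ℂ) ^ (-s)) (F₁ s) := by
    intro s hs
    rw [h5 s hs]
    exact (Pool.Agent.Y773.G.summable_LI h3 hs).hasSum
  refine ⟨⟨𝔣₁, ψ₁, F₁, h1, ⟨_, hm, h2⟩, h4, hsum⟩, ?_⟩
  rintro 𝔣' ψ' F g1 ⟨𝔪, g2, g3⟩ g4 g5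
  obtain ⟨-, rfl⟩ := prim_unique (𝔪 := 𝔪 * (cond * Ideal.span {(Q : 𝓞 QF)})) (mul_ne_zero g2 hm)
    h1 g1 (fun 𝔞 h𝔞 => by
      rw [IsCoprime.mul_right_iff] at h𝔞
      rw [h2 𝔞 h𝔞.2, g3 𝔞 h𝔞.1])
  have : F = F₁ := entire_eq_of_half g4 h4 fun s hs => (g5 s hs).unique (hsum s hs)
  rw [this, h6]

/-! ## the properties of the character -/

lemma psi_nat {a : MulChar (ZMod 41) ℂ} (ha : IsQ a) {n : ℕ} (hn : n.Coprime 205) :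
    psi ha (Ideal.span {(n : 𝓞 QF)}) = ((jacobiSym (n : ℤ) 5 : ℤ) : ℂ) := by
  have e : (n : 𝓞 QF) = (((n : ℤ)) : 𝓞 QF) + ((0 : ℤ) : 𝓞 QF) * om := by push_cast; ring
  rw [psi_span, f0_apply, e, r5_mk, rP_mk, rQ_mk]
  simp only [Int.cast_natCast, Int.cast_zero, zero_mul, add_zero]
  have h1 : a (n : ZMod 41) * a⁻¹ (n : ZMod 41) = 1 := by
    have hu : IsUnit (n : ZMod 41) := by
      rw [ZMod.isUnit_iff_coprime]
      exact Nat.Coprime.coprime_dvd_right (by norm_num) hn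
    rw [← MulChar.mul_apply, mul_inv_cancel, MulChar.one_apply hu]
  rw [h1, mul_one, c5_apply, ← jacobiSym.legendreSym.to_jacobiSym]
  unfold legendreSym
  simp

lemma psi_even {a : MulChar (ZMod 41) ℂ} (ha : IsQ a) {x : 𝓞 QF} (hx : x - 1 ∈ cond) :
    psi ha (Ideal.span {x}) = 1 := by
  rw [psi_span]
  have h1 : f0 a x = f0 a 1 := f0_congr hx
  rw [h1, map_one]

lemma psi_eleven {a : MulChar (ZMod 41) ℂ} (ha : IsQ a) : ∃ 𝔭 𝔭' : Ideal (𝓞 QF),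
    Ideal.absNorm 𝔭 = 11 ∧ Ideal.absNorm 𝔭' = 11 ∧ psi ha 𝔭 ≠ psi ha 𝔭' := by
  set x : 𝓞 QF := ((3 : ℤ) : 𝓞 QF) + ((1 : ℤ) : 𝓞 QF) * om with hx
  have hN : Algebra.norm ℤ x = 11 := by
    rw [norm_int, hx, cre_mk, cim_mk]
    norm_num
  have h1 : Ideal.absNorm (Ideal.span {x}) = 11 := by
    rw [Ideal.absNorm_span_singleton, hN]
    rfl
  refine ⟨Ideal.span {x}, cjI (Ideal.span {x}), h1, by rw [absNorm_cjI, h1], ?_⟩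
  rw [psi_cjI]
  intro h
  have h2 : psi ha (Ideal.span {x}) * psi ha (Ideal.span {x}) = -1 := by
    rw [psi_span, f0_apply]
    have e1 : r5 x = 1 := by rw [hx, r5_mk]; decide
    have e2 : rP x = 10 := by rw [hx, rP_mk]; decide
    have e3 : rQ x = 38 := by rw [hx, rQ_mk]; decide
    have e4 : a⁻¹ 38 * a⁻¹ 38 = c41 38 := by rw [ha.inv.sq]
    have e5 : a 10 * a 10 = c41 10 := ha.sq 10
    have e6 : c41 10 * c41 38 = -1 := by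
      rw [← map_mul, c41_apply]
      have : quadraticChar (ZMod 41) (10 * 38) = -1 := by decide
      rw [this]
      simp
    rw [e1, e2, e3, map_one]
    calc 1 * (a 10 * a⁻¹ 38) * (1 * (a 10 * a⁻¹ 38)) = (a 10 * a 10) * (a⁻¹ 38 * a⁻¹ 38) := by ring
      _ = -1 := by rw [e4, e5, e6]
  have h3 : psi ha (Ideal.span {x}) * (starRingEnd ℂ) (psi ha (Ideal.span {x})) = -1 := by
    rw [← h]
    exact h2
  rw [Complex.mul_conj] at h3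
  have h4 := congrArg Complex.re h3
  simp only [Complex.ofReal_re, Complex.neg_re, Complex.one_re] at h4
  have := Complex.normSq_nonneg (psi ha (Ideal.span {x}))
  linarith

lemma psi_four {a : MulChar (ZMod 41) ℂ} (ha : IsQ a) {𝔞 : Ideal (𝓞 QF)} (h : IsCoprime 𝔞 cond) :
    psi ha 𝔞 ^ 4 = 1 := by
  obtain ⟨x, rfl⟩ : ∃ x : 𝓞 QF, 𝔞 = Ideal.span {x} := ⟨_, (Ideal.span_singleton_generator 𝔞).symm⟩
  obtain ⟨h1, h2, h3⟩ := isCoprime_cond.1 h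
  have k : ∀ x : ZMod 41, x ≠ 0 → c41 x * c41 x = 1 := by
    intro x hx
    rw [c41_apply, ← Int.cast_mul, ← pow_two, quadraticChar_sq_one hx, Int.cast_one]
  have e1 := c5_sq h1
  have e2 : a (rP x) ^ 4 = 1 := by
    have : a (rP x) ^ 4 = (a (rP x) * a (rP x)) * (a (rP x) * a (rP x)) := by ring
    rw [this, ha.sq, k _ h2]
  have e3 : a⁻¹ (rQ x) ^ 4 = 1 := by
    have : a⁻¹ (rQ x) ^ 4 = (a⁻¹ (rQ x) * a⁻¹ (rQ x)) * (a⁻¹ (rQ x) * a⁻¹ (rQ x)) := by ring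
    rw [this, ha.inv.sq, k _ h3]
  rw [psi_span, f0_apply]
  calc (c5 (r5 x) * (a (rP x) * a⁻¹ (rQ x))) ^ 4 =
      (c5 (r5 x) * c5 (r5 x)) ^ 2 * (a (rP x) ^ 4 * a⁻¹ (rQ x) ^ 4) := by ring
    _ = 1 := by rw [e1, e2, e3]; norm_num

lemma exists_sq_five : ∃ x : QF, x ^ 2 = 5 := by
  refine ⟨(rt5 : QF), ?_⟩
  have h := congrArg (fun x : 𝓞 QF => (x : QF)) rt5_sq
  rw [coe_mul'] at h
  rw [pow_two, h]
  exact map_ofNat (algebraMap (𝓞 QF) QF) 5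

end Pool.Agent.R423.GC
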