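import Mathlib

/-!
# The field `ℚ(√5)` and its ring of integers
-/

set_option autoImplicit false

open NumberField
open scoped QuadraticAlgebra

namespace Pool.Agent.R423.GC

lemma not_sq_five : ¬ IsSquare (5 : ℚ) := by
  rw [show (5 : ℚ) = ((5 : ℕ) : ℚ) by norm_num, Rat.isSquare_natCast_iff]
  rintro ⟨r, hr⟩
  have h1 : r ≤ 2 := by nlinarith
  interval_cases r <;> omega

instance factIrr : Fact (∀ r : ℚ, r ^ 2 ≠ 1 + 1 * r) := by
  refine ⟨fun r hr => ?_⟩
  have h1 : (2 * r - 1) ^ 2 = 5 := by linear_combination 4 * hr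
  exact not_sq_five ⟨2 * r - 1, by rw [← h1]; ring⟩

/-- the field `ℚ(√5)` -/
abbrev QF : Type := QuadraticAlgebra ℚ 1 1

instance : NumberField QF where
  to_charZero := inferInstance
  to_finiteDimensional := inferInstance

lemma finrank_QF : Module.finrank ℚ QF = 2 := QuadraticAlgebra.finrank_eq_two 1 1

lemma int_of_isIntegral {q : ℚ} (h : IsIntegral ℤ (algebraMap ℚ QF q)) : ∃ n : ℤ, (n : ℚ) = q := by
  have h1 : IsIntegral ℤ q := (isIntegral_algebraMap_iff (algebraMap ℚ QF).injective).1 h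
  exact IsIntegrallyClosed.isIntegral_iff.1 h1

lemma star_isIntegral {x : QF} (h : IsIntegral ℤ x) : IsIntegral ℤ (star x) := by
  have h1 : star x = (starRingEnd QF) x := rfl
  rw [h1]
  exact h.map (starRingEnd QF).toIntAlgHom

lemma rat_arith {u v : ℚ} {t n : ℤ} (ht : (t : ℚ) = 2 * u + v) (hn : (n : ℚ) = u * u + u * v - v * v) :
    ∃ a b : ℤ, u = a ∧ v = b := by
  -- `5 v ^ 2 = t ^ 2 - 4 n`
  have h1 : (5 * v) ^ 2 = ((5 * (t ^ 2 - 4 * n) : ℤ) : ℚ) := by
    push_cast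
    rw [ht, hn]
    ring
  have h2 : IsIntegral ℤ (5 * v) := by
    refine IsIntegral.of_pow (n := 2) (by norm_num) ?_
    rw [h1]
    exact isIntegral_algebraMap (R := ℤ) (A := ℚ)
  obtain ⟨k, hk⟩ := IsIntegrallyClosed.isIntegral_iff.1 h2
  have hk' : (k : ℚ) = 5 * v := hk
  have h3 : k ^ 2 = 5 * (t ^ 2 - 4 * n) := by
    have : ((k ^ 2 : ℤ) : ℚ) = ((5 * (t ^ 2 - 4 * n) : ℤ) : ℚ) := by
      rw [← h1, ← hk']
      push_cast
      ring
    exact_mod_cast this
  have h4 : (5 : ℤ) ∣ k := by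
    have h5 : (5 : ℤ) ∣ k ^ 2 := ⟨_, h3⟩
    exact (Int.prime_iff_natAbs_prime.2 (by norm_num)).dvd_of_dvd_pow h5
  obtain ⟨b, hb⟩ := h4
  have hv : v = b := by
    have : (5 : ℚ) * v = 5 * b := by rw [← hk', hb]; push_cast; ring
    linarith
  have hu : 2 * u = ((t - b : ℤ) : ℚ) := by
    push_cast
    rw [ht, hv]
    ring
  have h6 : 4 * n = (t - b) ^ 2 + 2 * (t - b) * b - 4 * b ^ 2 := by
    have : ((4 * n : ℤ) : ℚ) = (((t - b) ^ 2 + 2 * (t - b) * b - 4 * b ^ 2 : ℤ) : ℚ) := by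
      push_cast at hu ⊢
      rw [hn, ← hu, hv]
      ring
    exact_mod_cast this
  have h7 : Even (t - b) := by
    by_contra h
    rw [Int.not_even_iff_odd] at h
    obtain ⟨m, hm⟩ := h
    rw [hm] at h6
    ring_nf at h6
    omega
  obtain ⟨a, ha⟩ := h7
  refine ⟨a, b, ?_, hv⟩
  rw [ha] at hu
  push_cast at hu
  linarith

/-- the integers are the `a + b ω` -/
lemma mem_int (x : 𝓞 QF) : ∃ a b : ℤ, (x : QF) = ⟨(a : ℚ), (b : ℚ)⟩ := by
  have hx : IsIntegral ℤ (x : QF) := x.isIntegral_coe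
  have h1 := star_isIntegral hx
  obtain ⟨t, ht⟩ := int_of_isIntegral (q := 2 * (x : QF).re + (x : QF).im) (by
    have : algebraMap ℚ QF (2 * (x : QF).re + (x : QF).im) = (x : QF) + star (x : QF) := by
      rw [map_add, map_mul, map_ofNat, two_mul]
      ext
      · simp
        ring
      · simp
    rw [this]
    exact hx.add h1)
  obtain ⟨n, hn⟩ := int_of_isIntegral
    (q := (x : QF).re * (x : QF).re + (x : QF).re * (x : QF).im - (x : QF).im * (x : QF).im) (by
    have : algebraMap ℚ QF ((x : QF).re * (x : QF).re + (x : QF).re * (x : QF).im -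
        (x : QF).im * (x : QF).im) = (x : QF) * star (x : QF) := by
      rw [← QuadraticAlgebra.algebraMap_norm_eq_mul_star]
      simp [QuadraticAlgebra.norm_def]
    rw [this]
    exact hx.mul h1)
  obtain ⟨a, b, ha, hb⟩ := rat_arith ht hn
  exact ⟨a, b, QuadraticAlgebra.ext ha hb⟩

/-- `ω`, as an integer -/
noncomputable def om : 𝓞 QF := ⟨⟨0, 1⟩, by
  show IsIntegral ℤ (⟨0, 1⟩ : QF)
  refine ⟨Polynomial.X ^ 2 - Polynomial.X - 1, ?_, ?_⟩
  · rw [sub_sub]
    refine Polynomial.monic_X_pow_sub (n := 2) ?_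
    refine (Polynomial.degree_add_le (Polynomial.X : Polynomial ℤ) 1).trans_lt ?_
    simp
  · simp only [Polynomial.eval₂_sub, Polynomial.eval₂_X_pow, Polynomial.eval₂_X,
      Polynomial.eval₂_one]
    ext <;> simp [pow_two]⟩

lemma coe_om : (om : QF) = ⟨0, 1⟩ := rfl

lemma coe_add' (x y : 𝓞 QF) : ((x + y : 𝓞 QF) : QF) = (x : QF) + (y : QF) := map_add (algebraMap (𝓞 QF) QF) x y
lemma coe_mul' (x y : 𝓞 QF) : ((x * y : 𝓞 QF) : QF) = (x : QF) * (y : QF) := map_mul (algebraMap (𝓞 QF) QF) x y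
lemma coe_one' : ((1 : 𝓞 QF) : QF) = 1 := map_one (algebraMap (𝓞 QF) QF)
lemma coe_zero' : ((0 : 𝓞 QF) : QF) = 0 := map_zero (algebraMap (𝓞 QF) QF)
lemma coe_int' (n : ℤ) : ((n : 𝓞 QF) : QF) = (n : QF) := map_intCast (algebraMap (𝓞 QF) QF) n

lemma coe_mk (a b : ℤ) : (((a : 𝓞 QF) + b * om : 𝓞 QF) : QF) = ⟨(a : ℚ), (b : ℚ)⟩ := by
  rw [coe_add', coe_mul', coe_int', coe_int', coe_om]
  ext <;> simp

/-- the coordinates -/
noncomputable def cre (x : 𝓞 QF) : ℤ := (mem_int x).choose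
noncomputable def cim (x : 𝓞 QF) : ℤ := (mem_int x).choose_spec.choose

lemma coe_eq (x : 𝓞 QF) : (x : QF) = ⟨(cre x : ℚ), (cim x : ℚ)⟩ :=
  (mem_int x).choose_spec.choose_spec

lemma eq_mk (x : 𝓞 QF) : x = (cre x : 𝓞 QF) + cim x * om := by
  apply RingOfIntegers.ext
  rw [coe_mk]
  exact coe_eq x

lemma coord_unique {a b : ℤ} {x : 𝓞 QF} (h : (x : QF) = ⟨(a : ℚ), (b : ℚ)⟩) :
    cre x = a ∧ cim x = b := by
  rw [coe_eq x] at h
  have h1 := congrArg QuadraticAlgebra.re h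
  have h2 := congrArg QuadraticAlgebra.im h
  simp only at h1 h2
  exact ⟨by exact_mod_cast h1, by exact_mod_cast h2⟩

lemma cre_mk (a b : ℤ) : cre ((a : 𝓞 QF) + b * om) = a := (coord_unique (coe_mk a b)).1
lemma cim_mk (a b : ℤ) : cim ((a : 𝓞 QF) + b * om) = b := (coord_unique (coe_mk a b)).2

lemma coord_add (x y : 𝓞 QF) : cre (x + y) = cre x + cre y ∧ cim (x + y) = cim x + cim y := by
  apply coord_unique
  rw [coe_add', coe_eq x, coe_eq y]
  ext <;> simp

lemma coord_mul (x y : 𝓞 QF) : cre (x * y) = cre x * cre y + cim x * cim y ∧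
    cim (x * y) = cre x * cim y + cim x * cre y + cim x * cim y := by
  apply coord_unique
  rw [coe_mul', coe_eq x, coe_eq y]
  ext <;> simp

lemma coord_one : cre 1 = 1 ∧ cim 1 = 0 := by
  apply coord_unique
  rw [coe_one']
  ext <;> simp

lemma coord_zero : cre 0 = 0 ∧ cim 0 = 0 := by
  apply coord_unique
  rw [coe_zero']
  ext <;> simp

/-- reduction modulo a prime at which `x² - x - 1` has the root `r` -/
noncomputable def red {p : ℕ} (r : ZMod p) (hr : r * r = 1 + r) : 𝓞 QF →+* ZMod p where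
  toFun x := (cre x : ZMod p) + (cim x : ZMod p) * r
  map_one' := by rw [coord_one.1, coord_one.2]; simp
  map_zero' := by rw [coord_zero.1, coord_zero.2]; simp
  map_add' x y := by
    rw [(coord_add x y).1, (coord_add x y).2]
    push_cast
    ring
  map_mul' x y := by
    rw [(coord_mul x y).1, (coord_mul x y).2]
    push_cast
    linear_combination -(cim x : ZMod p) * (cim y : ZMod p) * hr

lemma red_apply {p : ℕ} (r : ZMod p) (hr : r * r = 1 + r) (x : 𝓞 QF) :
    red r hr x = (cre x : ZMod p) + (cim x : ZMod p) * r := rfl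

/-! ## trace and norm -/

lemma norm_QF (z : QF) : Algebra.norm ℚ z = z.norm := by
  rw [← QuadraticAlgebra.det_toLinearMap_eq_norm, Algebra.norm_apply]
  rfl

lemma trace_QF (z : QF) : Algebra.trace ℚ QF z = 2 * z.re + z.im := by
  rw [Algebra.trace_eq_matrix_trace (QuadraticAlgebra.basis 1 1), Matrix.trace_fin_two]
  simp only [Algebra.leftMulMatrix_eq_repr_mul]
  simp [QuadraticAlgebra.basis]
  ring

end Pool.Agent.R423.GC
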