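import Pool.Agent.R423.GC.Fld

/-!
# The field `ℚ(√5)`: trace, norm, discriminant, different, units
-/

set_option autoImplicit false

open NumberField
open scoped QuadraticAlgebra

namespace Pool.Agent.R423.GC

lemma trace_int (x : 𝓞 QF) : Algebra.trace ℤ (𝓞 QF) x = 2 * cre x + cim x := by
  have h1 : ((Algebra.trace ℤ (𝓞 QF) x : ℤ) : ℚ) = ((2 * cre x + cim x : ℤ) : ℚ) := by
    rw [Algebra.coe_trace_int, coe_eq x, trace_QF]
    push_cast
    rfl
  exact_mod_cast h1

lemma norm_int (x : 𝓞 QF) :
    Algebra.norm ℤ x = cre x * cre x + cre x * cim x - cim x * cim x := by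
  have h1 : ((Algebra.norm ℤ x : ℤ) : ℚ) =
      ((cre x * cre x + cre x * cim x - cim x * cim x : ℤ) : ℚ) := by
    rw [Algebra.coe_norm_int, coe_eq x, norm_QF, QuadraticAlgebra.norm_def]
    push_cast
    ring
  exact_mod_cast h1

lemma coord_smul (n : ℤ) (x : 𝓞 QF) : cre (n • x) = n * cre x ∧ cim (n • x) = n * cim x := by
  apply coord_unique
  rw [zsmul_eq_mul, coe_mul', coe_int', coe_eq x]
  ext <;> simp

lemma coord_om : cre om = 0 ∧ cim om = 1 := by
  apply coord_unique
  rw [coe_om]
  simp

/-- the integral basis -/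
noncomputable def cEquiv : 𝓞 QF ≃ₗ[ℤ] (Fin 2 → ℤ) where
  toFun x := ![cre x, cim x]
  invFun v := (v 0 : 𝓞 QF) + v 1 * om
  map_add' x y := by
    rw [(coord_add x y).1, (coord_add x y).2]
    simp
  map_smul' n x := by
    rw [(coord_smul n x).1, (coord_smul n x).2]
    simp
  left_inv x := (eq_mk x).symm
  right_inv v := by
    funext i
    fin_cases i
    · simpa using cre_mk (v 0) (v 1)
    · simpa using cim_mk (v 0) (v 1)

/-- the integral basis -/
noncomputable def bas : Module.Basis (Fin 2) ℤ (𝓞 QF) := Module.Basis.ofEquivFun cEquiv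

lemma bas_zero : bas 0 = 1 := by
  rw [bas, Module.Basis.coe_ofEquivFun]
  show ((Function.update 0 0 1 : Fin 2 → ℤ) 0 : 𝓞 QF) + ((Function.update 0 0 1 : Fin 2 → ℤ) 1 : 𝓞 QF) * om = 1
  simp

lemma bas_one : bas 1 = om := by
  rw [bas, Module.Basis.coe_ofEquivFun]
  show ((Function.update 0 1 1 : Fin 2 → ℤ) 0 : 𝓞 QF) + ((Function.update 0 1 1 : Fin 2 → ℤ) 1 : 𝓞 QF) * om = om
  simp

lemma discr_QF : discr QF = 5 := by
  rw [← discr_eq_discr QF bas, Algebra.discr_def, Matrix.det_fin_two]
  simp only [Algebra.traceMatrix_apply, Algebra.traceForm_apply, bas_zero, bas_one, trace_int,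
    (coord_mul _ _).1, (coord_mul _ _).2, coord_one.1, coord_one.2, coord_om.1, coord_om.2]
  norm_num

instance pid : IsPrincipalIdealRing (𝓞 QF) := by
  apply RingOfIntegers.isPrincipalIdealRing_of_abs_discr_lt
  rw [finrank_QF, discr_QF]
  have h2 : InfinitePlace.nrComplexPlaces QF ≤ 1 := by
    have := InfinitePlace.card_add_two_mul_card_eq_rank QF
    rw [finrank_QF] at this
    omega
  have h3 : (3 : ℝ) < Real.pi := Real.pi_gt_three
  have h4 : Real.pi < 4 := Real.pi_lt_four
  have h5 : (3 / 4 : ℝ) ≤ (Real.pi / 4) ^ InfinitePlace.nrComplexPlaces QF := by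
    interval_cases InfinitePlace.nrComplexPlaces QF
    · norm_num
    · rw [pow_one]
      linarith
  have h6 : (((2 : ℕ).factorial : ℕ) : ℝ) = 2 := by norm_num [Nat.factorial]
  rw [h6]
  have h7 : ((((2 : ℕ) : ℝ) ^ 2) / 2) = 2 := by norm_num
  rw [h7]
  have h8 : (9 : ℝ) ≤ (2 * (Real.pi / 4) ^ InfinitePlace.nrComplexPlaces QF * 2) ^ 2 := by
    nlinarith
  have h9 : ((|(5 : ℤ)| : ℤ) : ℝ) = 5 := by norm_num
  rw [h9]
  linarith

/-- `√5` -/
noncomputable def rt5 : 𝓞 QF := ((-1 : ℤ) : 𝓞 QF) + (2 : ℤ) * om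

lemma rt5_sq : rt5 * rt5 = 5 := by
  have h := coord_mul rt5 rt5
  have h1 : cre rt5 = -1 := cre_mk _ _
  have h2 : cim rt5 = 2 := cim_mk _ _
  rw [eq_mk (rt5 * rt5), h.1, h.2, h1, h2]
  norm_num

lemma norm_rt5 : Algebra.norm ℤ rt5 = -5 := by
  have h1 : cre rt5 = -1 := cre_mk _ _
  have h2 : cim rt5 = 2 := cim_mk _ _
  rw [norm_int, h1, h2]
  norm_num

lemma eq_of_le_absNorm {I J : Ideal (𝓞 QF)} (h : I ≤ J) (h1 : Ideal.absNorm I = Ideal.absNorm J)
    (h0 : Ideal.absNorm J ≠ 0) : I = J := by
  obtain ⟨L, rfl⟩ := Ideal.dvd_iff_le.2 h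
  rw [map_mul] at h1
  have h2 : Ideal.absNorm L = 1 := by
    have := Nat.eq_of_mul_eq_mul_left (Nat.pos_of_ne_zero h0) (h1.trans (mul_one _).symm)
    exact this
  rw [Ideal.absNorm_eq_one_iff] at h2
  rw [h2, Ideal.mul_top]

lemma different_QF : differentIdeal ℤ (𝓞 QF) = Ideal.span {rt5} := by
  have h1 : Ideal.absNorm (differentIdeal ℤ (𝓞 QF)) = 5 := by
    rw [absNorm_differentIdeal (K := QF) (𝒪 := 𝓞 QF), discr_QF]
    rfl
  have h2 : (differentIdeal ℤ (𝓞 QF)).IsPrime :=
    Ideal.isPrime_of_irreducible_absNorm (by rw [h1]; exact (by norm_num : Nat.Prime 5))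
  have h3 : rt5 ∈ differentIdeal ℤ (𝓞 QF) := by
    have h4 : ((5 : ℕ) : 𝓞 QF) ∈ differentIdeal ℤ (𝓞 QF) := by
      rw [← h1]
      exact Ideal.absNorm_mem _
    have h5 : rt5 * rt5 ∈ differentIdeal ℤ (𝓞 QF) := by
      rw [rt5_sq]
      exact_mod_cast h4
    rcases h2.mem_or_mem h5 with h | h <;> exact h
  symm
  refine eq_of_le_absNorm ((Ideal.span_singleton_le_iff_mem _).2 h3) ?_ (by rw [h1]; norm_num)
  rw [h1, Ideal.absNorm_span_singleton, norm_rt5]
  rfl

/-! ## units -/

/-- a function multiplicative and `1` at `-1` and at `ω` is `1` at all units -/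
lemma units_induct {f : 𝓞 QF → ℂ} (hf : ∀ x y, f (x * y) = f x * f y) (h1 : f 1 = 1)
    (hn : f (-1) = 1) (ho : f om = 1) :
    ∀ (n : ℕ) (a b : ℤ), a.natAbs + b.natAbs = n →
      (a * a + a * b - b * b).natAbs = 1 → f ((a : 𝓞 QF) + b * om) = 1 := by
  have hom : om * om = 1 + om := by
    have h := coord_mul om om
    rw [eq_mk (om * om), h.1, h.2, coord_om.1, coord_om.2]
    norm_num
  have hneg : ∀ x, f (-x) = f x := by
    intro x
    rw [← neg_one_mul, hf, hn, one_mul]
  intro n
  induction n using Nat.strong_induction_on with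
  | _ n ih =>
    intro a b hab hN
    have hNN : a * a + a * b - b * b = 1 ∨ a * a + a * b - b * b = -1 := by omega
    by_cases hb : b = 0
    · subst hb
      have ha : a = 1 ∨ a = -1 := by
        have : a * a = 1 := by
          rcases hNN with h | h
          · linarith
          · nlinarith
        rcases mul_self_eq_one_iff.1 this with h | h
        · exact Or.inl h
        · exact Or.inr h
      rcases ha with rfl | rfl
      · simpa using h1
      · simpa using hn
    by_cases ha : a = 0
    · subst ha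
      have hb' : b = 1 ∨ b = -1 := by
        have : b * b = 1 := by
          rcases hNN with h | h
          · nlinarith
          · linarith
        rcases mul_self_eq_one_iff.1 this with h | h
        · exact Or.inl h
        · exact Or.inr h
      rcases hb' with rfl | rfl
      · simpa using ho
      · have : ((0 : ℤ) : 𝓞 QF) + ((-1 : ℤ) : 𝓞 QF) * om = -om := by push_cast; ring
        rw [this, hneg, ho]
    -- reduce to `a > 0`
    wlog hapos : 0 < a generalizing a b
    · have h2 := this (-a) (-b) (by omega) (by rw [← hN]; congr 1; ring) (by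
        rcases hNN with h | h
        · left; linarith
        · right; linarith) (by omega) (by omega) (by omega)
      have h3 : (((-a : ℤ) : 𝓞 QF) + ((-b : ℤ) : 𝓞 QF) * om) = -((a : 𝓞 QF) + b * om) := by
        push_cast
        ring
      rw [h3, hneg] at h2
      exact h2
    rcases lt_or_gt_of_ne hb with hbneg | hbpos
    · -- `b < 0`: multiply by `ω`
      have h2 : f ((b : 𝓞 QF) + ((a + b : ℤ) : 𝓞 QF) * om) = 1 := by
        refine ih (b.natAbs + (a + b).natAbs) ?_ b (a + b) rfl ?_
        · by_cases hc : 0 ≤ a + b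
          · omega
          · have h5 : -b < 2 * a := by
              by_contra h6
              push Not at h6
              have h7 : a * a + a * b - b * b ≤ -5 * (a * a) := by nlinarith
              have h8 : 1 ≤ a * a := by nlinarith
              rcases hNN with h | h <;> nlinarith
            omega
        · have : b * b + b * (a + b) - (a + b) * (a + b) = -(a * a + a * b - b * b) := by ring
          rw [this, Int.natAbs_neg]
          exact hN
      have h3 : ((b : 𝓞 QF) + ((a + b : ℤ) : 𝓞 QF) * om) = ((a : 𝓞 QF) + b * om) * om := by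
        push_cast
        linear_combination -(b : 𝓞 QF) * hom
      rw [h3, hf, ho, mul_one] at h2
      exact h2
    · -- `b > 0`: divide by `ω`
      have hba : a ≤ b := by
        by_contra h6
        push Not at h6
        have h7 : 1 < a * a + a * b - b * b := by nlinarith
        rcases hNN with h | h <;> omega
      have h2 : f (((b - a : ℤ) : 𝓞 QF) + (a : 𝓞 QF) * om) = 1 := by
        refine ih ((b - a).natAbs + a.natAbs) (by omega) (b - a) a rfl ?_
        have : (b - a) * (b - a) + (b - a) * a - a * a = -(a * a + a * b - b * b) := by ring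
        rw [this, Int.natAbs_neg]
        exact hN
      have h3 : ((a : 𝓞 QF) + b * om) = (((b - a : ℤ) : 𝓞 QF) + (a : 𝓞 QF) * om) * om := by
        push_cast
        linear_combination -(a : 𝓞 QF) * hom
      rw [h3, hf, ho, mul_one]
      exact h2

lemma unit_one {f : 𝓞 QF → ℂ} (hf : ∀ x y, f (x * y) = f x * f y) (h1 : f 1 = 1)
    (hn : f (-1) = 1) (ho : f om = 1) {u : 𝓞 QF} (hu : IsUnit u) : f u = 1 := by
  rw [eq_mk u]
  refine units_induct hf h1 hn ho _ _ _ rfl ?_
  rw [← norm_int]
  have h2 := hu.map (Algebra.norm ℤ)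
  exact Int.isUnit_iff_natAbs_eq.1 h2

end Pool.Agent.R423.GC
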