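import Mathlib

/-!
# The quadratic Gauss sums of the form `x² + x y - y²`
-/

set_option autoImplicit false

open Finset ZMod

namespace Pool.Agent.R423.GC

/-! ## sums over residue classes -/

lemma sum_range_zmod (q : ℕ) [NeZero q] (f : ZMod q → ℂ) :
    ∑ x ∈ range q, f (x : ZMod q) = ∑ x : ZMod q, f x := by
  obtain ⟨k, rfl⟩ := Nat.exists_eq_succ_of_ne_zero (NeZero.ne q)
  rw [Finset.sum_range]
  refine Finset.sum_congr rfl fun i _ => ?_
  congr 1
  exact Fin.cast_val_eq_self i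

lemma sum_range_mul (n p : ℕ) (f : ℕ → ℂ) :
    ∑ x ∈ range (n * p), f x = ∑ i ∈ range n, ∑ j ∈ range p, f (i + n * j) := by
  rw [← Finset.sum_product']
  symm
  refine Finset.sum_nbij' (fun x => x.1 + n * x.2) (fun x => (x % n, x / n)) ?_ ?_ ?_ ?_ ?_
  · rintro ⟨i, j⟩ h
    simp only [mem_product, mem_range] at h ⊢
    calc i + n * j < n + n * j := by omega
      _ = n * (j + 1) := by ring
      _ ≤ n * p := Nat.mul_le_mul_left n (by omega)
  · intro x h
    simp only [mem_product, mem_range] at h ⊢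
    have hn : 0 < n := Nat.pos_of_ne_zero (by rintro rfl; simp at h)
    exact ⟨Nat.mod_lt _ hn, Nat.div_lt_of_lt_mul h⟩
  · rintro ⟨i, j⟩ h
    simp only [mem_product, mem_range] at h
    have hn : 0 < n := by omega
    simp only [Nat.add_mul_mod_self_left, Nat.mod_eq_of_lt h.1, Prod.mk.injEq, true_and]
    rw [Nat.add_mul_div_left _ _ hn, Nat.div_eq_of_lt h.1, zero_add]
  · intro x _
    exact Nat.mod_add_div x n
  · intro x _
    rfl

lemma sum_range_dvd (p m : ℕ) (hp : 0 < p) (f : ℕ → ℂ) :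
    ∑ i ∈ range (p * m), (if p ∣ i then f i else 0) = ∑ j ∈ range m, f (p * j) := by
  rw [sum_range_mul]
  rw [Finset.sum_eq_single 0]
  · refine Finset.sum_congr rfl fun j _ => ?_
    rw [zero_add, if_pos (dvd_mul_right p j)]
  · intro i hi hi0
    rw [mem_range] at hi
    refine Finset.sum_eq_zero fun j _ => ?_
    rw [if_neg]
    intro h
    have h2 : p ∣ i := (Nat.dvd_add_left (dvd_mul_right p j)).1 h
    exact absurd (Nat.le_of_dvd (Nat.pos_of_ne_zero hi0) h2) (by omega)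
  · intro h
    exact absurd (mem_range.2 hp) h

/-- the Chinese remainder theorem for double sums -/
lemma sum_crt {a b : ℕ} [NeZero a] [NeZero b] [NeZero (a * b)] (h : a.Coprime b)
    (F : ZMod a → ZMod a → ℂ) (G : ZMod b → ZMod b → ℂ) :
    ∑ x : ZMod (a * b), ∑ y : ZMod (a * b),
      F (chineseRemainder h x).1 (chineseRemainder h y).1 *
        G (chineseRemainder h x).2 (chineseRemainder h y).2 =
    (∑ x : ZMod a, ∑ y : ZMod a, F x y) * ∑ x : ZMod b, ∑ y : ZMod b, G x y := by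
  have h1 : ∀ g : ZMod a × ZMod b → ℂ, ∑ x : ZMod (a * b), g (chineseRemainder h x) =
      ∑ x : ZMod a × ZMod b, g x := fun g =>
    Equiv.sum_comp (chineseRemainder h).toEquiv g
  have h2 := h1 fun X => ∑ y : ZMod (a * b), F X.1 (chineseRemainder h y).1 *
        G X.2 (chineseRemainder h y).2
  rw [h2]
  have h3 : ∀ X : ZMod a × ZMod b, ∑ y : ZMod (a * b), F X.1 (chineseRemainder h y).1 *
        G X.2 (chineseRemainder h y).2 = (∑ y, F X.1 y) * ∑ y, G X.2 y := by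
    intro X
    rw [h1 fun Y => F X.1 Y.1 * G X.2 Y.2, Fintype.sum_prod_type, Finset.sum_mul_sum]
  simp_rw [h3]
  rw [Fintype.sum_prod_type, Finset.sum_mul_sum]

/-- `exp(2 π i t n / q)` -/
noncomputable def ex (q : ℕ) [NeZero q] (t : ℤ) (x : ZMod q) : ℂ := stdAddChar ((t : ZMod q) * x)

lemma ex_int (q : ℕ) [NeZero q] (t n : ℤ) :
    ex q t (n : ZMod q) = Complex.exp (2 * Real.pi * Complex.I * ((t * n : ℤ) : ℂ) / q) := by
  rw [ex, ← Int.cast_mul, stdAddChar_coe]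

lemma ex_add (q : ℕ) [NeZero q] (t : ℤ) (x y : ZMod q) : ex q t (x + y) = ex q t x * ex q t y := by
  rw [ex, mul_add, AddChar.map_add_eq_mul]
  rfl

/-- splitting the additive character -/
lemma ex_crt {a b : ℕ} [NeZero a] [NeZero b] [NeZero (a * b)] (h : a.Coprime b) {t t1 t2 : ℤ}
    (ht : t = t1 * b + t2 * a) (x : ZMod (a * b)) :
    ex (a * b) t x = ex a t1 (chineseRemainder h x).1 * ex b t2 (chineseRemainder h x).2 := by
  obtain ⟨n, rfl⟩ := ZMod.intCast_surjective x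
  have e1 : (chineseRemainder h (n : ZMod (a * b))).1 = (n : ZMod a) := by
    rw [map_intCast]; rfl
  have e2 : (chineseRemainder h (n : ZMod (a * b))).2 = (n : ZMod b) := by
    rw [map_intCast]; rfl
  rw [e1, e2, ex_int, ex_int, ex_int, ← Complex.exp_add]
  congr 1
  have ha : (a : ℂ) ≠ 0 := by exact_mod_cast NeZero.ne a
  have hb : (b : ℂ) ≠ 0 := by exact_mod_cast NeZero.ne b
  rw [ht]
  push_cast
  field_simp

/-- `N(x + y ω)` -/
def Nf {R : Type*} [CommRing R] (x y : R) : R := x * x + x * y - y * y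

/-- the Gauss sum of the form -/
noncomputable def HZ (q : ℕ) [NeZero q] (t : ℤ) : ℂ := ∑ x : ZMod q, ∑ y : ZMod q, ex q t (Nf x y)

lemma HZ_range (q : ℕ) [NeZero q] (t : ℤ) :
    HZ q t = ∑ x ∈ range q, ∑ y ∈ range q, ex q t (((Nf (x : ℤ) (y : ℤ)) : ℤ) : ZMod q) := by
  unfold HZ
  rw [← sum_range_zmod]
  refine Finset.sum_congr rfl fun x _ => ?_
  rw [← sum_range_zmod]
  refine Finset.sum_congr rfl fun y _ => ?_
  congr 1
  unfold Nf
  push_cast
  rfl

lemma HZ_mul {a b : ℕ} [NeZero a] [NeZero b] [NeZero (a * b)] (h : a.Coprime b) {t t1 t2 : ℤ}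
    (ht : t = t1 * b + t2 * a) : HZ (a * b) t = HZ a t1 * HZ b t2 := by
  unfold HZ
  rw [← sum_crt h (fun x y => ex a t1 (Nf x y)) (fun x y => ex b t2 (Nf x y))]
  refine Finset.sum_congr rfl fun x _ => Finset.sum_congr rfl fun y _ => ?_
  rw [ex_crt h ht]
  unfold Nf
  simp only [map_sub, map_add, map_mul, Prod.fst_sub, Prod.fst_add, Prod.fst_mul, Prod.snd_sub,
    Prod.snd_add, Prod.snd_mul]

lemma geom_ex (p : ℕ) [Fact p.Prime] {t : ℤ} (ht : ¬ (p : ℤ) ∣ t) (c : ℤ) :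
    ∑ s ∈ range p, ex p t (((s : ℤ) * c : ℤ) : ZMod p) = if (p : ℤ) ∣ c then (p : ℂ) else 0 := by
  have h1 : ∀ s : ℕ, ex p t (((s : ℤ) * c : ℤ) : ZMod p) =
      (fun x : ZMod p => stdAddChar (x * ((t : ZMod p) * (c : ZMod p)))) (s : ZMod p) := by
    intro s
    simp only
    rw [ex]
    congr 1
    push_cast
    ring
  simp_rw [h1]
  rw [sum_range_zmod p (fun x : ZMod p => stdAddChar (x * ((t : ZMod p) * (c : ZMod p)))),
    AddChar.sum_mulShift _ (isPrimitive_stdAddChar p)]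
  have h2 : ((t : ZMod p) * (c : ZMod p) = 0) ↔ (p : ℤ) ∣ c := by
    rw [mul_eq_zero, ZMod.intCast_zmod_eq_zero_iff_dvd, ZMod.intCast_zmod_eq_zero_iff_dvd]
    constructor
    · rintro (h | h)
      · exact absurd h ht
      · exact h
    · exact Or.inr
  by_cases h : (p : ℤ) ∣ c
  · rw [if_pos (h2.2 h), if_pos h, ZMod.card]
  · rw [if_neg (fun h' => h (h2.1 h')), if_neg h]
    simp

/-- step: square factors -/
lemma HZ_sq (p m : ℕ) [Fact p.Prime] [NeZero m] [NeZero (p * m)] [NeZero (p * m * p)] (h5 : p ≠ 5)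
    {t : ℤ} (ht : ¬ (p : ℤ) ∣ t) : HZ (p * m * p) t = (p : ℂ) ^ 2 * HZ m t := by
  have hp : p.Prime := Fact.out
  have hp0 : (p : ℂ) ≠ 0 := by exact_mod_cast hp.ne_zero
  have hm0 : (m : ℂ) ≠ 0 := by exact_mod_cast NeZero.ne m
  rw [HZ_range]
  have h1 : ∀ x0 y0 s1 s2 : ℕ,
      ex (p * m * p) t (((Nf (((x0 + p * m * s1 : ℕ)) : ℤ) (((y0 + p * m * s2 : ℕ)) : ℤ)) : ℤ) :
        ZMod (p * m * p)) =
      ex (p * m * p) t (((Nf (x0 : ℤ) (y0 : ℤ)) : ℤ) : ZMod (p * m * p)) *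
        (ex p t (((s1 : ℤ) * (2 * x0 + y0) : ℤ) : ZMod p) *
          ex p t (((s2 : ℤ) * (x0 - 2 * y0) : ℤ) : ZMod p)) := by
    intro x0 y0 s1 s2
    rw [ex_int, ex_int, ex_int, ex_int, ← Complex.exp_add, ← Complex.exp_add]
    rw [Complex.exp_eq_exp_iff_exists_int]
    refine ⟨t * m * Nf (s1 : ℤ) (s2 : ℤ), ?_⟩
    unfold Nf
    push_cast
    field_simp
    ring
  rw [sum_range_mul (p * m) p]
  have h2 : ∀ x0 ∈ range (p * m), ∀ s1 ∈ range p,
      ∑ y ∈ range (p * m * p), ex (p * m * p) t (((Nf (((x0 + p * m * s1 : ℕ)) : ℤ) (y : ℤ)) : ℤ) :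
        ZMod (p * m * p)) =
      ∑ y0 ∈ range (p * m), ex (p * m * p) t (((Nf (x0 : ℤ) (y0 : ℤ)) : ℤ) : ZMod (p * m * p)) *
        (ex p t (((s1 : ℤ) * (2 * x0 + y0) : ℤ) : ZMod p) *
          if (p : ℤ) ∣ (x0 - 2 * y0) then (p : ℂ) else 0) := by
    intro x0 _ s1 _
    rw [sum_range_mul (p * m) p]
    refine Finset.sum_congr rfl fun y0 _ => ?_
    simp_rw [h1]
    rw [← Finset.mul_sum, ← Finset.mul_sum, geom_ex p ht]
  have h3 : ∀ x0 ∈ range (p * m), ∑ s1 ∈ range p,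
      ∑ y ∈ range (p * m * p), ex (p * m * p) t (((Nf (((x0 + p * m * s1 : ℕ)) : ℤ) (y : ℤ)) : ℤ) :
        ZMod (p * m * p)) =
      ∑ y0 ∈ range (p * m), ex (p * m * p) t (((Nf (x0 : ℤ) (y0 : ℤ)) : ℤ) : ZMod (p * m * p)) *
        ((if (p : ℤ) ∣ (2 * x0 + y0) then (p : ℂ) else 0) *
          if (p : ℤ) ∣ (x0 - 2 * y0) then (p : ℂ) else 0) := by
    intro x0 hx0
    rw [Finset.sum_congr rfl (h2 x0 hx0), Finset.sum_comm]
    refine Finset.sum_congr rfl fun y0 _ => ?_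
    rw [← Finset.mul_sum, ← Finset.sum_mul, geom_ex p ht]
  rw [Finset.sum_congr rfl h3]
  have h4 : ∀ x0 y0 : ℕ, ((if (p : ℤ) ∣ (2 * x0 + y0) then (p : ℂ) else 0) *
          if (p : ℤ) ∣ (x0 - 2 * y0) then (p : ℂ) else 0) =
      (if p ∣ x0 then (if p ∣ y0 then (p : ℂ) ^ 2 else 0) else 0) := by
    intro x0 y0
    have hpI : Prime (p : ℤ) := Nat.prime_iff_prime_int.1 hp
    by_cases hx : p ∣ x0
    · by_cases hy : p ∣ y0
      · have hx' : (p : ℤ) ∣ x0 := by exact_mod_cast hx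
        have hy' : (p : ℤ) ∣ y0 := by exact_mod_cast hy
        rw [if_pos hx, if_pos hy, if_pos, if_pos]
        · ring
        · exact dvd_sub hx' (hy'.mul_left 2)
        · exact dvd_add (hx'.mul_left 2) hy'
      · have hx' : (p : ℤ) ∣ x0 := by exact_mod_cast hx
        rw [if_pos hx, if_neg hy, if_neg, zero_mul]
        intro h
        apply hy
        have := (dvd_add_right (hx'.mul_left 2)).1 h
        exact_mod_cast this
    · rw [if_neg hx]
      by_cases hA : (p : ℤ) ∣ (2 * x0 + y0)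
      · by_cases hB : (p : ℤ) ∣ (x0 - 2 * y0)
        · exfalso
          have h6 : (p : ℤ) ∣ 5 * x0 := by
            have : (5 * x0 : ℤ) = 2 * (2 * x0 + y0) + (x0 - 2 * y0) := by ring
            rw [this]
            exact dvd_add (hA.mul_left 2) hB
          rcases hpI.dvd_or_dvd h6 with h | h
          · have : p ∣ 5 := by exact_mod_cast h
            exact h5 ((Nat.prime_dvd_prime_iff_eq hp (by norm_num)).1 this)
          · exact hx (by exact_mod_cast h)
        · rw [if_neg hB, mul_zero]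
      · rw [if_neg hA, zero_mul]
  simp_rw [h4]
  have h5' : ∀ x0 : ℕ, ∑ y0 ∈ range (p * m),
      ex (p * m * p) t (((Nf (x0 : ℤ) (y0 : ℤ)) : ℤ) : ZMod (p * m * p)) *
        (if p ∣ x0 then (if p ∣ y0 then (p : ℂ) ^ 2 else 0) else 0) =
      if p ∣ x0 then (∑ y1 ∈ range m, ex (p * m * p) t
        (((Nf (x0 : ℤ) ((p * y1 : ℕ) : ℤ)) : ℤ) : ZMod (p * m * p)) * (p : ℂ) ^ 2) else 0 := by
    intro x0
    by_cases hx : p ∣ x0
    · simp only [if_pos hx]
      rw [← sum_range_dvd p m hp.pos (fun y0 => ex (p * m * p) t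
        (((Nf (x0 : ℤ) (y0 : ℤ)) : ℤ) : ZMod (p * m * p)) * (p : ℂ) ^ 2)]
      refine Finset.sum_congr rfl fun y0 _ => ?_
      split_ifs <;> simp
    · simp [if_neg hx]
  simp_rw [h5']
  rw [sum_range_dvd p m hp.pos, HZ_range, Finset.mul_sum]
  refine Finset.sum_congr rfl fun x1 _ => ?_
  rw [Finset.mul_sum]
  refine Finset.sum_congr rfl fun y1 _ => ?_
  rw [mul_comm]
  congr 1
  rw [ex_int, ex_int]
  congr 1
  unfold Nf
  push_cast
  field_simp

end Pool.Agent.R423.GC
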