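import Pool.Agent.R423.GC.Fld2
import Pool.Agent.Y773.HG.Defs

/-!
# The quartic ray class character of `ℚ(√5)` of conductor `41 √5`
-/

set_option autoImplicit false

open NumberField
open scoped QuadraticAlgebra

namespace Pool.Agent.R423.GC

instance : Fact (Nat.Prime 5) := ⟨by norm_num⟩
instance : Fact (Nat.Prime 41) := ⟨by norm_num⟩

/-- the quadratic character modulo `5` -/
noncomputable def c5 : MulChar (ZMod 5) ℂ := (quadraticChar (ZMod 5)).ringHomComp (Int.castRingHom ℂ)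

/-- the quadratic character modulo `41` -/
noncomputable def c41 : MulChar (ZMod 41) ℂ :=
  (quadraticChar (ZMod 41)).ringHomComp (Int.castRingHom ℂ)

lemma c5_apply (x : ZMod 5) : c5 x = ((quadraticChar (ZMod 5) x : ℤ) : ℂ) := rfl
lemma c41_apply (x : ZMod 41) : c41 x = ((quadraticChar (ZMod 41) x : ℤ) : ℂ) := rfl

lemma qc5_two : quadraticChar (ZMod 5) 2 = -1 := by decide
lemma qc5_three : quadraticChar (ZMod 5) 3 = -1 := by decide
lemma qc5_neg : quadraticChar (ZMod 5) (-1) = 1 := by decide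
lemma qc41_19 : quadraticChar (ZMod 41) 19 = -1 := by decide
lemma qc41_6 : quadraticChar (ZMod 41) 6 = -1 := by decide
lemma qc41_9 : quadraticChar (ZMod 41) 9 = 1 := by decide

lemma c5_two : c5 2 = -1 := by rw [c5_apply, qc5_two]; simp
lemma c5_three : c5 3 = -1 := by rw [c5_apply, qc5_three]; simp
lemma c5_neg : c5 (-1) = 1 := by rw [c5_apply, qc5_neg]; simp
lemma c41_19 : c41 19 = -1 := by rw [c41_apply, qc41_19]; simp
lemma c41_6 : c41 6 = -1 := by rw [c41_apply, qc41_6]; simp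
lemma c41_9 : c41 9 = 1 := by rw [c41_apply, qc41_9]; simp

/-- `a` is a character of order four -/
def IsQ (a : MulChar (ZMod 41) ℂ) : Prop := a * a = c41

lemma IsQ.sq {a : MulChar (ZMod 41) ℂ} (ha : IsQ a) (x : ZMod 41) : a x * a x = c41 x := by
  rw [← MulChar.mul_apply, ha]

lemma c41_inv : c41⁻¹ = c41 := by
  have h : (quadraticChar (ZMod 41))⁻¹ = quadraticChar (ZMod 41) :=
    (quadraticChar_isQuadratic (ZMod 41)).inv
  unfold c41
  have h2 : ((quadraticChar (ZMod 41)).ringHomComp (Int.castRingHom ℂ)).IsQuadratic :=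
    (quadraticChar_isQuadratic (ZMod 41)).comp _
  exact h2.inv

lemma IsQ.inv {a : MulChar (ZMod 41) ℂ} (ha : IsQ a) : IsQ a⁻¹ := by
  unfold IsQ
  rw [← mul_inv, ha, c41_inv]

lemma exists_isQ : ∃ a : MulChar (ZMod 41) ℂ, IsQ a := by
  have h4 : IsPrimitiveRoot Complex.I 4 := Complex.isPrimitiveRoot_I
  obtain ⟨a, ha⟩ := MulChar.exists_mulChar_orderOf (ZMod 41) (n := 4)
    (by rw [ZMod.card]; norm_num) h4
  refine ⟨a, ?_⟩
  -- both are quadratic and nontrivial
  have h1 : orderOf (a * a) = 2 := by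
    rw [← pow_two, orderOf_pow' a (by norm_num : (2 : ℕ) ≠ 0), ha]
    norm_num
  have hgen : IsCyclic (ZMod 41)ˣ := inferInstance
  obtain ⟨g, hg⟩ := hgen.exists_generator
  have hval : ∀ χ : MulChar (ZMod 41) ℂ, χ * χ = 1 → χ ≠ 1 → χ (g : ZMod 41) = -1 := by
    intro χ h2 hne
    have h3 : χ g * χ g = 1 := by
      rw [← MulChar.mul_apply, h2, MulChar.one_apply_coe]
    rcases mul_self_eq_one_iff.1 h3 with h | h
    · exfalso
      apply hne
      ext u
      obtain ⟨k, hk⟩ := Subgroup.mem_zpowers_iff.1 (hg u)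
      rw [← hk, MulChar.one_apply_coe]
      have h5 : (MulChar.toUnitHom χ) g = 1 := by
        ext
        rw [MulChar.coe_toUnitHom, h]
        rfl
      have h6 : (MulChar.toUnitHom χ) (g ^ k) = 1 := by rw [map_zpow, h5, one_zpow]
      have h7 : χ ((g ^ k : (ZMod 41)ˣ) : ZMod 41) = 1 := by
        rw [← MulChar.coe_toUnitHom, h6]
        rfl
      exact h7
    · exact h
  have e1 : (a * a) (g : ZMod 41) = -1 := by
    refine hval _ ?_ ?_
    · have := pow_orderOf_eq_one (a * a)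
      rwa [h1, pow_two] at this
    · intro h
      rw [h, orderOf_one] at h1
      omega
  have e2 : c41 (g : ZMod 41) = -1 := by
    refine hval _ ?_ ?_
    · have : c41 * c41⁻¹ = 1 := mul_inv_cancel _
      rwa [c41_inv] at this
    · intro h
      have h3 := c41_6
      have h4 : IsUnit (6 : ZMod 41) := by decide
      rw [h, MulChar.one_apply h4] at h3
      norm_num at h3
  unfold IsQ
  ext u
  obtain ⟨k, hk⟩ := Subgroup.mem_zpowers_iff.1 (hg u)
  have h5 : (MulChar.toUnitHom (a * a)) g = (MulChar.toUnitHom c41) g := by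
    ext
    rw [MulChar.coe_toUnitHom, MulChar.coe_toUnitHom, e1, e2]
  have h6 : (MulChar.toUnitHom (a * a)) (g ^ k) = (MulChar.toUnitHom c41) (g ^ k) := by
    rw [map_zpow, map_zpow, h5]
  rw [hk] at h6
  have h7 := congrArg (fun u : ℂˣ => (u : ℂ)) h6
  simpa [MulChar.coe_toUnitHom] using h7

/-! ## the reductions -/

/-- reduction modulo `√5` -/
noncomputable def r5 : 𝓞 QF →+* ZMod 5 := red 3 (by decide)
/-- reduction modulo `7 - ω` -/
noncomputable def rP : 𝓞 QF →+* ZMod 41 := red 7 (by decide)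
/-- reduction modulo `6 + ω` -/
noncomputable def rQ : 𝓞 QF →+* ZMod 41 := red 35 (by decide)

lemma r5_mk (a b : ℤ) : r5 ((a : 𝓞 QF) + b * om) = (a : ZMod 5) + b * 3 := by
  rw [r5, red_apply, cre_mk, cim_mk]
lemma rP_mk (a b : ℤ) : rP ((a : 𝓞 QF) + b * om) = (a : ZMod 41) + b * 7 := by
  rw [rP, red_apply, cre_mk, cim_mk]
lemma rQ_mk (a b : ℤ) : rQ ((a : 𝓞 QF) + b * om) = (a : ZMod 41) + b * 35 := by
  rw [rQ, red_apply, cre_mk, cim_mk]

lemma r5_om : r5 om = 3 := by
  rw [r5, red_apply, coord_om.1, coord_om.2]; simp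
lemma rP_om : rP om = 7 := by
  rw [rP, red_apply, coord_om.1, coord_om.2]; simp
lemma rQ_om : rQ om = 35 := by
  rw [rQ, red_apply, coord_om.1, coord_om.2]; simp

/-- the function on the integers -/
noncomputable def f0 (a : MulChar (ZMod 41) ℂ) : 𝓞 QF →*₀ ℂ where
  toFun x := c5 (r5 x) * (a (rP x) * a⁻¹ (rQ x))
  map_zero' := by
    rw [map_zero, MulChar.map_zero, zero_mul]
  map_one' := by simp
  map_mul' x y := by
    simp only [map_mul]
    ring

lemma f0_apply (a : MulChar (ZMod 41) ℂ) (x : 𝓞 QF) :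
    f0 a x = c5 (r5 x) * (a (rP x) * a⁻¹ (rQ x)) := rfl

lemma isQ_neg {a : MulChar (ZMod 41) ℂ} (ha : IsQ a) : a (-1) = 1 := by
  have h1 : (-1 : ZMod 41) = 9 * 9 := by decide
  rw [h1, map_mul, ha.sq, c41_9]

lemma f0_neg {a : MulChar (ZMod 41) ℂ} (ha : IsQ a) : f0 a (-1) = 1 := by
  have e1 : r5 (-1) = -1 := by rw [map_neg, map_one]
  have e2 : rP (-1) = -1 := by rw [map_neg, map_one]
  have e3 : rQ (-1) = -1 := by rw [map_neg, map_one]
  rw [f0_apply, e1, e2, e3, c5_neg, isQ_neg ha, isQ_neg ha.inv]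
  norm_num

lemma f0_om {a : MulChar (ZMod 41) ℂ} (ha : IsQ a) : f0 a om = 1 := by
  rw [f0_apply, r5_om, rP_om, rQ_om, c5_three]
  have h1 : a⁻¹ (35 : ZMod 41) = a 34 := by
    rw [MulChar.inv_apply_eq_inv]
    have h2 : a 35 * a 34 = 1 := by
      rw [← map_mul]
      have : (35 * 34 : ZMod 41) = 1 := by decide
      rw [this, map_one]
    rw [Ring.inverse_eq_inv']
    exact inv_eq_of_mul_eq_one_right h2
  rw [h1, ← map_mul]
  have h3 : (7 * 34 : ZMod 41) = 19 * 19 := by decide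
  rw [h3, map_mul, ha.sq, c41_19]
  norm_num

lemma f0_unit {a : MulChar (ZMod 41) ℂ} (ha : IsQ a) {u : 𝓞 QF} (hu : IsUnit u) : f0 a u = 1 :=
  unit_one (f := f0 a) (map_mul _) (map_one _) (f0_neg ha) (f0_om ha) hu

/-- the function on the ideals attached to a function which is `1` at the units -/
noncomputable def ofFun (f : 𝓞 QF →*₀ ℂ) (hf : ∀ u : 𝓞 QF, IsUnit u → f u = 1) :
    Ideal (𝓞 QF) →*₀ ℂ where
  toFun I := f (Submodule.IsPrincipal.generator I)
  map_zero' := by
    have h1 : Submodule.IsPrincipal.generator (0 : Ideal (𝓞 QF)) = 0 :=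
      (Submodule.IsPrincipal.eq_bot_iff_generator_eq_zero _).1 rfl
    rw [h1, map_zero]
  map_one' := by
    apply hf
    rw [← Ideal.span_singleton_eq_top, Ideal.span_singleton_generator]
    exact Ideal.one_eq_top
  map_mul' I J := by
    rw [← map_mul]
    have h1 : Ideal.span {Submodule.IsPrincipal.generator (I * J)} =
        Ideal.span {Submodule.IsPrincipal.generator I * Submodule.IsPrincipal.generator J} := by
      rw [← Ideal.span_singleton_mul_span_singleton, Ideal.span_singleton_generator,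
        Ideal.span_singleton_generator, Ideal.span_singleton_generator]
    rw [Ideal.span_singleton_eq_span_singleton] at h1
    obtain ⟨u, hu⟩ := h1
    rw [← hu, map_mul, hf _ u.isUnit, mul_one]

lemma ofFun_span (f : 𝓞 QF →*₀ ℂ) (hf : ∀ u : 𝓞 QF, IsUnit u → f u = 1) (x : 𝓞 QF) :
    ofFun f hf (Ideal.span {x}) = f x := by
  show f _ = _
  have h1 : Ideal.span {Submodule.IsPrincipal.generator (Ideal.span {x})} = Ideal.span {x} :=
    Ideal.span_singleton_generator _
  rw [Ideal.span_singleton_eq_span_singleton] at h1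
  obtain ⟨u, hu⟩ := h1
  have h2 := congrArg f hu
  rw [map_mul, hf _ u.isUnit, mul_one] at h2
  exact h2

/-- the character `ψ` -/
noncomputable def psi {a : MulChar (ZMod 41) ℂ} (ha : IsQ a) : Ideal (𝓞 QF) →*₀ ℂ :=
  ofFun (f0 a) (fun _ hu => f0_unit ha hu)

lemma psi_span {a : MulChar (ZMod 41) ℂ} (ha : IsQ a) (x : 𝓞 QF) :
    psi ha (Ideal.span {x}) = f0 a x := ofFun_span _ _ _

/-! ## norms -/

lemma norm_mod5 (x : 𝓞 QF) : ((Algebra.norm ℤ x : ℤ) : ZMod 5) = r5 x * r5 x := by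
  rw [norm_int, r5, red_apply]
  push_cast
  have h : (9 : ZMod 5) = -1 := by decide
  have h2 : (6 : ZMod 5) = 1 := by decide
  linear_combination (-(cim x : ZMod 5) * (cim x : ZMod 5)) * h - ((cre x : ZMod 5) * (cim x : ZMod 5)) * h2

lemma norm_mod41 (x : 𝓞 QF) : ((Algebra.norm ℤ x : ℤ) : ZMod 41) = rP x * rQ x := by
  rw [norm_int, rP, rQ, red_apply, red_apply]
  push_cast
  have h : (245 : ZMod 41) = -1 := by decide
  have h2 : (42 : ZMod 41) = 1 := by decide
  linear_combination (-(cim x : ZMod 41) * (cim x : ZMod 41)) * h - ((cre x : ZMod 41) * (cim x : ZMod 41)) * h2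

lemma f0_ne_zero {a : MulChar (ZMod 41) ℂ} (x : 𝓞 QF) :
    f0 a x ≠ 0 ↔ r5 x ≠ 0 ∧ rP x ≠ 0 ∧ rQ x ≠ 0 := by
  have key : ∀ {p : ℕ} [Fact p.Prime] (χ : MulChar (ZMod p) ℂ) (y : ZMod p), χ y ≠ 0 ↔ y ≠ 0 := by
    intro p _ χ y
    constructor
    · rintro h rfl
      exact h (MulChar.map_zero χ)
    · intro h
      exact ((isUnit_iff_ne_zero.2 h).map χ).ne_zero
  rw [f0_apply, mul_ne_zero_iff, mul_ne_zero_iff, key, key, key]

/-- the conjugate -/
noncomputable def cj (x : 𝓞 QF) : 𝓞 QF := ((cre x + cim x : ℤ) : 𝓞 QF) + ((-cim x : ℤ) : 𝓞 QF) * om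

lemma om_sq : om * om = 1 + om := by
  have h := coord_mul om om
  rw [eq_mk (om * om), h.1, h.2, coord_om.1, coord_om.2]
  norm_num

lemma mul_cj (x : 𝓞 QF) : x * cj x = ((Algebra.norm ℤ x : ℤ) : 𝓞 QF) := by
  rw [norm_int, cj]
  have h := eq_mk x
  set A := cre x
  set B := cim x
  rw [h]
  push_cast
  linear_combination (-(B : 𝓞 QF) * (B : 𝓞 QF)) * om_sq

/-- the conductor -/
noncomputable def cond : Ideal (𝓞 QF) := Ideal.span {41 * rt5}

lemma r5_rt5 : r5 rt5 = 0 := by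
  rw [rt5, r5_mk]; decide

lemma isCoprime_cond {x : 𝓞 QF} : IsCoprime (Ideal.span {x}) cond ↔
    r5 x ≠ 0 ∧ rP x ≠ 0 ∧ rQ x ≠ 0 := by
  rw [cond, Ideal.isCoprime_span_singleton_iff]
  constructor
  · rintro ⟨u, v, h⟩
    have h5 := congrArg r5 h
    have hP := congrArg rP h
    have hQ := congrArg rQ h
    have e1 : (rP (41 : 𝓞 QF)) = 0 := by rw [map_ofNat]; decide
    have e2 : (rQ (41 : 𝓞 QF)) = 0 := by rw [map_ofNat]; decide
    rw [map_add, map_mul, map_mul, map_mul, r5_rt5, mul_zero, mul_zero, add_zero, map_one] at h5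
    rw [map_add, map_mul, map_mul, map_mul, e1, zero_mul, mul_zero, add_zero, map_one] at hP
    rw [map_add, map_mul, map_mul, map_mul, e2, zero_mul, mul_zero, add_zero, map_one] at hQ
    refine ⟨?_, ?_, ?_⟩
    · intro h0; rw [h0, mul_zero] at h5; exact zero_ne_one h5
    · intro h0; rw [h0, mul_zero] at hP; exact zero_ne_one hP
    · intro h0; rw [h0, mul_zero] at hQ; exact zero_ne_one hQ
  · rintro ⟨h1, h2, h3⟩
    have n5 : ¬ (5 : ℤ) ∣ Algebra.norm ℤ x := by
      intro h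
      have : ((Algebra.norm ℤ x : ℤ) : ZMod 5) = 0 := (ZMod.intCast_zmod_eq_zero_iff_dvd _ 5).2 h
      rw [norm_mod5] at this
      exact h1 (mul_self_eq_zero.1 this)
    have n41 : ¬ (41 : ℤ) ∣ Algebra.norm ℤ x := by
      intro h
      have : ((Algebra.norm ℤ x : ℤ) : ZMod 41) = 0 := (ZMod.intCast_zmod_eq_zero_iff_dvd _ 41).2 h
      rw [norm_mod41] at this
      rcases mul_eq_zero.1 this with h | h
      · exact h2 h
      · exact h3 h
    have hc : IsCoprime (Algebra.norm ℤ x) (205 : ℤ) := by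
      have e : (205 : ℤ) = 5 * 41 := by norm_num
      rw [e, IsCoprime.mul_right_iff]
      exact ⟨((Int.prime_iff_natAbs_prime.2 (by norm_num)).coprime_iff_not_dvd.2 n5).symm,
        ((Int.prime_iff_natAbs_prime.2 (by norm_num)).coprime_iff_not_dvd.2 n41).symm⟩
    obtain ⟨u, v, h⟩ := hc
    refine ⟨(u : 𝓞 QF) * cj x, (v : 𝓞 QF) * rt5, ?_⟩
    have h4 := congrArg (fun n : ℤ => (n : 𝓞 QF)) h
    push_cast at h4
    rw [← h4, ← mul_cj]
    linear_combination (41 * (v : 𝓞 QF)) * rt5_sq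

end Pool.Agent.R423.GC
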