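import Pool.Agent.R423.GC.Gau
import Pool.Agent.R423.GC.Psi

/-!
# The value of the quadratic Gauss sums of the form `x² + x y - y²`
-/

set_option autoImplicit false

open Finset ZMod

namespace Pool.Agent.R423.GC

section

variable {p : ℕ} [Fact p.Prime]

/-- the quadratic character with complex values -/
noncomputable def qc (p : ℕ) [Fact p.Prime] : MulChar (ZMod p) ℂ :=
  (quadraticChar (ZMod p)).ringHomComp (Int.castRingHom ℂ)

lemma qc_apply (x : ZMod p) : qc p x = ((quadraticChar (ZMod p) x : ℤ) : ℂ) := rfl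

lemma sum_sq (hp2 : p ≠ 2) (ψ : AddChar (ZMod p) ℂ) (hψ : ψ.IsPrimitive) {c : ZMod p} (hc : c ≠ 0) :
    ∑ x : ZMod p, ψ (c * (x * x)) = qc p c * gaussSum (qc p) ψ := by
  have hchar : ringChar (ZMod p) ≠ 2 := by rw [ZMod.ringChar_zmod_n]; exact hp2
  have h1 : ∑ x : ZMod p, ψ (c * (x * x)) =
      ∑ n : ZMod p, ((quadraticChar (ZMod p) n + 1 : ℤ) : ℂ) * ψ (c * n) := by
    rw [← Finset.sum_fiberwise (s := univ) (g := fun x : ZMod p => x * x)]
    refine Finset.sum_congr rfl fun n _ => ?_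
    rw [← quadraticChar_card_sqrts hchar n]
    have h2 : ∀ x ∈ univ.filter (fun x : ZMod p => x * x = n), ψ (c * (x * x)) = ψ (c * n) := by
      intro x hx
      rw [(mem_filter.1 hx).2]
    rw [Finset.sum_congr rfl h2, Finset.sum_const, nsmul_eq_mul]
    congr 1
    rw [Int.cast_natCast]
    congr 2
    ext x
    simp [pow_two]
  rw [h1]
  have h3 : ∑ n : ZMod p, ((quadraticChar (ZMod p) n + 1 : ℤ) : ℂ) * ψ (c * n) =
      ∑ n : ZMod p, qc p n * ψ (c * n) + ∑ n : ZMod p, ψ (n * c) := by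
    rw [← Finset.sum_add_distrib]
    refine Finset.sum_congr rfl fun n _ => ?_
    rw [qc_apply, mul_comm n c]
    push_cast
    ring
  rw [h3, AddChar.sum_mulShift _ hψ, if_neg hc]
  have h4 : ∑ n : ZMod p, qc p n * ψ (c * n) = gaussSum (qc p) (ψ.mulShift c) := by
    unfold gaussSum
    refine Finset.sum_congr rfl fun n _ => ?_
    rw [AddChar.mulShift_apply]
  rw [h4]
  have hu : IsUnit c := isUnit_iff_ne_zero.2 hc
  have h5 := gaussSum_mulShift (qc p) ψ hu.unit
  rw [hu.unit_spec] at h5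
  have h6 : qc p c * qc p c = 1 := by
    rw [qc_apply, ← Int.cast_mul, ← pow_two, quadraticChar_sq_one hc, Int.cast_one]
  rw [← h5]
  have : qc p c * (qc p c * gaussSum (qc p) (ψ.mulShift c)) = gaussSum (qc p) (ψ.mulShift c) := by
    rw [← mul_assoc, h6, one_mul]
  rw [this]
  simp

end

lemma qc_quad (p : ℕ) [Fact p.Prime] : (qc p).IsQuadratic :=
  (quadraticChar_isQuadratic (ZMod p)).comp _

lemma qc_ne_one {p : ℕ} [Fact p.Prime] (hp2 : p ≠ 2) : qc p ≠ 1 := by
  intro h
  have hchar : ringChar (ZMod p) ≠ 2 := by rw [ZMod.ringChar_zmod_n]; exact hp2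
  obtain ⟨a, ha⟩ := quadraticChar_exists_neg_one' hchar
  have h1 : qc p a = (-1 : ℂ) := by
    rw [qc_apply, ha]; simp
  rw [h, MulChar.one_apply_coe] at h1
  norm_num at h1

lemma c5_eq_qc {p : ℕ} [Fact p.Prime] (hp2 : p ≠ 2) : qc p 5 = c5 (p : ZMod 5) := by
  rw [qc_apply, c5_apply]
  have h := legendreSym.quadratic_reciprocity_one_mod_four (p := 5) (q := p) (by norm_num) hp2
  unfold legendreSym at h
  congr 1
  have e1 : (((5 : ℕ) : ℤ) : ZMod p) = 5 := by norm_num
  have e2 : (((p : ℕ) : ℤ) : ZMod 5) = (p : ZMod 5) := by norm_num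
  rw [e1, e2] at h
  exact h

lemma nf2_1 : Nf (0 : ZMod 2) 0 = 0 := by unfold Nf; decide
lemma nf2_2 : Nf (0 : ZMod 2) 1 = 1 := by unfold Nf; decide
lemma nf2_3 : Nf (1 : ZMod 2) 0 = 1 := by unfold Nf; decide
lemma nf2_4 : Nf (1 : ZMod 2) 1 = 1 := by unfold Nf; decide

lemma HZ_prime (p : ℕ) [Fact p.Prime] (h5 : p ≠ 5) {t : ℤ} (ht : ¬ (p : ℤ) ∣ t) :
    HZ p t = c5 (p : ZMod 5) * p := by
  have hp : p.Prime := Fact.out
  by_cases hp2 : p = 2
  · subst hp2
    have h1 : ((2 : ℕ) : ZMod 5) = 2 := by norm_num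
    rw [h1, c5_two]
    have ht1 : (t : ZMod 2) = 1 := by
      have h2 : (t : ZMod 2) = ((1 : ℤ) : ZMod 2) :=
        (ZMod.intCast_eq_intCast_iff _ _ _).2 (by show t % 2 = 1 % 2; omega)
      rw [h2, Int.cast_one]
    have e0 : ex 2 t 0 = 1 := by
      rw [ex, mul_zero, AddChar.map_zero_eq_one]
    have e1 : ex 2 t 1 = -1 := by
      rw [ex, ht1, mul_one]
      have := stdAddChar_coe (N := 2) 1
      rw [Int.cast_one] at this
      rw [this]
      have h3 : 2 * (Real.pi : ℂ) * Complex.I * ((1 : ℤ) : ℂ) / ((2 : ℕ) : ℂ) = Real.pi * Complex.I := by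
        push_cast
        ring
      rw [h3, Complex.exp_pi_mul_I]
    have hs : HZ 2 t = (ex 2 t (Nf 0 0) + ex 2 t (Nf 0 1)) + (ex 2 t (Nf 1 0) + ex 2 t (Nf 1 1)) := by
      unfold HZ
      exact (Fin.sum_univ_two _).trans (by
        congr 1 <;> exact Fin.sum_univ_two _)
    rw [hs, nf2_1, nf2_2, nf2_3, nf2_4, e0, e1]
    norm_num
  · have h4 : (4 : ZMod p) ≠ 0 := by
      intro h
      have h6 : ((4 : ℕ) : ZMod p) = 0 := by exact_mod_cast h
      rw [ZMod.natCast_eq_zero_iff] at h6
      have : p ∣ 2 ^ 2 := by norm_num; exact h6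
      exact hp2 ((Nat.prime_dvd_prime_iff_eq hp Nat.prime_two).1 (hp.dvd_of_dvd_pow this))
    have h2 : (2 : ZMod p) ≠ 0 := by
      intro h
      apply h4
      have : (4 : ZMod p) = 2 * 2 := by norm_num
      rw [this, h, zero_mul]
    have h5' : (5 : ZMod p) ≠ 0 := by
      intro h
      have h6 : ((5 : ℕ) : ZMod p) = 0 := by exact_mod_cast h
      rw [ZMod.natCast_eq_zero_iff] at h6
      exact h5 ((Nat.prime_dvd_prime_iff_eq hp (by norm_num)).1 h6)
    have ht0 : (t : ZMod p) ≠ 0 := by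
      intro h
      exact ht ((ZMod.intCast_zmod_eq_zero_iff_dvd _ _).1 h)
    set s : ZMod p := (t : ZMod p) * 4⁻¹ with hs
    have hs0 : s ≠ 0 := mul_ne_zero ht0 (inv_ne_zero h4)
    set ψ : AddChar (ZMod p) ℂ := stdAddChar with hψdef
    have hψ : ψ.IsPrimitive := isPrimitive_stdAddChar p
    have key : HZ p t = (∑ x : ZMod p, ψ (s * (x * x))) * ∑ y : ZMod p, ψ ((-5 * s) * (y * y)) := by
      unfold HZ
      rw [Finset.sum_comm, Finset.sum_mul_sum, Finset.sum_comm (s := univ) (t := univ)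
        (f := fun x y : ZMod p => ψ (s * (x * x)) * ψ ((-5 * s) * (y * y)))]
      refine Finset.sum_congr rfl fun y _ => ?_
      have hbij : Function.Bijective fun x : ZMod p => 2 * x + y := by
        refine (Finite.injective_iff_bijective).1 fun x x' h => ?_
        have h7 : 2 * x = 2 * x' := add_right_cancel h
        exact mul_left_cancel₀ h2 h7
      rw [← hbij.sum_comp (fun X => ψ (s * (X * X)) * ψ ((-5 * s) * (y * y)))]
      refine Finset.sum_congr rfl fun x _ => ?_
      rw [← AddChar.map_add_eq_mul]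
      show ψ _ = ψ _
      congr 1
      unfold Nf
      rw [hs]
      field_simp
      ring
    rw [key, sum_sq hp2 ψ hψ hs0, sum_sq hp2 ψ hψ (mul_ne_zero (neg_ne_zero.2 h5') hs0)]
    have hg : gaussSum (qc p) ψ ^ 2 = qc p (-1) * (Fintype.card (ZMod p) : ℂ) :=
      gaussSum_sq (qc_ne_one hp2) (qc_quad p) hψ
    have h8 : qc p s * qc p (-5 * s) * qc p (-1) = qc p 5 := by
      rw [← map_mul, ← map_mul]
      have h9 : s * (-5 * s) * -1 = 5 * (s * s) := by ring
      rw [h9, map_mul, map_mul]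
      have h10 : qc p s * qc p s = 1 := by
        rw [qc_apply, ← Int.cast_mul, ← pow_two, quadraticChar_sq_one hs0, Int.cast_one]
      rw [h10, mul_one]
    rw [ZMod.card] at hg
    calc qc p s * gaussSum (qc p) ψ * (qc p (-5 * s) * gaussSum (qc p) ψ) =
        qc p s * qc p (-5 * s) * gaussSum (qc p) ψ ^ 2 := by ring
      _ = (qc p s * qc p (-5 * s) * qc p (-1)) * p := by rw [hg]; ring
      _ = _ := by rw [h8, c5_eq_qc hp2]

lemma HZ_one (t : ℤ) : HZ 1 t = 1 := by
  unfold HZ
  rw [Fintype.sum_unique, Fintype.sum_unique]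
  have : ∀ z : ZMod 1, ex 1 t z = 1 := by
    intro z
    have hz : z = 0 := Subsingleton.elim _ _
    rw [hz, ex, mul_zero, AddChar.map_zero_eq_one]
  exact this _

/-- **the value of the Gauss sum** -/
theorem HZ_eval : ∀ (q : ℕ) [NeZero q] (t : ℤ), q.Coprime 5 → IsCoprime t (q : ℤ) →
    HZ q t = c5 (q : ZMod 5) * q := by
  intro q
  induction q using Nat.strong_induction_on with
  | _ q ih =>
    intro _ t h5 ht
    by_cases hq1 : q = 1
    · subst hq1
      rw [HZ_one]
      have : ((1 : ℕ) : ZMod 5) = 1 := by norm_num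
      rw [this, map_one]
      norm_num
    have hq0 : q ≠ 0 := NeZero.ne q
    set p := q.minFac with hpdef
    have hp : p.Prime := Nat.minFac_prime hq1
    have hF : Fact p.Prime := ⟨hp⟩
    have hp5 : p ≠ 5 := by
      intro h
      have h1 : 5 ∣ q := by rw [← h]; exact Nat.minFac_dvd q
      have := Nat.Coprime.eq_one_of_dvd (Nat.coprime_comm.1 h5) h1
      omega
    have hpt : ¬ (p : ℤ) ∣ t := by
      intro h
      have h1 : (p : ℤ) ∣ q := by exact_mod_cast Nat.minFac_dvd q
      have h2 := ht.isUnit_of_dvd' h h1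
      rw [Int.isUnit_iff] at h2
      have := hp.two_le
      omega
    have c5sq : ∀ n : ℕ, n.Coprime 5 → c5 (n : ZMod 5) * c5 (n : ZMod 5) = 1 := by
      intro n hn
      have hn0 : (n : ZMod 5) ≠ 0 := by
        intro h
        rw [ZMod.natCast_eq_zero_iff] at h
        have := Nat.Coprime.eq_one_of_dvd (Nat.coprime_comm.1 hn) h
        omega
      rw [c5_apply, ← Int.cast_mul, ← pow_two, quadraticChar_sq_one hn0, Int.cast_one]
    obtain ⟨n, hn⟩ := Nat.minFac_dvd q
    rw [← hpdef] at hn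
    by_cases hpn : p ∣ n
    · obtain ⟨m, rfl⟩ := hpn
      have hm0 : m ≠ 0 := by
        rintro rfl
        exact hq0 (by rw [hn]; ring)
      have : NeZero m := ⟨hm0⟩
      have : NeZero (p * m) := ⟨mul_ne_zero hp.ne_zero hm0⟩
      have hqe : q = p * m * p := by rw [hn]; ring
      have : NeZero (p * m * p) := ⟨by rw [← hqe]; exact hq0⟩
      have hml : m < q := by
        rw [hqe]
        have := hp.two_le
        have hmpos := Nat.pos_of_ne_zero hm0
        nlinarith [Nat.mul_le_mul this (le_refl (m * p)), Nat.mul_le_mul (le_refl m) this]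
      have hc : m.Coprime 5 := Nat.Coprime.coprime_dvd_left (by rw [hqe]; exact ⟨p * p, by ring⟩) h5
      have hcp : p.Coprime 5 := Nat.Coprime.coprime_dvd_left (by rw [hqe]; exact ⟨m * p, by ring⟩) h5
      have htm : IsCoprime t (m : ℤ) := ht.of_isCoprime_of_dvd_right (by
        rw [hqe]; push_cast; exact ⟨p * p, by ring⟩)
      clear_value p
      subst hqe
      rw [HZ_sq p m hp5 hpt, ih m hml t hc htm]
      push_cast
      rw [map_mul, map_mul]
      have := c5sq p hcp
      linear_combination (-(c5 (m : ZMod 5)) * p * m * p) * this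
    · have hn0 : n ≠ 0 := by
        rintro rfl
        exact hq0 (by rw [hn]; ring)
      have hcop : p.Coprime n := (Nat.Prime.coprime_iff_not_dvd hp).2 hpn
      have : NeZero n := ⟨hn0⟩
      have : NeZero (p * n) := ⟨by rw [← hn]; exact hq0⟩
      have hc : n.Coprime 5 := Nat.Coprime.coprime_dvd_left (by rw [hn]; exact ⟨p, by ring⟩) h5
      have hnl : n < q := by
        rw [hn]
        have := hp.two_le
        have hmpos := Nat.pos_of_ne_zero hn0
        nlinarith
      have hcI : IsCoprime (p : ℤ) (n : ℤ) := Nat.isCoprime_iff_coprime.2 hcop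
      obtain ⟨u, v, huv⟩ := hcI
      -- `u p + v n = 1`
      have htt : t = (t * v) * n + (t * u) * p := by linear_combination (-t) * huv
      have h1 : ¬ (p : ℤ) ∣ t * v := by
        intro h
        rcases (Nat.prime_iff_prime_int.1 hp).dvd_or_dvd h with h | h
        · exact hpt h
        · have h2 : (p : ℤ) ∣ 1 := by
            rw [← huv]
            exact dvd_add (Dvd.intro_left u rfl) (h.mul_right n)
          have h3 := Int.isUnit_iff.1 (isUnit_of_dvd_one h2)
          have := hp.two_le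
          omega
      have h2 : IsCoprime (t * u) (n : ℤ) := by
        refine IsCoprime.mul_left (ht.of_isCoprime_of_dvd_right (by
          rw [hn]; push_cast; exact ⟨p, by ring⟩)) ⟨p, v, by linear_combination huv⟩
      clear_value p
      subst hn
      rw [HZ_mul hcop htt, HZ_prime p hp5 h1, ih n hnl (t * u) hc h2]
      push_cast
      rw [map_mul]
      ring

end Pool.Agent.R423.GC
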