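import Pool.Agent.R423.GC.Psi

/-!
# The quartic ray class character of `ℚ(√5)` is primitive of conductor `41 √5`
-/

set_option autoImplicit false

open NumberField
open scoped QuadraticAlgebra
open Pool.Agent.Y773 (TPos)

namespace Pool.Agent.R423.GC

lemma r5_dvd {h : 𝓞 QF} (h0 : r5 h = 0) : rt5 ∣ h := by
  have e := eq_mk h
  generalize hA : cre h = A at e
  generalize hB : cim h = B at e
  subst e
  rw [r5_mk] at h0
  have h1 : ((A + 3 * B : ℤ) : ZMod 5) = 0 := by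
    push_cast
    rw [← h0]
    ring
  rw [ZMod.intCast_zmod_eq_zero_iff_dvd] at h1
  obtain ⟨k, hk⟩ := h1
  have hk' : A = 5 * k - 3 * B := by push_cast at hk; linarith
  have h2 := congrArg (fun n : ℤ => (n : 𝓞 QF)) hk'
  push_cast at h2
  refine ⟨(k : 𝓞 QF) * rt5 + (B : 𝓞 QF) * (1 - om), ?_⟩
  rw [h2]
  have h3 : rt5 = -1 + 2 * om := by rw [rt5]; push_cast; ring
  have h4 : rt5 * rt5 = 5 := rt5_sq
  have h5 : rt5 * (1 - om) = om - 3 := by
    rw [h3]
    linear_combination (-2) * om_sq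
  linear_combination (-(k : 𝓞 QF)) * h4 - (B : 𝓞 QF) * h5

lemma rP_dvd {h : 𝓞 QF} (h0 : rP h = 0) : (7 - om) ∣ h := by
  have e := eq_mk h
  generalize hA : cre h = A at e
  generalize hB : cim h = B at e
  subst e
  rw [rP_mk] at h0
  have h1 : ((A + 7 * B : ℤ) : ZMod 41) = 0 := by
    push_cast
    rw [← h0]
    ring
  rw [ZMod.intCast_zmod_eq_zero_iff_dvd] at h1
  obtain ⟨k, hk⟩ := h1
  have hk' : A = 41 * k - 7 * B := by push_cast at hk; linarith
  have h2 := congrArg (fun n : ℤ => (n : 𝓞 QF)) hk'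
  push_cast at h2
  refine ⟨(k : 𝓞 QF) * (6 + om) - (B : 𝓞 QF), ?_⟩
  rw [h2]
  linear_combination (k : 𝓞 QF) * om_sq

lemma rQ_dvd {h : 𝓞 QF} (h0 : rQ h = 0) : (6 + om) ∣ h := by
  have e := eq_mk h
  generalize hA : cre h = A at e
  generalize hB : cim h = B at e
  subst e
  rw [rQ_mk] at h0
  have h1 : ((A - 6 * B : ℤ) : ZMod 41) = 0 := by
    push_cast
    rw [← h0]
    have : (35 : ZMod 41) = -6 := by decide
    rw [this]
    ring
  rw [ZMod.intCast_zmod_eq_zero_iff_dvd] at h1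
  obtain ⟨k, hk⟩ := h1
  have hk' : A = 41 * k + 6 * B := by push_cast at hk; linarith
  have h2 := congrArg (fun n : ℤ => (n : 𝓞 QF)) hk'
  push_cast at h2
  refine ⟨(k : 𝓞 QF) * (7 - om) + (B : 𝓞 QF), ?_⟩
  rw [h2]
  linear_combination (k : 𝓞 QF) * om_sq

lemma mul41 : (7 - om) * (6 + om) = 41 := by linear_combination -om_sq

/-- a real embedding of an integer -/
lemma emb_om (σ : QF →+* ℝ) : -1 < σ (om : QF) ∧ σ (om : QF) < 2 := by
  have h1 : σ (om : QF) * σ (om : QF) = 1 + σ (om : QF) := by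
    rw [← map_mul, ← coe_mul', om_sq, coe_add', map_add, coe_one', map_one]
  constructor <;> nlinarith

lemma tpos_of {a b : ℤ} (h1 : 0 < a - b) (h2 : 0 < a + 2 * b) :
    TPos QF ((a : 𝓞 QF) + b * om) := by
  intro σ
  obtain ⟨h4, h5⟩ := emb_om σ
  have e : σ (((a : 𝓞 QF) + b * om : 𝓞 QF) : QF) = (a : ℝ) + b * σ (om : QF) := by
    rw [coe_add', coe_mul', coe_int', coe_int', map_add, map_mul, map_intCast, map_intCast]
  rw [e]
  have h1' : (0 : ℝ) < (a : ℝ) - b := by exact_mod_cast h1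
  have h2' : (0 : ℝ) < (a : ℝ) + 2 * b := by exact_mod_cast h2
  rcases le_total 0 (b : ℝ) with h | h
  · nlinarith
  · nlinarith

lemma norm_zero' : Algebra.norm ℤ (0 : 𝓞 QF) = 0 := by
  rw [norm_int, coord_zero.1, coord_zero.2]
  norm_num

lemma cond_ne_bot : cond ≠ ⊥ := by
  intro h
  rw [cond, Ideal.span_singleton_eq_bot] at h
  have h1 := congrArg (Algebra.norm ℤ) h
  rw [map_mul, norm_rt5, norm_zero'] at h1
  have h2 : Algebra.norm ℤ (41 : 𝓞 QF) = 41 ^ 2 := by
    have h3 : (41 : 𝓞 QF) = ((41 : ℤ) : 𝓞 QF) + ((0 : ℤ) : 𝓞 QF) * om := by norm_num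
    rw [norm_int, h3, cre_mk, cim_mk]
    norm_num
  rw [h2] at h1
  norm_num at h1

lemma norm41 : Algebra.norm ℤ (41 : 𝓞 QF) = 41 ^ 2 := by
  have h3 : (41 : 𝓞 QF) = ((41 : ℤ) : 𝓞 QF) + ((0 : ℤ) : 𝓞 QF) * om := by norm_num
  rw [norm_int, h3, cre_mk, cim_mk]
  norm_num

lemma absNorm_cond : Ideal.absNorm cond = 5 * 41 ^ 2 := by
  rw [cond, Ideal.absNorm_span_singleton, map_mul, norm41, norm_rt5]
  norm_num

lemma red_of_mem {x y : 𝓞 QF} (h : x - y ∈ cond) : r5 x = r5 y ∧ rP x = rP y ∧ rQ x = rQ y := by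
  rw [cond, Ideal.mem_span_singleton] at h
  obtain ⟨t, ht⟩ := h
  have e1 : (rP (41 : 𝓞 QF)) = 0 := by rw [map_ofNat]; decide
  have e2 : (rQ (41 : 𝓞 QF)) = 0 := by rw [map_ofNat]; decide
  have hx : x = y + 41 * rt5 * t := by rw [← ht]; ring
  refine ⟨?_, ?_, ?_⟩
  · rw [hx, map_add, map_mul, map_mul, r5_rt5, mul_zero, zero_mul, add_zero]
  · rw [hx, map_add, map_mul, map_mul, e1, zero_mul, zero_mul, add_zero]
  · rw [hx, map_add, map_mul, map_mul, e2, zero_mul, zero_mul, add_zero]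

lemma f0_congr {a : MulChar (ZMod 41) ℂ} {x y : 𝓞 QF} (h : x - y ∈ cond) : f0 a x = f0 a y := by
  obtain ⟨h1, h2, h3⟩ := red_of_mem h
  rw [f0_apply, f0_apply, h1, h2, h3]

lemma isQ_six {a : MulChar (ZMod 41) ℂ} (ha : IsQ a) : a 6 ≠ 1 := by
  intro h
  have := ha.sq 6
  rw [h, c41_6] at this
  norm_num at this

theorem prim_psi {a : MulChar (ZMod 41) ℂ} (ha : IsQ a) :
    Pool.Agent.Y773.G.IsPrimChar QF cond (psi ha) := by
  refine ⟨cond_ne_bot, fun 𝔞 _ => ?_, fun x _ hx _ => ?_, fun 𝔤 hg1 hg2 => ?_⟩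
  · rw [← Ideal.span_singleton_generator 𝔞, psi_span, f0_ne_zero, isCoprime_cond]
  · rw [psi_span]
    have h1 : f0 a x = f0 a 1 := f0_congr hx
    rw [h1, map_one]
  · obtain ⟨𝔥, h𝔥⟩ := hg1
    set g := Submodule.IsPrincipal.generator 𝔤 with hgdef
    set h := Submodule.IsPrincipal.generator 𝔥 with hhdef
    have eg : Ideal.span {g} = 𝔤 := Ideal.span_singleton_generator 𝔤
    have eh : Ideal.span {h} = 𝔥 := Ideal.span_singleton_generator 𝔥
    have h1 : Ideal.span {41 * rt5} = Ideal.span {g * h} := by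
      rw [← Ideal.span_singleton_mul_span_singleton (r := g) (s := h), eg, eh]
      exact h𝔥
    rw [Ideal.span_singleton_eq_span_singleton] at h1
    obtain ⟨u, hu⟩ := h1.symm
    -- `g * h * u = 41 * rt5`
    have hnu : ¬ IsUnit h := by
      intro h2
      apply hg2
      rw [← Ideal.span_singleton_eq_top, eh] at h2
      rw [h𝔥, h2, Ideal.mul_top]
    have hN : Algebra.norm ℤ g * Algebra.norm ℤ h * Algebra.norm ℤ (u : 𝓞 QF) = 41 ^ 2 * (-5) := by
      rw [← map_mul, ← map_mul, hu, map_mul, norm41, norm_rt5]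
    have hh0 : h ≠ 0 := by
      intro h0
      rw [h0, norm_zero'] at hN
      norm_num at hN
    have hcase : r5 h = 0 ∨ rP h = 0 ∨ rQ h = 0 := by
      by_contra hcon
      push Not at hcon
      obtain ⟨c1, c2, c3⟩ := hcon
      apply hnu
      have hdvd : Algebra.norm ℤ h ∣ 41 ^ 2 * 5 := by
        have : Algebra.norm ℤ h ∣ 41 ^ 2 * (-5) := by
          rw [← hN]
          exact Dvd.intro_left (Algebra.norm ℤ g * Algebra.norm ℤ (u : 𝓞 QF)) (by ring)
        rw [mul_neg, dvd_neg] at this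
        exact this
      have n5 : ¬ (5 : ℤ) ∣ Algebra.norm ℤ h := by
        intro h
        have := (ZMod.intCast_zmod_eq_zero_iff_dvd _ 5).2 h
        rw [norm_mod5] at this
        exact c1 (mul_self_eq_zero.1 this)
      have n41 : ¬ (41 : ℤ) ∣ Algebra.norm ℤ h := by
        intro h
        have := (ZMod.intCast_zmod_eq_zero_iff_dvd _ 41).2 h
        rw [norm_mod41] at this
        rcases mul_eq_zero.1 this with h | h
        · exact c2 h
        · exact c3 h
      have k5 : IsCoprime (Algebra.norm ℤ h) (5 : ℤ) :=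
        ((Int.prime_iff_natAbs_prime.2 (by norm_num)).coprime_iff_not_dvd.2 n5).symm
      have k41 : IsCoprime (Algebra.norm ℤ h) ((41 : ℤ) ^ 2) :=
        (((Int.prime_iff_natAbs_prime.2 (by norm_num)).coprime_iff_not_dvd.2 n41).symm).pow_right
      have hunit : IsUnit (Algebra.norm ℤ h) := (k41.mul_right k5).isUnit_of_dvd' dvd_rfl hdvd
      have h5 : h ∣ 1 := by
        obtain ⟨v, hv⟩ := hunit.exists_right_inv
        refine ⟨cj h * (v : 𝓞 QF), ?_⟩
        rw [← mul_assoc, mul_cj]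
        exact_mod_cast hv.symm
      exact isUnit_of_dvd_one h5
    have hmem : ∀ x t : 𝓞 QF, t * h = 41 * rt5 * x → h ≠ 0 → g ∣ t := by
      intro x t h3 h4
      refine ⟨x * u, ?_⟩
      have h5 : t * h = (g * (x * u)) * h := by
        rw [h3, ← hu]
        ring
      exact mul_right_cancel₀ h4 h5
    have hfin : ∀ (b1 b2 : ℤ), 0 < b1 - b2 → 0 < b1 + 2 * b2 →
        (g ∣ ((b1 : 𝓞 QF) + b2 * om) - 1) → r5 ((b1 : 𝓞 QF) + b2 * om) ≠ 0 →
        rP ((b1 : 𝓞 QF) + b2 * om) ≠ 0 → rQ ((b1 : 𝓞 QF) + b2 * om) ≠ 0 →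
        f0 a ((b1 : 𝓞 QF) + b2 * om) ≠ 1 →
        ∃ x : 𝓞 QF, x - 1 ∈ 𝔤 ∧ TPos QF x ∧ IsCoprime (Ideal.span {x}) cond ∧
          psi ha (Ideal.span {x}) ≠ 1 := by
      intro b1 b2 p1 p2 p4 p5 p6 p7 p8
      refine ⟨(b1 : 𝓞 QF) + b2 * om, ?_, tpos_of p1 p2, isCoprime_cond.2 ⟨p5, p6, p7⟩, ?_⟩
      · rw [← eg, Ideal.mem_span_singleton]
        exact p4
      · rw [psi_span]
        exact p8
    rcases hcase with hc | hc | hc
    · obtain ⟨t, ht⟩ := r5_dvd hc
      have ht0 : t ≠ 0 := by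
        rintro rfl
        exact hh0 (by rw [ht, mul_zero])
      have hg41 : g ∣ 41 := hmem t 41 (by rw [ht]; ring) hh0
      refine hfin 42 0 (by norm_num) (by norm_num) ?_ ?_ ?_ ?_ ?_
      · have : (((42 : ℤ) : 𝓞 QF) + ((0 : ℤ) : 𝓞 QF) * om) - 1 = 41 := by norm_num
        rw [this]
        exact hg41
      · rw [r5_mk]; decide
      · rw [rP_mk]; decide
      · rw [rQ_mk]; decide
      · rw [f0_apply, r5_mk, rP_mk, rQ_mk]
        have e1 : ((42 : ℤ) : ZMod 5) + ((0 : ℤ) : ZMod 5) * 3 = 2 := by decide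
        have e2 : ((42 : ℤ) : ZMod 41) + ((0 : ℤ) : ZMod 41) * 7 = 1 := by decide
        have e3 : ((42 : ℤ) : ZMod 41) + ((0 : ℤ) : ZMod 41) * 35 = 1 := by decide
        rw [e1, e2, e3, c5_two, map_one, map_one]
        norm_num
    · obtain ⟨t, ht⟩ := rP_dvd hc
      have hg' : g ∣ rt5 * (6 + om) :=
        hmem t _ (by rw [ht]; linear_combination (rt5 * t) * mul41) hh0
      have hg41 : g ∣ 205 := by
        refine hmem (h * rt5) 205 ?_ hh0
        linear_combination (-41 * h) * rt5_sq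
      refine hfin 202 13 (by norm_num) (by norm_num) ?_ ?_ ?_ ?_ ?_
      · have : (((202 : ℤ) : 𝓞 QF) + ((13 : ℤ) : 𝓞 QF) * om) - 1 = 205 + rt5 * (6 + om) := by
          rw [rt5]
          push_cast
          linear_combination (-2) * om_sq
        rw [this]
        exact dvd_add hg41 hg'
      · rw [r5_mk]; decide
      · rw [rP_mk]; decide
      · rw [rQ_mk]; decide
      · rw [f0_apply, r5_mk, rP_mk, rQ_mk]
        have e1 : ((202 : ℤ) : ZMod 5) + ((13 : ℤ) : ZMod 5) * 3 = 1 := by decide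
        have e2 : ((202 : ℤ) : ZMod 41) + ((13 : ℤ) : ZMod 41) * 7 = 6 := by decide
        have e3 : ((202 : ℤ) : ZMod 41) + ((13 : ℤ) : ZMod 41) * 35 = 1 := by decide
        rw [e1, e2, e3, map_one, map_one, one_mul, mul_one]
        exact isQ_six ha
    · obtain ⟨t, ht⟩ := rQ_dvd hc
      have hg' : g ∣ rt5 * (7 - om) :=
        hmem t _ (by rw [ht]; linear_combination (rt5 * t) * mul41) hh0
      have hg41 : g ∣ 205 := by
        refine hmem (h * rt5) 205 ?_ hh0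
        linear_combination (-41 * h) * rt5_sq
      refine hfin 215 (-13) (by norm_num) (by norm_num) ?_ ?_ ?_ ?_ ?_
      · have : (((215 : ℤ) : 𝓞 QF) + ((-13 : ℤ) : 𝓞 QF) * om) - 1 = 205 - rt5 * (7 - om) := by
          rw [rt5]
          push_cast
          linear_combination (-2) * om_sq
        rw [this]
        exact dvd_sub hg41 hg'
      · rw [r5_mk]; decide
      · rw [rP_mk]; decide
      · rw [rQ_mk]; decide
      · rw [f0_apply, r5_mk, rP_mk, rQ_mk]
        have e1 : ((215 : ℤ) : ZMod 5) + ((-13 : ℤ) : ZMod 5) * 3 = 1 := by decide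
        have e2 : ((215 : ℤ) : ZMod 41) + ((-13 : ℤ) : ZMod 41) * 7 = 1 := by decide
        have e3 : ((215 : ℤ) : ZMod 41) + ((-13 : ℤ) : ZMod 41) * 35 = 6 := by decide
        rw [e1, e2, e3, map_one, map_one, one_mul, one_mul]
        exact isQ_six ha.inv

end Pool.Agent.R423.GC
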