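import Pool.Agent.R423.GC.Gau2
import Pool.Agent.R423.GC.Prim

/-!
# The Gauss sums of the characters
-/

set_option autoImplicit false

open Finset ZMod

namespace Pool.Agent.R423.GC

lemma sum_units {q : ℕ} [NeZero q] (F : ZMod q → ℂ) (hF : ∀ m, ¬ IsUnit m → F m = 0) :
    ∑ m, F m = ∑ u : (ZMod q)ˣ, F u := by
  symm
  refine Fintype.sum_of_injective (fun u : (ZMod q)ˣ => (u : ZMod q)) Units.val_injective _ _ ?_ ?_
  · intro i hi
    apply hF
    rintro ⟨u, hu⟩
    exact hi ⟨u, hu⟩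
  · intro u
    rfl

section

variable {q : ℕ} [NeZero q] {χ : DirichletCharacter ℂ q}

lemma gs_mul (hχ : χ.IsPrimitive) (hr : χ⁻¹ = χ) (n : ZMod q) :
    χ n * gaussSum χ stdAddChar = ∑ m : ZMod q, χ m * stdAddChar (n * m) := by
  have h := gaussSum_mulShift_of_isPrimitive (stdAddChar (N := q)) hχ n
  rw [hr] at h
  rw [← h]
  unfold gaussSum
  refine Finset.sum_congr rfl fun m _ => ?_
  rw [AddChar.mulShift_apply]

lemma gs_ne (hχ : χ.IsPrimitive) (hr : χ⁻¹ = χ) : gaussSum χ stdAddChar ≠ 0 := by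
  intro h0
  have h1 : ∑ n : ZMod q, (χ n * gaussSum χ stdAddChar) * stdAddChar (-n) = q := by
    simp_rw [gs_mul hχ hr, Finset.sum_mul]
    rw [Finset.sum_comm]
    have h2 : ∀ m : ZMod q, ∑ n : ZMod q, χ m * stdAddChar (n * m) * stdAddChar (-n) =
        χ m * (if m - 1 = 0 then (Fintype.card (ZMod q) : ℂ) else 0) := by
      intro m
      have h3 := AddChar.sum_mulShift (m - 1) (isPrimitive_stdAddChar q)
      have h4 : ((if m - 1 = 0 then Fintype.card (ZMod q) else 0 : ℕ) : ℂ) =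
          (if m - 1 = 0 then (Fintype.card (ZMod q) : ℂ) else 0) := by
        split_ifs <;> simp
      rw [← h4, ← h3, Finset.mul_sum]
      refine Finset.sum_congr rfl fun n _ => ?_
      rw [mul_assoc, ← AddChar.map_add_eq_mul]
      congr 2
      ring
    simp_rw [h2]
    rw [Finset.sum_eq_single 1]
    · simp
    · intro m _ hm
      rw [if_neg (sub_ne_zero.2 hm), mul_zero]
    · intro h
      exact absurd (mem_univ _) h
  rw [h0] at h1
  simp only [mul_zero, zero_mul, Finset.sum_const_zero] at h1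
  have : (q : ℂ) ≠ 0 := by exact_mod_cast NeZero.ne q
  exact this h1.symm

/-- the Gauss sum of `χ ∘ N` -/
noncomputable def TZ (q : ℕ) [NeZero q] (χ : DirichletCharacter ℂ q) (t : ℤ) : ℂ :=
  ∑ x : ZMod q, ∑ y : ZMod q, χ (Nf x y) * ex q t (2 * x + y)

theorem TZ_eval (hχ : χ.IsPrimitive) (hr : χ⁻¹ = χ) (h5 : q.Coprime 5) {t : ℤ}
    (ht : IsCoprime t (q : ℤ)) : TZ q χ t = c5 (q : ZMod 5) * χ (-1) * q := by
  have hτ := gs_ne hχ hr
  have htu : IsUnit ((t : ℤ) : ZMod q) := by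
    obtain ⟨u, v, h⟩ := ht
    refine IsUnit.of_mul_eq_one (u : ZMod q) ?_
    have h1 := congrArg (fun n : ℤ => (n : ZMod q)) h
    push_cast at h1
    rw [ZMod.natCast_self, mul_zero, add_zero] at h1
    rw [mul_comm]
    exact h1
  have hsq : ∀ u : ZMod q, IsUnit u → χ u * χ u = 1 := by
    intro u hu
    have h1 : χ u * χ⁻¹ u = 1 := by
      rw [← MulChar.mul_apply, mul_inv_cancel, MulChar.one_apply hu]
    rwa [hr] at h1
  -- the inner sum
  have hinner : ∀ m : (ZMod q)ˣ, ∑ x : ZMod q, ∑ y : ZMod q,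
      stdAddChar ((m : ZMod q) * Nf x y) * ex q t (2 * x + y) =
      stdAddChar (-((t : ZMod q) * (t : ZMod q) * ((m⁻¹ : (ZMod q)ˣ) : ZMod q))) * (c5 (q : ZMod 5) * q) := by
    intro m
    obtain ⟨z, hz⟩ := ZMod.intCast_surjective (m : ZMod q)
    have hzc : IsCoprime z (q : ℤ) := by
      have h1 : IsUnit (z : ZMod q) := by rw [hz]; exact m.isUnit
      have := (ZMod.coe_int_isUnit_iff_isCoprime z q).1 h1
      exact this.symm
    rw [← HZ_eval q z h5 hzc]
    unfold HZ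
    set k : ZMod q := (t : ZMod q) * ((m⁻¹ : (ZMod q)ˣ) : ZMod q) with hk
    rw [← Equiv.sum_comp (Equiv.addRight k) (fun x => ∑ y : ZMod q, ex q z (Nf x y)),
      Finset.mul_sum]
    refine Finset.sum_congr rfl fun x _ => ?_
    rw [Finset.mul_sum]
    refine Finset.sum_congr rfl fun y _ => ?_
    rw [ex, ex, hz, Equiv.coe_addRight, ← AddChar.map_add_eq_mul, ← AddChar.map_add_eq_mul]
    congr 1
    have hm : (m : ZMod q) * ((m⁻¹ : (ZMod q)ˣ) : ZMod q) = 1 := m.mul_inv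
    unfold Nf
    rw [hk]
    linear_combination (-(t : ZMod q) * (2 * x + y) - (t : ZMod q) * (t : ZMod q) * ((m⁻¹ : (ZMod q)ˣ) : ZMod q)) * hm
  have hmain : gaussSum χ stdAddChar * TZ q χ t =
      (c5 (q : ZMod 5) * q) * ∑ m : (ZMod q)ˣ, χ m *
        stdAddChar (-((t : ZMod q) * (t : ZMod q) * ((m⁻¹ : (ZMod q)ˣ) : ZMod q))) := by
    have e1 : gaussSum χ stdAddChar * TZ q χ t = ∑ m : ZMod q, χ m * ∑ x : ZMod q, ∑ y : ZMod q,
        stdAddChar (m * Nf x y) * ex q t (2 * x + y) := by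
      unfold TZ
      rw [Finset.mul_sum]
      simp_rw [Finset.mul_sum]
      rw [Finset.sum_comm (s := (univ : Finset (ZMod q))) (t := univ)
        (f := fun m x => ∑ y : ZMod q, χ m * (stdAddChar (m * Nf x y) * ex q t (2 * x + y)))]
      refine Finset.sum_congr rfl fun x _ => ?_
      rw [Finset.sum_comm]
      refine Finset.sum_congr rfl fun y _ => ?_
      rw [← mul_assoc, mul_comm (gaussSum χ stdAddChar), gs_mul hχ hr, Finset.sum_mul]
      refine Finset.sum_congr rfl fun m _ => ?_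
      rw [mul_comm (Nf x y) m]
      ring
    rw [e1, sum_units _ (fun m hm => by rw [χ.map_nonunit hm, zero_mul]), Finset.mul_sum]
    refine Finset.sum_congr rfl fun m _ => ?_
    rw [hinner m]
    ring
  have hlast : ∑ m : (ZMod q)ˣ, χ m * stdAddChar (-((t : ZMod q) * (t : ZMod q) * ((m⁻¹ : (ZMod q)ˣ) : ZMod q))) =
      χ (-1) * gaussSum χ stdAddChar := by
    unfold gaussSum
    rw [sum_units (fun m => χ m * stdAddChar m) (fun m hm => by rw [χ.map_nonunit hm, zero_mul])]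
    -- `u = - t² m⁻¹`
    let φ : (ZMod q)ˣ ≃ (ZMod q)ˣ :=
      (Equiv.inv (ZMod q)ˣ).trans (Equiv.mulLeft (-(htu.unit * htu.unit)))
    rw [← Equiv.sum_comp φ (fun m : (ZMod q)ˣ => χ (m : ZMod q) * stdAddChar (m : ZMod q)),
      Finset.mul_sum]
    refine Finset.sum_congr rfl fun m _ => ?_
    have hφ : ((φ m : (ZMod q)ˣ) : ZMod q) = -((t : ZMod q) * (t : ZMod q) * ((m⁻¹ : (ZMod q)ˣ) : ZMod q)) := by
      show (((-(htu.unit * htu.unit)) * m⁻¹ : (ZMod q)ˣ) : ZMod q) = _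
      push_cast
      rw [htu.unit_spec]
      ring
    rw [hφ]
    have h7 : χ (-((t : ZMod q) * (t : ZMod q) * ((m⁻¹ : (ZMod q)ˣ) : ZMod q))) = χ (-1) * χ m := by
      have h8 : -((t : ZMod q) * (t : ZMod q) * ((m⁻¹ : (ZMod q)ˣ) : ZMod q)) =
          (-1) * ((t : ZMod q) * (t : ZMod q)) * ((m⁻¹ : (ZMod q)ˣ) : ZMod q) := by ring
      rw [h8, map_mul, map_mul, map_mul, hsq _ htu, mul_one]
      congr 1
      have h9 := hsq _ m.isUnit
      have h10 : χ (m : ZMod q) * χ ((m⁻¹ : (ZMod q)ˣ) : ZMod q) = 1 := by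
        rw [← map_mul, m.mul_inv, map_one]
      calc χ ((m⁻¹ : (ZMod q)ˣ) : ZMod q) = (χ m * χ m) * χ ((m⁻¹ : (ZMod q)ˣ) : ZMod q) := by
            rw [h9, one_mul]
        _ = χ m * (χ m * χ ((m⁻¹ : (ZMod q)ˣ) : ZMod q)) := by ring
        _ = χ m := by rw [h10, mul_one]
    have h11 : χ (-1) * χ (-1) = 1 := by
      rw [← map_mul]
      norm_num
    rw [h7]
    linear_combination (-χ (m : ZMod q) * stdAddChar
      (-((t : ZMod q) * (t : ZMod q) * ((m⁻¹ : (ZMod q)ˣ) : ZMod q)))) * h11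
  rw [hlast] at hmain
  have h12 : gaussSum χ stdAddChar * TZ q χ t =
      gaussSum χ stdAddChar * (c5 (q : ZMod 5) * χ (-1) * q) := by
    rw [hmain]
    ring
  exact mul_left_cancel₀ hτ h12

end

/-! ## the modulus 5 -/

/-- `√5` as a Gauss sum -/
noncomputable def g5 : ℝ := 2 * Real.cos (2 * Real.pi / 5) - 2 * Real.cos (4 * Real.pi / 5)

lemma g5_pos : 0 < g5 := by
  unfold g5
  have hpi := Real.pi_pos
  have : Real.cos (4 * Real.pi / 5) < Real.cos (2 * Real.pi / 5) :=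
    Real.cos_lt_cos_of_nonneg_of_le_pi (by positivity) (by linarith) (by linarith)
  linarith

lemma std5 (n : ℤ) : stdAddChar ((n : ℤ) : ZMod 5) =
    Complex.exp (((2 * Real.pi * n / 5 : ℝ) : ℂ) * Complex.I) := by
  rw [stdAddChar_coe]
  congr 1
  push_cast
  ring

lemma gauss5 : gaussSum c5 (stdAddChar (N := 5)) = (g5 : ℂ) := by
  have h : gaussSum c5 (stdAddChar (N := 5)) =
      c5 0 * stdAddChar (((0 : ℤ)) : ZMod 5) + c5 1 * stdAddChar (((1 : ℤ)) : ZMod 5) +
      c5 2 * stdAddChar (((2 : ℤ)) : ZMod 5) + c5 3 * stdAddChar (((-2 : ℤ)) : ZMod 5) +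
      c5 4 * stdAddChar (((-1 : ℤ)) : ZMod 5) := by
    unfold gaussSum
    refine (Fin.sum_univ_five _).trans ?_
    rfl
  have e1 : c5 4 = 1 := by
    have : (4 : ZMod 5) = -1 := by decide
    rw [this, c5_neg]
  rw [h, std5, std5, std5, std5, std5, c5_two, c5_three, e1, MulChar.map_zero, map_one]
  unfold g5
  simp only [Complex.exp_ofReal_mul_I]
  push_cast
  have k1 : (2 * (Real.pi : ℂ) * -2 / 5) = -(4 * Real.pi / 5) := by ring
  have k2 : (2 * (Real.pi : ℂ) * -1 / 5) = -(2 * Real.pi / 5) := by ring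
  have k3 : (2 * (Real.pi : ℂ) * 2 / 5) = (4 * Real.pi / 5) := by ring
  have k4 : (2 * (Real.pi : ℂ) * 1 / 5) = (2 * Real.pi / 5) := by ring
  rw [k1, k2, k3, k4, Complex.cos_neg, Complex.cos_neg, Complex.sin_neg, Complex.sin_neg]
  ring

lemma T5_eval {t : ℤ} (ht : ¬ (5 : ℤ) ∣ t) : ∑ x : ZMod 5, ∑ y : ZMod 5,
    c5 (x + y * 3) * ex 5 t (2 * x + y) = -(5 * c5 (t : ZMod 5) * g5) := by
  rw [Finset.sum_comm]
  have h1 : ∀ y : ZMod 5, ∑ x : ZMod 5, c5 (x + y * 3) * ex 5 t (2 * x + y) =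
      ∑ x : ZMod 5, c5 x * ex 5 t (2 * x) := by
    intro y
    rw [← Equiv.sum_comp (Equiv.addRight (y * 3)) (fun x => c5 x * ex 5 t (2 * x))]
    refine Finset.sum_congr rfl fun x _ => ?_
    rw [Equiv.coe_addRight]
    congr 2
    have : (5 : ZMod 5) = 0 := by decide
    linear_combination (-y) * this
  simp_rw [h1]
  rw [Finset.sum_const, Finset.card_univ, ZMod.card, nsmul_eq_mul]
  have ht0 : (t : ZMod 5) ≠ 0 := by
    intro h
    exact ht ((ZMod.intCast_zmod_eq_zero_iff_dvd _ _).1 h)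
  have hu : IsUnit ((t : ZMod 5) * 2) := isUnit_iff_ne_zero.2 (mul_ne_zero ht0 (by decide))
  have h2 : ∑ x : ZMod 5, c5 x * ex 5 t (2 * x) =
      gaussSum c5 ((stdAddChar (N := 5)).mulShift ((t : ZMod 5) * 2)) := by
    unfold gaussSum
    refine Finset.sum_congr rfl fun x _ => ?_
    rw [ex, AddChar.mulShift_apply, mul_assoc]
  have h3 := gaussSum_mulShift c5 (stdAddChar (N := 5)) hu.unit
  rw [hu.unit_spec] at h3
  have h4 : c5 ((t : ZMod 5) * 2) = -c5 (t : ZMod 5) := by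
    rw [map_mul, c5_two]
    ring
  have h5 : c5 (t : ZMod 5) * c5 (t : ZMod 5) = 1 := by
    rw [c5_apply, ← Int.cast_mul, ← pow_two, quadraticChar_sq_one ht0, Int.cast_one]
  rw [h4, gauss5] at h3
  rw [h2]
  have h6 : gaussSum c5 ((stdAddChar (N := 5)).mulShift ((t : ZMod 5) * 2)) =
      -(c5 (t : ZMod 5) * g5) := by
    calc gaussSum c5 ((stdAddChar (N := 5)).mulShift ((t : ZMod 5) * 2)) =
        (c5 (t : ZMod 5) * c5 (t : ZMod 5)) *
          gaussSum c5 ((stdAddChar (N := 5)).mulShift ((t : ZMod 5) * 2)) := by rw [h5, one_mul]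
      _ = _ := by rw [← h3]; ring
  rw [h6]
  push_cast
  ring

/-! ## the modulus 41 -/

lemma T41_eval {a : MulChar (ZMod 41) ℂ} (ha : IsQ a) {t : ℤ} (ht : ¬ (41 : ℤ) ∣ t) :
    ∑ x : ZMod 41, ∑ y : ZMod 41, (a (x + y * 7) * a⁻¹ (x + y * 35)) * ex 41 t (2 * x + y) = 41 := by
  have ht0 : (t : ZMod 41) ≠ 0 := by
    intro h
    exact ht ((ZMod.intCast_zmod_eq_zero_iff_dvd _ _).1 h)
  have hu : IsUnit ((t : ZMod 41)) := isUnit_iff_ne_zero.2 ht0
  set ψ : AddChar (ZMod 41) ℂ := (stdAddChar (N := 41)).mulShift (t : ZMod 41) with hψ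
  have hψp : ψ.IsPrimitive := AddChar.IsPrimitive.of_ne_one (by
    intro h
    have h1 := (isPrimitive_stdAddChar 41) ht0
    exact h1 h)
  have e0 : ∀ x : ZMod 41, ex 41 t x = ψ x := fun x => by rw [hψ, AddChar.mulShift_apply]; rfl
  have h1 : ∑ x : ZMod 41, ∑ y : ZMod 41, (a (x + y * 7) * a⁻¹ (x + y * 35)) * ex 41 t (2 * x + y) =
      ∑ u : ZMod 41, ∑ v : ZMod 41, (a u * ψ u) * (a⁻¹ v * ψ v) := by
    rw [Finset.sum_comm]
    have h2 : ∀ y : ZMod 41, ∑ x : ZMod 41, (a (x + y * 7) * a⁻¹ (x + y * 35)) *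
        ex 41 t (2 * x + y) = ∑ x : ZMod 41, (a x * ψ x) * (a⁻¹ (x + 28 * y) * ψ (x + 28 * y)) := by
      intro y
      rw [← Equiv.sum_comp (Equiv.addRight (y * 7))
        (fun x => (a x * ψ x) * (a⁻¹ (x + 28 * y) * ψ (x + 28 * y)))]
      refine Finset.sum_congr rfl fun x _ => ?_
      rw [Equiv.coe_addRight, e0]
      have e1 : (2 * x + y : ZMod 41) = (x + y * 7) + (x + y * 7 + 28 * y) := by
        have : (41 : ZMod 41) = 0 := by decide
        linear_combination (-y) * this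
      have e2 : (x + y * 7 + 28 * y : ZMod 41) = x + y * 35 := by ring
      rw [e1, AddChar.map_add_eq_mul, e2]
      ring
    simp_rw [h2]
    rw [Finset.sum_comm]
    refine Finset.sum_congr rfl fun x _ => ?_
    have hbij : Function.Bijective fun y : ZMod 41 => x + 28 * y := by
      refine (Finite.injective_iff_bijective).1 fun y y' h => ?_
      have h7 : 28 * y = 28 * y' := add_left_cancel h
      exact mul_left_cancel₀ (by decide) h7
    exact hbij.sum_comp (fun v => (a x * ψ x) * (a⁻¹ v * ψ v))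
  rw [h1]
  simp_rw [← Finset.mul_sum]
  rw [← Finset.sum_mul]
  have hane : a ≠ 1 := by
    rintro rfl
    have h6 := isQ_six ha
    apply h6
    have : IsUnit (6 : ZMod 41) := by decide
    rw [MulChar.one_apply this]
  have h3 := gaussSum_mul_gaussSum_eq_card hane hψp
  have h4 : gaussSum a⁻¹ ψ⁻¹ = ∑ v : ZMod 41, a⁻¹ v * ψ v := by
    unfold gaussSum
    rw [← Equiv.sum_comp (Equiv.neg (ZMod 41))]
    refine Finset.sum_congr rfl fun v _ => ?_
    rw [Equiv.neg_apply, AddChar.inv_apply, neg_neg]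
    have : a⁻¹ (-v) = a⁻¹ v := by
      rw [← neg_one_mul, map_mul, isQ_neg ha.inv, one_mul]
    rw [this]
  rw [h4, ZMod.card] at h3
  exact h3

end Pool.Agent.R423.GC
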