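import Pool.Agent.R423.GC.Conj
import Pool.Agent.Y772.HG.Tw
import Pool.Agent.Y772.HG.Per
import Pool.Agent.Y773.HG.Per

/-!
# Signs and the norm
-/

set_option autoImplicit false

open NumberField Complex
open scoped QuadraticAlgebra
open Pool.Agent.Y773 (TPos tw qt)
open Pool.Agent.Y773.G (rl sg Ps IsModChar)

namespace Pool.Agent.R423.GC

/-- all the embeddings are real -/
lemma emb_real (φ : QF →+* ℂ) (x : QF) : (starRingEnd ℂ) (φ x) = φ x := by
  have h1 : φ (om : QF) * φ (om : QF) = 1 + φ (om : QF) := by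
    rw [← map_mul, ← coe_mul', om_sq, coe_add', map_add, coe_one', map_one]
  have h2 : (starRingEnd ℂ) (φ (om : QF)) = φ (om : QF) := by
    set z := φ (om : QF) with hz
    have hre := congrArg Complex.re h1
    have him := congrArg Complex.im h1
    simp only [Complex.mul_re, Complex.mul_im, Complex.add_re, Complex.add_im, Complex.one_re,
      Complex.one_im] at hre him
    apply Complex.conj_eq_iff_im.2
    by_contra h0
    have h3 : z.re = 1 / 2 := by
      have : z.im * (2 * z.re - 1) = 0 := by linear_combination him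
      rcases mul_eq_zero.1 this with h | h
      · exact absurd h h0
      · linarith
    rw [h3] at hre
    nlinarith [mul_self_nonneg z.im]
  have h3 : x = algebraMap ℚ QF x.re + algebraMap ℚ QF x.im * (om : QF) := by
    rw [coe_om]
    ext <;> simp
  rw [h3, map_add, map_mul, map_add, map_mul, h2]
  have h4 : ∀ r : ℚ, (starRingEnd ℂ) (φ (algebraMap ℚ QF r)) = φ (algebraMap ℚ QF r) := by
    intro r
    have h5 : φ (algebraMap ℚ QF r) = (r : ℂ) := by
      rw [eq_ratCast, map_ratCast]
    rw [h5]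
    exact map_ratCast (starRingEnd ℂ) r
  rw [h4, h4]

lemma isReal_emb (φ : QF →+* ℂ) : ComplexEmbedding.IsReal φ := by
  rw [ComplexEmbedding.isReal_iff]
  ext x
  exact emb_real φ x

lemma w_isReal (w : InfinitePlace QF) : w.IsReal :=
  InfinitePlace.isReal_iff.2 (isReal_emb _)

lemma mk_bij : Function.Bijective (InfinitePlace.mk : (QF →+* ℂ) → InfinitePlace QF) := by
  refine ⟨fun φ ψ h => ?_, fun w => ⟨w.embedding, InfinitePlace.mk_embedding w⟩⟩
  rcases InfinitePlace.mk_eq_iff.1 h with h | h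
  · exact h
  · rw [ComplexEmbedding.isReal_iff.1 (isReal_emb φ)] at h
    exact h

lemma emb_eq (φ : QF →+* ℂ) (x : QF) : φ x = ((rl (InfinitePlace.mk φ) x : ℝ) : ℂ) := by
  have h1 := InfinitePlace.embedding_mk_eq_of_isReal (isReal_emb φ)
  have h2 := Pool.Agent.Y772.G.rl_real (w_isReal (InfinitePlace.mk φ)) x
  have h3 := Complex.conj_eq_iff_re.1 (emb_real φ x)
  rw [h2]
  rw [InfinitePlace.embedding_of_isReal_apply, h1]

/-- the norm is the product of the real conjugates -/
lemma norm_prod_rl (x : 𝓞 QF) : ∏ w : InfinitePlace QF, rl w (x : QF) = (Algebra.norm ℤ x : ℝ) := by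
  have h1 : ((∏ w : InfinitePlace QF, rl w (x : QF) : ℝ) : ℂ) = ((Algebra.norm ℤ x : ℝ) : ℂ) := by
    have h2 := Algebra.norm_eq_prod_embeddings ℚ ℂ (x : QF)
    push_cast
    have h3 : (algebraMap ℚ ℂ) (Algebra.norm ℚ (x : QF)) = ((Algebra.norm ℤ x : ℤ) : ℂ) := by
      rw [← Algebra.coe_norm_int]
      simp
    rw [← h3, h2, ← mk_bij.prod_comp (fun w => ((rl w (x : QF) : ℝ) : ℂ))]
    rw [← Equiv.prod_comp (RingHom.equivRatAlgHom (R := QF) (S := ℂ))]
    refine Finset.prod_congr rfl fun φ _ => ?_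
    rw [← emb_eq]
    rfl
  exact_mod_cast h1

lemma sg_const (e0 : ℕ) (x : 𝓞 QF) : sg (fun _ => e0) (x : QF) =
    (((SignType.sign (Algebra.norm ℤ x) : SignType) : ℤ) : ℂ) ^ e0 := by
  unfold sg
  rw [Finset.prod_pow]
  congr 1
  have h1 : SignType.sign (Algebra.norm ℤ x) = SignType.sign (Algebra.norm ℤ x : ℝ) := by
    rcases lt_trichotomy (Algebra.norm ℤ x) 0 with h | h | h
    · rw [sign_neg h, sign_neg (by exact_mod_cast h)]
    · rw [h]; simp
    · rw [sign_pos h, sign_pos (by exact_mod_cast h)]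
  rw [h1, ← norm_prod_rl]
  have h2 : SignType.sign (∏ w : InfinitePlace QF, rl w (x : QF)) =
      ∏ w : InfinitePlace QF, SignType.sign (rl w (x : QF)) :=
    map_prod (signHom (α := ℝ)) _ _
  rw [h2]
  have h3 : ∀ s : Finset (InfinitePlace QF),
      ((((∏ w ∈ s, SignType.sign (rl w (x : QF)) : SignType)) : ℤ) : ℂ) =
      ∏ w ∈ s, (((SignType.sign (rl w (x : QF)) : SignType) : ℤ) : ℂ) := by
    intro s
    classical
    induction s using Finset.induction_on with
    | empty => simp
    | insert w s hw ih =>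
      rw [Finset.prod_insert hw, Finset.prod_insert hw, ← ih]
      push_cast
      rfl
  rw [h3]

end Pool.Agent.R423.GC
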