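import Pool.Agent.R423.GC.Fe

/-! # Vanishing at the centre of the L-function of a self-dual ray class character of root number -1 -/

set_option autoImplicit false
set_option linter.unusedSectionVars false

open NumberField Complex Filter Topology Set MeasureTheory

namespace Pool.Agent.Y773.G.R423

section

variable {ι : Type} [Fintype ι]

lemma contAt_Gammaℝ {s : ℂ} (hs : 0 < s.re) : ContinuousAt Gammaℝ s := by
  have h1 := differentiable_Gammaℝ_inv.continuous.continuousAt (x := s)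
  have h2 := h1.inv₀ (inv_ne_zero (Gammaℝ_ne_zero_of_re_pos hs))
  have h3 : (fun s => (Gammaℝ s)⁻¹)⁻¹ = Gammaℝ := by
    funext s
    simp
  rwa [h3] at h2

lemma contAt_GG {R : ℝ} (hR : 0 < R) (e : ι → ℕ) : ContinuousAt (GG R e) (1 / 2) := by
  unfold GG
  refine ContinuousAt.mul ?_ ?_
  · refine ContinuousAt.const_cpow (by fun_prop) (Or.inl ?_)
    exact_mod_cast hR.ne'
  · refine tendsto_finsetProd _ fun i _ => ?_
    have h2 : ContinuousAt Gammaℝ ((1 / 2 : ℂ) + e i) := by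
      apply contAt_Gammaℝ
      simp
      positivity
    exact ContinuousAt.comp (f := fun s : ℂ => s + e i) (g := Gammaℝ) h2 (by fun_prop)

lemma Gammaℝ_half {n : ℕ} : ∃ r : ℝ, 0 < r ∧ Gammaℝ ((1 / 2 : ℂ) + n) = r := by
  refine ⟨Real.pi ^ (-((1 / 2 : ℝ) + n) / 2) * Real.Gamma (((1 / 2 : ℝ) + n) / 2), ?_, ?_⟩
  · have := Real.Gamma_pos_of_pos (s := ((1 / 2 : ℝ) + n) / 2) (by positivity)
    positivity
  · rw [Gammaℝ_def]
    push_cast
    rw [Complex.ofReal_cpow Real.pi_pos.le]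
    push_cast
    congr 1
    rw [← Complex.Gamma_ofReal]
    push_cast
    rfl

lemma GG_half {R : ℝ} (hR : 0 < R) (e : ι → ℕ) : ∃ r : ℝ, 0 < r ∧ GG R e (1 / 2) = r := by
  choose g hg1 hg2 using fun n : ℕ => Gammaℝ_half (n := n)
  refine ⟨R ^ ((1 : ℝ) / 2 / 2) * ∏ i, g (e i), by
    have : 0 < ∏ i, g (e i) := Finset.prod_pos fun i _ => hg1 _
    positivity, ?_⟩
  unfold GG
  push_cast
  rw [Complex.ofReal_cpow hR.le]
  push_cast
  congr 1
  exact Finset.prod_congr rfl fun i _ => hg2 _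

variable {K : Type} [Field K] [NumberField K]

theorem vanish {𝔣 : Ideal (𝓞 K)} {ψ : Ideal (𝓞 K) →*₀ ℂ} {e : InfinitePlace K → ℕ}
    (hp : IsPrimChar K 𝔣 ψ) (h : IsModChar 𝔣 e ψ)
    (hreal : ∀ s : ℂ, 1 < s.re → LI ψ ((starRingEnd ℂ) s) = (starRingEnd ℂ) (LI ψ s))
    (hτ : ∀ τ : ℂ, (∀ (𝔟 𝔟' : Ideal (𝓞 K)) (m D : ℕ), 0 < m → 0 < D →
        𝔟' * (𝔟 * 𝔣 * differentIdeal ℤ (𝓞 K)) = Ideal.span {((m * D : ℕ) : 𝓞 K)} →
        (m : 𝓞 K) ∈ 𝔟 * 𝔣 → (D : 𝓞 K) ∈ differentIdeal ℤ (𝓞 K) → ∀ x : 𝓞 K,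
          FT D m (Ps ψ e 𝔟) x = τ * ((m : ℂ) ^ (Module.finrank ℚ K) /
            ((Ideal.absNorm 𝔟 : ℂ) * (Ideal.absNorm 𝔣 : ℂ))) * (starRingEnd ℂ) (Ps ψ e 𝔟' x)) →
      ∃ r : ℝ, 0 < r ∧ (-I) ^ (∑ φ : K →+* ℂ, eM e φ) * τ = ((-r : ℝ) : ℂ)) :
    ∃ F : ℂ → ℂ, Differentiable ℂ F ∧ (∀ s : ℂ, 1 < s.re → F s = LI ψ s) ∧ F (1 / 2) = 0 := by
  obtain ⟨F, τ, c, hc, hF, hFL, hg, hfe⟩ := fe_root hp h
  obtain ⟨r, hr, hτr⟩ := hτ τ hg
  refine ⟨F, hF, hFL, ?_⟩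
  set R : ℝ := ((Ideal.absNorm 𝔣 * Ideal.absNorm (differentIdeal ℤ (𝓞 K)) : ℕ) : ℝ) with hR
  have hR0 : 0 < R := by
    rw [hR]
    have h4 : Ideal.absNorm 𝔣 * Ideal.absNorm (differentIdeal ℤ (𝓞 K)) ≠ 0 :=
      mul_ne_zero (fun h1 => h.ne_bot (Ideal.absNorm_eq_zero_iff.mp h1))
        (fun h1 => differentIdeal_ne_bot (Ideal.absNorm_eq_zero_iff.mp h1))
    exact_mod_cast Nat.pos_of_ne_zero h4
  -- reality
  have hconj : Differentiable ℂ fun s => (starRingEnd ℂ) (F ((starRingEnd ℂ) s)) := by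
    intro s
    have h1 := (hF ((starRingEnd ℂ) s)).star_star
    have h2 : (star ∘ F ∘ star) = fun s => (starRingEnd ℂ) (F ((starRingEnd ℂ) s)) := rfl
    rw [← h2]
    have h3 : star ((starRingEnd ℂ) s) = s := Complex.conj_conj s
    rw [h3] at h1
    exact h1
  have hFreal : (fun s => (starRingEnd ℂ) (F ((starRingEnd ℂ) s))) = F := by
    refine entire_eq hconj hF fun s hs => ?_
    rw [hFL _ hs, hFL _ (by simpa using hs), hreal s hs, Complex.conj_conj]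
  have hhalf : (starRingEnd ℂ) (F (1 / 2)) = F (1 / 2) := by
    have h1 := congrFun hFreal (1 / 2)
    have h2 : (starRingEnd ℂ) (1 / 2 : ℂ) = 1 / 2 := by
      rw [map_div₀, map_one, map_ofNat]
    rw [h2] at h1
    exact h1
  obtain ⟨g, hg0, hgg⟩ := GG_half hR0 (ex e)
  -- the limit
  have hcont : ContinuousAt (fun s => GG R (ex e) s * F s) (1 / 2) :=
    (contAt_GG hR0 _).mul hF.continuous.continuousAt
  have hseq : Tendsto (fun n : ℕ => (1 / 2 : ℂ) + ((1 / ((n : ℝ) + 1) : ℝ) : ℂ) * I) atTop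
      (𝓝 (1 / 2)) := by
    have h1 : Tendsto (fun n : ℕ => ((1 / ((n : ℝ) + 1) : ℝ) : ℂ)) atTop (𝓝 ((0 : ℝ) : ℂ)) :=
      (Complex.continuous_ofReal.tendsto 0).comp tendsto_one_div_add_atTop_nhds_zero_nat
    have h2 := (h1.mul_const I).const_add (1 / 2 : ℂ)
    simpa using h2
  have hlim := hcont.tendsto.comp hseq
  have hlim2 : Tendsto (fun n : ℕ => ((-(c * r) : ℝ) : ℂ) * (starRingEnd ℂ)
      (((fun s => GG R (ex e) s * F s) ∘
        fun n : ℕ => (1 / 2 : ℂ) + ((1 / ((n : ℝ) + 1) : ℝ) : ℂ) * I) n)) atTop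
      (𝓝 (((-(c * r) : ℝ) : ℂ) * (starRingEnd ℂ) (GG R (ex e) (1 / 2) * F (1 / 2)))) :=
    ((Complex.continuous_conj.tendsto _).comp hlim).const_mul _
  have heq : ∀ n : ℕ, ((fun s => GG R (ex e) s * F s) ∘
        fun n : ℕ => (1 / 2 : ℂ) + ((1 / ((n : ℝ) + 1) : ℝ) : ℂ) * I) n =
      ((-(c * r) : ℝ) : ℂ) * (starRingEnd ℂ)
      (((fun s => GG R (ex e) s * F s) ∘
        fun n : ℕ => (1 / 2 : ℂ) + ((1 / ((n : ℝ) + 1) : ℝ) : ℂ) * I) n) := by
    intro n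
    set t : ℝ := 1 / ((n : ℝ) + 1) with ht
    have ht0 : 0 < t := by positivity
    simp only [Function.comp_apply]
    rw [← ht]
    have him : ((1 / 2 : ℂ) + (t : ℂ) * I).im ≠ 0 := by
      simp
      exact ht0.ne'
    have h1 := hfe _ him
    have h2 : 1 - (starRingEnd ℂ) ((1 / 2 : ℂ) + (t : ℂ) * I) = (1 / 2 : ℂ) + (t : ℂ) * I := by
      rw [map_add, map_mul, Complex.conj_ofReal, Complex.conj_I, map_div₀, map_one, map_ofNat]
      ring
    rw [h2] at h1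
    have h3 : ((c : ℂ) * (-I) ^ (∑ φ : K →+* ℂ, eM e φ) * τ) = ((-(c * r) : ℝ) : ℂ) := by
      rw [mul_assoc, hτr]
      push_cast
      ring
    rw [h3] at h1
    exact h1
  have huniq := tendsto_nhds_unique (hlim.congr heq) hlim2
  -- conclusion
  rw [hgg, map_mul, Complex.conj_ofReal, hhalf] at huniq
  have h5 : ((1 + c * r : ℝ) : ℂ) * ((g : ℂ) * F (1 / 2)) = 0 := by
    push_cast at huniq ⊢
    linear_combination huniq
  rcases mul_eq_zero.1 h5 with h6 | h6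
  · have : (1 + c * r : ℝ) = 0 := by exact_mod_cast h6
    have : 0 < c * r := mul_pos hc hr
    linarith
  · rcases mul_eq_zero.1 h6 with h7 | h7
    · have : g = 0 := by exact_mod_cast h7
      linarith
    · exact h7

end

end Pool.Agent.Y773.G.R423
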