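import Pool.Agent.R423.GC.Comb
import Pool.Agent.R423.GC.Sg
import Pool.Agent.R423.GC.Van

/-!
# The root number of the quadratic twists of the quartic character is `-1`
-/

set_option autoImplicit false

open NumberField Complex
open scoped QuadraticAlgebra
open Pool.Agent.Y773 (TPos tw qt LI FT)
open Pool.Agent.Y773.G (rl sg Ps IsModChar IsPrimChar)
open Pool.Agent.Y773.G (eM)

namespace Pool.Agent.R423.GC

/-! ## the quotient modulo `m` -/

lemma mem_span_nat {m : ℕ} {r : 𝓞 QF} : r ∈ Ideal.span {(m : 𝓞 QF)} ↔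
    ((cre r : ℤ) : ZMod m) = 0 ∧ ((cim r : ℤ) : ZMod m) = 0 := by
  rw [Ideal.mem_span_singleton, ZMod.intCast_zmod_eq_zero_iff_dvd, ZMod.intCast_zmod_eq_zero_iff_dvd]
  constructor
  · rintro ⟨t, rfl⟩
    have e : ((m : 𝓞 QF)) * t = (((m : ℤ) * cre t : ℤ) : 𝓞 QF) + (((m : ℤ) * cim t : ℤ) : 𝓞 QF) * om := by
      conv_lhs => rw [eq_mk t]
      push_cast
      ring
    rw [e, cre_mk, cim_mk]
    exact ⟨dvd_mul_right _ _, dvd_mul_right _ _⟩
  · rintro ⟨⟨u, hu⟩, ⟨v, hv⟩⟩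
    refine ⟨(u : 𝓞 QF) + v * om, ?_⟩
    rw [eq_mk r, hu, hv]
    push_cast
    ring

lemma cre_sub (x y : 𝓞 QF) : cre (x - y) = cre x - cre y := by
  have h := (coord_add (x - y) y).1
  rw [sub_add_cancel] at h
  linarith

lemma cim_sub (x y : 𝓞 QF) : cim (x - y) = cim x - cim y := by
  have h := (coord_add (x - y) y).2
  rw [sub_add_cancel] at h
  linarith

lemma finsum_quot (m : ℕ) [NeZero m] (F : 𝓞 QF → ℂ) (G : ZMod m → ZMod m → ℂ)
    (h : ∀ r, F r = G ((cre r : ℤ) : ZMod m) ((cim r : ℤ) : ZMod m)) :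
    ∑ᶠ r : 𝓞 QF ⧸ Ideal.span {(m : 𝓞 QF)}, F (Quotient.out r) = ∑ x, ∑ y, G x y := by
  set e : (𝓞 QF ⧸ Ideal.span {(m : 𝓞 QF)}) → ZMod m × ZMod m := fun r =>
    (((cre (Quotient.out r) : ℤ) : ZMod m), ((cim (Quotient.out r) : ℤ) : ZMod m)) with he
  have hbij : Function.Bijective e := by
    constructor
    · intro r s hrs
      have h1 := congrArg Prod.fst hrs
      have h2 := congrArg Prod.snd hrs
      simp only [he] at h1 h2
      have h3 : (Quotient.out r - Quotient.out s : 𝓞 QF) ∈ Ideal.span {(m : 𝓞 QF)} := by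
        rw [mem_span_nat, cre_sub, cim_sub]
        push_cast
        rw [h1, h2, sub_self, sub_self]
        exact ⟨rfl, rfl⟩
      have h4 := (Ideal.Quotient.eq (I := Ideal.span {(m : 𝓞 QF)})).2 h3
      have h5 : ∀ t : 𝓞 QF ⧸ Ideal.span {(m : 𝓞 QF)},
          Ideal.Quotient.mk (Ideal.span {(m : 𝓞 QF)}) (Quotient.out t) = t := fun t =>
        Quotient.out_eq t
      rw [h5, h5] at h4
      exact h4
    · rintro ⟨x, y⟩
      obtain ⟨a, rfl⟩ := ZMod.intCast_surjective x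
      obtain ⟨b, rfl⟩ := ZMod.intCast_surjective y
      refine ⟨Ideal.Quotient.mk _ ((a : 𝓞 QF) + b * om), ?_⟩
      have h3 : (Quotient.out (Ideal.Quotient.mk (Ideal.span {(m : 𝓞 QF)}) ((a : 𝓞 QF) + b * om)) -
          ((a : 𝓞 QF) + b * om) : 𝓞 QF) ∈ Ideal.span {(m : 𝓞 QF)} := by
        rw [← Ideal.Quotient.eq]
        exact Quotient.out_eq _
      rw [mem_span_nat, cre_sub, cim_sub, cre_mk, cim_mk] at h3
      push_cast at h3
      simp only [he]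
      rw [Prod.mk.injEq]
      exact ⟨sub_eq_zero.1 h3.1, sub_eq_zero.1 h3.2⟩
  rw [finsum_eq_of_bijective (f := fun r : 𝓞 QF ⧸ Ideal.span {(m : 𝓞 QF)} => F (Quotient.out r))
    (g := fun p : ZMod m × ZMod m => G p.1 p.2) e hbij (fun r => h _),
    finsum_eq_sum_of_fintype, Fintype.sum_prod_type]

/-! ## the values of the function to be transformed -/

/-- the parity -/
def Par {q : ℕ} (χ : DirichletCharacter ℂ q) (e0 : ℕ) : Prop := e0 ≤ 1 ∧ χ (-1) = (-1) ^ e0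

lemma chi_norm {q : ℕ} {χ : DirichletCharacter ℂ q} {e0 : ℕ} (h : Par χ e0) {n : ℤ} (hn : n ≠ 0) :
    χ ((n.natAbs : ℕ) : ZMod q) * (((SignType.sign n : SignType) : ℤ) : ℂ) ^ e0 = χ (n : ZMod q) := by
  rcases lt_or_gt_of_ne hn with h1 | h1
  · rw [sign_neg h1]
    have h2 : (n : ZMod q) = (-1) * ((n.natAbs : ℕ) : ZMod q) := by
      have h3 : (n : ℤ) = -1 * (n.natAbs : ℤ) := by omega
      have h4 := congrArg (fun k : ℤ => (k : ZMod q)) h3
      rw [h4, Int.cast_mul, Int.cast_neg, Int.cast_one, Int.cast_natCast]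
    rw [h2, map_mul, h.2]
    simp only [SignType.coe_neg_one, Int.cast_neg, Int.cast_one]
    ring
  · rw [sign_pos h1]
    have h2 : (n : ZMod q) = ((n.natAbs : ℕ) : ZMod q) := by
      have h3 : (n : ℤ) = (n.natAbs : ℤ) := by omega
      have h4 := congrArg (fun k : ℤ => (k : ZMod q)) h3
      rw [h4, Int.cast_natCast]
    rw [h2]
    simp

lemma norm_ne {r : 𝓞 QF} (hr : r ≠ 0) : Algebra.norm ℤ r ≠ 0 :=
  Algebra.norm_ne_zero_iff.2 hr

lemma tw_span {a : MulChar (ZMod 41) ℂ} (ha : IsQ a) {q : ℕ} {χ : DirichletCharacter ℂ q} {e0 : ℕ}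
    (h : Par χ e0) (r : 𝓞 QF) : tw (psi ha) χ (Ideal.span {r}) * sg (fun _ => e0) (r : QF) =
      f0 a r * χ ((Algebra.norm ℤ r : ℤ) : ZMod q) := by
  rw [tw_apply, psi_span]
  by_cases hr : r = 0
  · rw [hr, map_zero, zero_mul, zero_mul, zero_mul]
  · rw [Ideal.absNorm_span_singleton, sg_const, mul_assoc, chi_norm h (norm_ne hr)]

lemma Ps_top {a : MulChar (ZMod 41) ℂ} (ha : IsQ a) {q : ℕ} {χ : DirichletCharacter ℂ q} {e0 : ℕ}
    (h : Par χ e0) (r : 𝓞 QF) : Ps (tw (psi ha) χ) (fun _ => e0) ⊤ r =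
      f0 a r * χ ((Algebra.norm ℤ r : ℤ) : ZMod q) := by
  unfold Ps
  rw [Pool.Agent.Y773.qt_eq (𝔟 := ⊤) (𝔞 := Ideal.span {r}) (by
    rw [← Ideal.one_eq_top]; exact one_ne_zero) (Ideal.mul_top _), tw_span ha h]

lemma Ps_five {a : MulChar (ZMod 41) ℂ} (ha : IsQ a) {q : ℕ} {χ : DirichletCharacter ℂ q} {e0 : ℕ} :
    Ps (tw (psi ha) χ) (fun _ => e0) (Ideal.span {(5 : 𝓞 QF)}) (5 : 𝓞 QF) = 1 := by
  have h5 : (5 : 𝓞 QF) ≠ 0 := by norm_num
  unfold Ps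
  rw [Pool.Agent.Y773.qt_eq (𝔟 := Ideal.span {(5 : 𝓞 QF)}) (𝔞 := ⊤) (by
    rw [Ne, Ideal.span_singleton_eq_bot]; exact h5) (Ideal.top_mul _)]
  have h1 : tw (psi ha) χ (⊤ : Ideal (𝓞 QF)) = 1 := by
    rw [← Ideal.one_eq_top, map_one]
  have h2 : Algebra.norm ℤ (5 : 𝓞 QF) = 25 := by
    have h3 : (5 : 𝓞 QF) = ((5 : ℤ) : 𝓞 QF) + ((0 : ℤ) : 𝓞 QF) * om := by norm_num
    rw [norm_int, h3, cre_mk, cim_mk]
    norm_num
  rw [h1, sg_const, h2, sign_pos (by norm_num : (0 : ℤ) < 25)]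
  simp

/-! ## the Gauss sum -/

lemma par_one {q : ℕ} {χ : DirichletCharacter ℂ q} {e0 : ℕ} (h : Par χ e0) :
    ((-1 : ℂ)) ^ e0 * χ (-1) = 1 := by
  rw [h.2, ← mul_pow]
  norm_num

theorem FT_eval {a : MulChar (ZMod 41) ℂ} (ha : IsQ a) {q : ℕ} (hq0 : 0 < q)
    {χ : DirichletCharacter ℂ q} (hχ : χ.IsPrimitive) (hr : χ⁻¹ = χ) (hq : q.Coprime 205) {e0 : ℕ}
    (h : Par χ e0) :
    FT 5 (5 * (41 * q)) (Ps (tw (psi ha) χ) (fun _ => e0) ⊤) 5 = -(205 * q * g5) * χ (-1) := by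
  have : NeZero q := ⟨hq0.ne'⟩
  have : NeZero (41 * q) := ⟨by positivity⟩
  have : NeZero (5 * (41 * q)) := ⟨by positivity⟩
  have h2 : Nat.Coprime 41 q := (Nat.Coprime.coprime_dvd_right (by norm_num : 41 ∣ 205) hq).symm
  have h1 : Nat.Coprime 5 (41 * q) :=
    Nat.Coprime.mul_right (by norm_num) (Nat.Coprime.coprime_dvd_right (by norm_num : 5 ∣ 205) hq).symm
  have htr : ∀ r : 𝓞 QF, Algebra.trace ℤ (𝓞 QF) (5 * r) = 5 * (2 * cre r + cim r) := by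
    intro r
    have : (5 * r : 𝓞 QF) = (5 : ℤ) • r := by rw [zsmul_eq_mul]; push_cast; rfl
    rw [this, map_zsmul, trace_int, smul_eq_mul]
  unfold FT
  rw [if_pos (fun r => by rw [htr]; exact dvd_mul_right _ _)]
  rw [← comb_eval ha hχ hr h1 h2]
  refine finsum_quot (5 * (41 * q)) (fun r => Ps (tw (psi ha) χ) (fun _ => e0) ⊤ r *
    Complex.exp (2 * Real.pi * Complex.I * ((Algebra.trace ℤ (𝓞 QF) (5 * r) : ℤ) : ℂ) /
      ((5 * (41 * q) * 5 : ℕ) : ℂ))) _ fun r => ?_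
  have e1 : ∀ n : ℤ, (ZMod.chineseRemainder h1 (n : ZMod (5 * (41 * q)))).1 = (n : ZMod 5) := by
    intro n; rw [map_intCast]; rfl
  have e2 : ∀ n : ℤ, (ZMod.chineseRemainder h1 (n : ZMod (5 * (41 * q)))).2 = (n : ZMod (41 * q)) := by
    intro n; rw [map_intCast]; rfl
  have e3 : ∀ n : ℤ, (ZMod.chineseRemainder h2 (n : ZMod (41 * q))).1 = (n : ZMod 41) := by
    intro n; rw [map_intCast]; rfl
  have e4 : ∀ n : ℤ, (ZMod.chineseRemainder h2 (n : ZMod (41 * q))).2 = (n : ZMod q) := by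
    intro n; rw [map_intCast]; rfl
  simp only [e1, e2, e3, e4]
  rw [Ps_top ha h, f0_apply, r5, rP, rQ, red_apply, red_apply, red_apply, norm_int]
  have e5 : ((((cre r) * (cre r) + (cre r) * (cim r) - (cim r) * (cim r) : ℤ)) : ZMod q) =
      Nf ((cre r : ℤ) : ZMod q) ((cim r : ℤ) : ZMod q) := by
    unfold Nf
    push_cast
    rfl
  rw [e5]
  have e6 : ex (5 * (41 * q)) 1 (2 * ((cre r : ℤ) : ZMod (5 * (41 * q))) +
      ((cim r : ℤ) : ZMod (5 * (41 * q)))) =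
      Complex.exp (2 * Real.pi * Complex.I * ((Algebra.trace ℤ (𝓞 QF) (5 * r) : ℤ) : ℂ) /
      ((5 * (41 * q) * 5 : ℕ) : ℂ)) := by
    have e7 : (2 * ((cre r : ℤ) : ZMod (5 * (41 * q))) + ((cim r : ℤ) : ZMod (5 * (41 * q)))) =
        ((2 * cre r + cim r : ℤ) : ZMod (5 * (41 * q))) := by push_cast; ring
    rw [e7, ex_int, htr]
    congr 1
    have hq' : (q : ℂ) ≠ 0 := by exact_mod_cast hq0.ne'
    push_cast
    field_simp
  rw [← e6]
  ring

lemma cond_mul (q : ℕ) : cond * Ideal.span {(q : 𝓞 QF)} = Ideal.span {41 * rt5 * (q : 𝓞 QF)} := by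
  rw [cond, Ideal.span_singleton_mul_span_singleton]

lemma absNorm_cond_mul (q : ℕ) :
    Ideal.absNorm (cond * Ideal.span {(q : 𝓞 QF)}) = 5 * 41 ^ 2 * q ^ 2 := by
  rw [map_mul, absNorm_cond, Ideal.absNorm_span_singleton]
  congr 1
  have h3 : (q : 𝓞 QF) = (((q : ℤ)) : 𝓞 QF) + ((0 : ℤ) : 𝓞 QF) * om := by push_cast; ring
  rw [norm_int, h3, cre_mk, cim_mk]
  simp only [mul_zero, add_zero, sub_zero]
  rw [Int.natAbs_mul, Int.natAbs_natCast, pow_two]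

theorem tau_eval {a : MulChar (ZMod 41) ℂ} (ha : IsQ a) {q : ℕ} (hq0 : 0 < q)
    {χ : DirichletCharacter ℂ q} (hχ : χ.IsPrimitive) (hr : χ⁻¹ = χ) (hq : q.Coprime 205) {e0 : ℕ}
    (h : Par χ e0) {τ : ℂ} (hτ : ∀ (𝔟 𝔟' : Ideal (𝓞 QF)) (m D : ℕ), 0 < m → 0 < D →
        𝔟' * (𝔟 * (cond * Ideal.span {(q : 𝓞 QF)}) * differentIdeal ℤ (𝓞 QF)) =
          Ideal.span {((m * D : ℕ) : 𝓞 QF)} →
        (m : 𝓞 QF) ∈ 𝔟 * (cond * Ideal.span {(q : 𝓞 QF)}) →
        (D : 𝓞 QF) ∈ differentIdeal ℤ (𝓞 QF) → ∀ x : 𝓞 QF,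
          FT D m (Ps (tw (psi ha) χ) (fun _ => e0) 𝔟) x = τ * ((m : ℂ) ^ (Module.finrank ℚ QF) /
            ((Ideal.absNorm 𝔟 : ℂ) * (Ideal.absNorm (cond * Ideal.span {(q : 𝓞 QF)}) : ℂ))) *
              (starRingEnd ℂ) (Ps (tw (psi ha) χ) (fun _ => e0) 𝔟' x)) :
    τ = -(41 * q * g5) * χ (-1) := by
  have hq' : (q : ℂ) ≠ 0 := by exact_mod_cast hq0.ne'
  have h1 := hτ ⊤ (Ideal.span {(5 : 𝓞 QF)}) (5 * (41 * q)) 5 (by positivity) (by norm_num) (by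
    rw [Ideal.top_mul, cond_mul, different_QF, Ideal.span_singleton_mul_span_singleton,
      Ideal.span_singleton_mul_span_singleton]
    congr 2
    push_cast
    linear_combination (5 * 41 * (q : 𝓞 QF)) * rt5_sq) (by
    rw [Ideal.top_mul, cond_mul, Ideal.mem_span_singleton]
    refine ⟨rt5, ?_⟩
    push_cast
    linear_combination (-(41 * (q : 𝓞 QF))) * rt5_sq) (by
    rw [different_QF, Ideal.mem_span_singleton]
    refine ⟨rt5, ?_⟩
    rw [rt5_sq]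
    norm_num) 5
  rw [FT_eval ha hq0 hχ hr hq h, Ps_five, absNorm_cond_mul, Ideal.absNorm_top, finrank_QF,
    map_one] at h1
  have h2 : ((((5 * (41 * q) : ℕ)) : ℂ) ^ 2 / (((1 : ℕ) : ℂ) * ((5 * 41 ^ 2 * q ^ 2 : ℕ) : ℂ))) = 5 := by
    push_cast
    field_simp
    norm_num
  rw [h2] at h1
  linear_combination (-(1 / 5 : ℂ)) * h1

/-! ## the characters are ray class characters -/

lemma norm_mod (q : ℕ) {x : 𝓞 QF} (h : x - 1 ∈ Ideal.span {(q : 𝓞 QF)}) :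
    ((Algebra.norm ℤ x : ℤ) : ZMod q) = 1 := by
  rw [mem_span_nat, cre_sub, cim_sub, coord_one.1, coord_one.2] at h
  rw [norm_int]
  obtain ⟨h1, h2⟩ := h
  push_cast at h1 h2 ⊢
  have h3 : ((cre x : ℤ) : ZMod q) = 1 := sub_eq_zero.1 h1
  have h4 : ((cim x : ℤ) : ZMod q) = 0 := by rw [← h2]; ring
  rw [h3, h4]
  ring

theorem isModChar_tw {a : MulChar (ZMod 41) ℂ} (ha : IsQ a) {q : ℕ} (hq0 : 0 < q)
    {χ : DirichletCharacter ℂ q} {e0 : ℕ} (h : Par χ e0) :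
    IsModChar (cond * Ideal.span {(q : 𝓞 QF)}) (fun _ => e0) (tw (psi ha) χ) := by
  have hN : Ideal.absNorm (cond * Ideal.span {(q : 𝓞 QF)}) = 5 * 41 ^ 2 * q ^ 2 :=
    absNorm_cond_mul q
  refine ⟨?_, ?_, fun _ => h.1, fun w hw => ?_, fun 𝔞 => ?_, fun x hx hx1 => ?_⟩
  · intro h0
    rw [h0, Ideal.absNorm_bot] at hN
    have : 0 < 5 * 41 ^ 2 * q ^ 2 := by positivity
    omega
  · intro h0
    rw [h0, Ideal.absNorm_top] at hN
    have : 0 < q ^ 2 := by positivity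
    omega
  · exact absurd (w_isReal w) (InfinitePlace.not_isReal_iff_isComplex.2 hw)
  · rw [tw_apply, mul_ne_zero_iff, IsCoprime.mul_right_iff]
    refine and_congr ?_ ?_
    · rw [← Ideal.span_singleton_generator 𝔞, psi_span, f0_ne_zero, isCoprime_cond]
    · rw [Pool.Agent.Y772.TW.coprime_q, ← ZMod.isUnit_iff_coprime]
      constructor
      · intro h1
        by_contra h2
        exact h1 (χ.map_nonunit h2)
      · intro h1
        exact (h1.map χ).ne_zero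
  · have l1 : cond * Ideal.span {(q : 𝓞 QF)} ≤ cond := Ideal.mul_le_left
    have l2 : cond * Ideal.span {(q : 𝓞 QF)} ≤ Ideal.span {(q : 𝓞 QF)} := Ideal.mul_le_right
    have h1 : x - 1 ∈ cond := l1 hx1
    have h2 : x - 1 ∈ Ideal.span {(q : 𝓞 QF)} := l2 hx1
    have h3 := tw_span ha h x
    have h4 : f0 a x = 1 := by
      rw [← map_one (f0 a)]
      exact f0_congr h1
    rw [h4, norm_mod q h2, map_one, mul_one] at h3
    have h5 := Pool.Agent.Y772.G.sg_sq (fun _ => e0) (x := (x : QF)) (by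
      intro h6
      apply hx
      exact RingOfIntegers.ext (h6.trans coe_zero'.symm))
    have h6 : sg (fun _ => e0) (x : QF) ≠ 0 := by
      intro h7
      rw [h7] at h5
      norm_num at h5
    apply mul_right_cancel₀ h6
    rw [h3, ← pow_two, h5]

/-- **vanishing at the centre** -/
theorem vanish_tw {a : MulChar (ZMod 41) ℂ} (ha : IsQ a) {q : ℕ} (hq0 : 0 < q)
    {χ : DirichletCharacter ℂ q} (hχ : χ.IsPrimitive) (hr : χ⁻¹ = χ) (hq : q.Coprime 205) :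
    IsPrimChar QF (cond * Ideal.span {(q : 𝓞 QF)}) (tw (psi ha) χ) ∧
    (∀ 𝔞 : Ideal (𝓞 QF), ‖tw (psi ha) χ 𝔞‖ ≤ 1) ∧
    ∃ F : ℂ → ℂ, Differentiable ℂ F ∧ (∀ s : ℂ, 1 < s.re → F s = LI (tw (psi ha) χ) s) ∧
      F (1 / 2) = 0 := by
  have hprim : IsPrimChar QF (cond * Ideal.span {(q : 𝓞 QF)}) (tw (psi ha) χ) := by
    refine Pool.Agent.Y772.G.t_tw QF cond (psi ha) (prim_psi ha) q χ hq0 hχ ?_ ?_
    · rw [absNorm_cond]
      have h2 : Nat.Coprime q 41 := (Nat.Coprime.coprime_dvd_right (by norm_num : 41 ∣ 205) hq)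
      have h1 : Nat.Coprime q 5 := (Nat.Coprime.coprime_dvd_right (by norm_num : 5 ∣ 205) hq)
      exact Nat.Coprime.mul_right h1 (Nat.Coprime.pow_right 2 h2)
    · rw [discr_QF]
      have h1 : Nat.Coprime q 5 := (Nat.Coprime.coprime_dvd_right (by norm_num : 5 ∣ 205) hq)
      exact_mod_cast Nat.isCoprime_iff_coprime.2 h1
  have : NeZero q := ⟨hq0.ne'⟩
  have hconj : IsReal χ := by
    intro x
    have h1 : (starRingEnd ℂ) (χ x) = χ⁻¹ x := by
      exact MulChar.star_apply' χ x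
    rw [h1, hr]
  have hpar : ∃ e0, Par χ e0 := by
    have h1 : χ (-1) * χ (-1) = 1 := by rw [← map_mul]; norm_num
    rcases mul_self_eq_one_iff.1 h1 with h2 | h2
    · exact ⟨0, by norm_num, by rw [h2]; norm_num⟩
    · exact ⟨1, le_refl _, by rw [h2]; norm_num⟩
  obtain ⟨e0, he0⟩ := hpar
  refine ⟨hprim, (isModChar_tw ha hq0 he0).norm_le_one, ?_⟩
  refine Pool.Agent.Y773.G.R423.vanish hprim (isModChar_tw ha hq0 he0) (fun s _ => LI_real ha hconj s)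
    fun τ hτ => ?_
  have hτ' := tau_eval ha hq0 hχ hr hq he0 hτ
  have hqr : (0 : ℝ) < q := by exact_mod_cast hq0
  refine ⟨41 * q * g5, by have := g5_pos; positivity, ?_⟩
  have hsum : ∑ φ : QF →+* ℂ, eM (fun _ : InfinitePlace QF => e0) φ = 2 * e0 := by
    have : ∀ φ : QF →+* ℂ, eM (fun _ : InfinitePlace QF => e0) φ = e0 := fun φ => rfl
    simp_rw [this]
    rw [Finset.sum_const, Finset.card_univ, smul_eq_mul, Embeddings.card, finrank_QF]
  rw [hsum, hτ', pow_mul]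
  have h5 : (-I) ^ 2 = -1 := by rw [neg_sq, I_sq]
  rw [h5]
  push_cast
  linear_combination (-(41 * q * (g5 : ℂ))) * par_one he0

end Pool.Agent.R423.GC
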