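import Pool.Agent.R423.GC.Dec

/-!
# All quadratic twists have vanishing central value
-/

set_option autoImplicit false

open NumberField ZMod
open scoped QuadraticAlgebra
open Pool.Agent.Y773 (TPos tw LI)
open Pool.Agent.Y773.G (IsPrimChar)

namespace Pool.Agent.R423.GC

lemma inv_of_Inv {q : ℕ} {χ : DirichletCharacter ℂ q} (h : Inv χ) : χ⁻¹ = χ := by
  ext u
  rw [MulChar.inv_apply_eq_inv, Ring.inverse_eq_inv']
  exact inv_eq_of_mul_eq_one_right (h u u.isUnit)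

lemma Inv_of_sq {q : ℕ} {χ : DirichletCharacter ℂ q} (h : χ ^ 2 = 1) : Inv χ := by
  intro u hu
  have h1 : (χ ^ 2) u = 1 := by rw [h, MulChar.one_apply hu]
  rwa [pow_two, MulChar.mul_apply] at h1

/-- the reduction to a primitive character of conductor prime to `205` -/
lemma reduce {Q : ℕ} (hQ : 0 < Q) (η : DirichletCharacter ℂ Q) (hη : Inv η) :
    ∃ (q : ℕ) (χ : DirichletCharacter ℂ q), 0 < q ∧ q ∣ Q ∧ q.Coprime 205 ∧ χ.IsPrimitive ∧ χ⁻¹ = χ ∧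
      ∃ α β : ℕ, α ≤ 1 ∧ β ≤ 1 ∧ ∀ n : ℕ, n.Coprime Q →
        η (n : ZMod Q) = c5 (n : ZMod 5) ^ α * c41 (n : ZMod 41) ^ β * χ (n : ZMod q) := by
  obtain ⟨m₁, η₁, hm₁, hd₁, hc₁, hi₁, h₁⟩ := decomp (p := 5) (by norm_num) hQ η hη
  obtain ⟨m₂, η₂, hm₂, hd₂, hc₂, hi₂, h₂⟩ := decomp (p := 41) (by norm_num) hm₁ η₁ hi₁
  have : NeZero m₂ := ⟨hm₂.ne'⟩
  have hcd : η₂.conductor ∣ m₂ := DirichletCharacter.conductor_dvd_level η₂
  have hdQ : m₂ ∣ Q := hd₂.trans hd₁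
  refine ⟨η₂.conductor, η₂.primitiveCharacter,
    Nat.pos_of_ne_zero (DirichletCharacter.conductor_ne_zero η₂), hcd.trans hdQ, ?_,
    DirichletCharacter.primitiveCharacter_isPrimitive η₂, ?_, ?_⟩
  · have k5 : m₂.Coprime 5 := Nat.Coprime.coprime_dvd_left hd₂ hc₁
    have : (205 : ℕ) = 5 * 41 := by norm_num
    rw [this]
    exact Nat.Coprime.coprime_dvd_left hcd (Nat.Coprime.mul_right k5 hc₂)
  · apply DirichletCharacter.changeLevel_injective hcd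
    rw [map_inv, DirichletCharacter.changeLevel_primitiveCharacter]
    exact inv_of_Inv hi₂
  · have hprim : ∀ n : ℕ, n.Coprime Q → η₂ (n : ZMod m₂) =
        η₂.primitiveCharacter (n : ZMod η₂.conductor) := by
      intro n hn
      have h3 : IsCoprime (n : ℤ) (m₂ : ℤ) :=
        Nat.isCoprime_iff_coprime.2 (Nat.Coprime.coprime_dvd_right hdQ hn)
      have h4 := DirichletCharacter.primitiveCharacter_apply_of_isCoprime η₂ h3
      rw [Int.cast_natCast, Int.cast_natCast] at h4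
      exact h4.symm
    have hcop : ∀ n : ℕ, n.Coprime Q → n.Coprime m₁ := fun n hn =>
      Nat.Coprime.coprime_dvd_right hd₁ hn
    rcases h₁ with h₁ | h₁ <;> rcases h₂ with h₂ | h₂
    · refine ⟨0, 0, by norm_num, by norm_num, fun n hn => ?_⟩
      rw [h₁ n hn, h₂ n (hcop n hn), hprim n hn, pow_zero, pow_zero, one_mul, one_mul]
    · refine ⟨0, 1, by norm_num, le_refl _, fun n hn => ?_⟩
      rw [h₁ n hn, h₂ n (hcop n hn), hprim n hn, pow_zero, pow_one, one_mul]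
      rfl
    · refine ⟨1, 0, le_refl _, by norm_num, fun n hn => ?_⟩
      rw [h₁ n hn, h₂ n (hcop n hn), hprim n hn, pow_zero, pow_one, mul_one]
      rfl
    · refine ⟨1, 1, le_refl _, le_refl _, fun n hn => ?_⟩
      rw [h₁ n hn, h₂ n (hcop n hn), hprim n hn, pow_one, pow_one, mul_assoc]
      rfl

lemma c5_norm {x : 𝓞 QF} (hx : r5 x ≠ 0) :
    c5 ((Ideal.absNorm (Ideal.span {x}) : ℕ) : ZMod 5) = 1 := by
  have h1 : c5 ((Algebra.norm ℤ x : ℤ) : ZMod 5) = 1 := by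
    rw [norm_mod5, map_mul]
    exact c5_sq hx
  rw [Ideal.absNorm_span_singleton]
  have h2 : (((Algebra.norm ℤ x).natAbs : ℕ) : ZMod 5) = ((Algebra.norm ℤ x : ℤ) : ZMod 5) ∨
      (((Algebra.norm ℤ x).natAbs : ℕ) : ZMod 5) = -((Algebra.norm ℤ x : ℤ) : ZMod 5) := by
    rcases Int.natAbs_eq (Algebra.norm ℤ x) with h | h
    · left
      have := congrArg (fun n : ℤ => (n : ZMod 5)) h
      simp only [Int.cast_natCast] at this
      exact this.symm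
    · right
      have := congrArg (fun n : ℤ => (n : ZMod 5)) h
      simp only [Int.cast_natCast, Int.cast_neg] at this
      rw [this, neg_neg]
  rcases h2 with h2 | h2
  · rw [h2, h1]
  · rw [h2, ← neg_one_mul, map_mul, c5_neg, one_mul, h1]

lemma c41_neg : c41 (-1) = 1 := by
  have h1 : (-1 : ZMod 41) = 9 * 9 := by decide
  rw [h1, map_mul, c41_9, mul_one]

lemma c41_norm (x : 𝓞 QF) :
    c41 ((Ideal.absNorm (Ideal.span {x}) : ℕ) : ZMod 41) = c41 (rP x) * c41 (rQ x) := by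
  have h1 : c41 ((Algebra.norm ℤ x : ℤ) : ZMod 41) = c41 (rP x) * c41 (rQ x) := by
    rw [norm_mod41, map_mul]
  rw [Ideal.absNorm_span_singleton]
  have h2 : (((Algebra.norm ℤ x).natAbs : ℕ) : ZMod 41) = ((Algebra.norm ℤ x : ℤ) : ZMod 41) ∨
      (((Algebra.norm ℤ x).natAbs : ℕ) : ZMod 41) = -((Algebra.norm ℤ x : ℤ) : ZMod 41) := by
    rcases Int.natAbs_eq (Algebra.norm ℤ x) with h | h
    · left
      have := congrArg (fun n : ℤ => (n : ZMod 41)) h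
      simp only [Int.cast_natCast] at this
      exact this.symm
    · right
      have := congrArg (fun n : ℤ => (n : ZMod 41)) h
      simp only [Int.cast_natCast, Int.cast_neg] at this
      rw [this, neg_neg]
  rcases h2 with h2 | h2
  · rw [h2, h1]
  · rw [h2, ← neg_one_mul, map_mul, c41_neg, one_mul, h1]

lemma a_c41 {a : MulChar (ZMod 41) ℂ} (ha : IsQ a) (x : ZMod 41) : a x * c41 x = a⁻¹ x := by
  by_cases hx : x = 0
  · rw [hx, MulChar.map_zero, zero_mul, MulChar.map_zero]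
  · have hu : IsUnit x := isUnit_iff_ne_zero.2 hx
    rw [MulChar.inv_apply_eq_inv, Ring.inverse_eq_inv']
    symm
    apply inv_eq_of_mul_eq_one_right
    have h1 : c41 x * c41 x = 1 := by
      rw [c41_apply, ← Int.cast_mul, ← pow_two, quadraticChar_sq_one hx, Int.cast_one]
    rw [← mul_assoc, ha.sq, h1]

lemma psi_c41 {a : MulChar (ZMod 41) ℂ} (ha : IsQ a) (x : 𝓞 QF) :
    psi ha (Ideal.span {x}) * c41 ((Ideal.absNorm (Ideal.span {x}) : ℕ) : ZMod 41) =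
      psi ha.inv (Ideal.span {x}) := by
  rw [c41_norm, psi_span, psi_span, f0_apply, f0_apply]
  have h1 := a_c41 ha (rP x)
  have h2 := a_c41 ha.inv (rQ x)
  rw [← h1, ← h2]
  ring

/-- **All quadratic twists have vanishing central value** -/
theorem twist_vanish {a : MulChar (ZMod 41) ℂ} (ha : IsQ a) {Q : ℕ} (hQ : 0 < Q)
    (η : DirichletCharacter ℂ Q) (hη : Inv η) :
    ∃ (𝔣' : Ideal (𝓞 QF)) (ψ' : Ideal (𝓞 QF) →*₀ ℂ), IsPrimChar QF 𝔣' ψ' ∧ 𝔣' ≠ ⊤ ∧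
      (∀ 𝔞 : Ideal (𝓞 QF), IsCoprime 𝔞 (cond * Ideal.span {(Q : 𝓞 QF)}) →
        ψ' 𝔞 = psi ha 𝔞 * η ((Ideal.absNorm 𝔞 : ℕ) : ZMod Q)) ∧
      (∀ 𝔞 : Ideal (𝓞 QF), ‖ψ' 𝔞‖ ≤ 1) ∧
      ∃ F : ℂ → ℂ, Differentiable ℂ F ∧ (∀ s : ℂ, 1 < s.re → F s = LI ψ' s) ∧ F (1 / 2) = 0 := by
  obtain ⟨q, χ, hq0, hqQ, hq205, hχ, hr, α, β, hα, hβ, hdec⟩ := reduce hQ η hη
  have htop : cond * Ideal.span {(q : 𝓞 QF)} ≠ ⊤ := by
    intro h0
    have hN := absNorm_cond_mul q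
    rw [h0, Ideal.absNorm_top] at hN
    have : 0 < q ^ 2 := by positivity
    omega
  have key : ∀ (b : MulChar (ZMod 41) ℂ) (hb : IsQ b),
      (∀ x : 𝓞 QF, psi ha (Ideal.span {x}) *
        c41 ((Ideal.absNorm (Ideal.span {x}) : ℕ) : ZMod 41) ^ β = psi hb (Ideal.span {x})) →
      ∃ (𝔣' : Ideal (𝓞 QF)) (ψ' : Ideal (𝓞 QF) →*₀ ℂ), IsPrimChar QF 𝔣' ψ' ∧ 𝔣' ≠ ⊤ ∧
      (∀ 𝔞 : Ideal (𝓞 QF), IsCoprime 𝔞 (cond * Ideal.span {(Q : 𝓞 QF)}) →
        ψ' 𝔞 = psi ha 𝔞 * η ((Ideal.absNorm 𝔞 : ℕ) : ZMod Q)) ∧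
      (∀ 𝔞 : Ideal (𝓞 QF), ‖ψ' 𝔞‖ ≤ 1) ∧
      ∃ F : ℂ → ℂ, Differentiable ℂ F ∧ (∀ s : ℂ, 1 < s.re → F s = LI ψ' s) ∧ F (1 / 2) = 0 := by
    intro b hb hab
    obtain ⟨h1, h3, h2⟩ := vanish_tw hb hq0 hχ hr hq205
    refine ⟨_, _, h1, htop, fun 𝔞 h𝔞 => ?_, h3, h2⟩
    rw [IsCoprime.mul_right_iff] at h𝔞
    have h3 := Pool.Agent.Y772.TW.coprime_q.1 h𝔞.2
    rw [hdec _ h3, tw_apply]
    obtain ⟨x, rfl⟩ : ∃ x : 𝓞 QF, 𝔞 = Ideal.span {x} :=
      ⟨_, (Ideal.span_singleton_generator 𝔞).symm⟩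
    rw [c5_norm (isCoprime_cond.1 h𝔞.1).1, one_pow, one_mul, ← hab x]
    ring
  interval_cases β
  · exact key a ha (fun x => by rw [pow_zero, mul_one])
  · exact key a⁻¹ ha.inv (fun x => by rw [pow_one, psi_c41 ha])

end Pool.Agent.R423.GC
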